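import Pool.Agent.Helper922.HB.MV

/-! Homology equivalences can be checked on a cover (five lemma). -/

namespace Pool.Agent.Helper922.HB

universe u v w



variable {X : Type u} [TopologicalSpace X] {Y : Type v} [TopologicalSpace Y]

section HEcoverAux

variable (f : C(X, Y)) (U V : Set Y)

theorem HEcover_sub (U : Set Y) (n : ℕ) (u : Sing ↥(f ⁻¹' U) n →₀ ℤ) :
    push f n (push (sub (f ⁻¹' U)) n u) = push (sub U) n (push (f.restrictPreimage U) n u) := by
  rw [push_push, push_push]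
  rfl

theorem HEcover_inl (n : ℕ) (d : Sing ↥(f ⁻¹' U ∩ f ⁻¹' V) n →₀ ℤ) :
    push (f.restrictPreimage U) n (push (inl (f ⁻¹' U) (f ⁻¹' V)) n d) =
      push (inl U V) n (push (f.restrictPreimage (U ∩ V)) n d) := by
  rw [push_push, push_push]
  rfl

theorem HEcover_inr (n : ℕ) (d : Sing ↥(f ⁻¹' U ∩ f ⁻¹' V) n →₀ ℤ) :
    push (f.restrictPreimage V) n (push (inr (f ⁻¹' U) (f ⁻¹' V)) n d) =
      push (inr U V) n (push (f.restrictPreimage (U ∩ V)) n d) := by
  rw [push_push, push_push]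
  rfl

theorem HEcover_lr (n : ℕ) (d : Sing ↥(U ∩ V) n →₀ ℤ) :
    push (sub U) n (push (inl U V) n d) = push (sub V) n (push (inr U V) n d) := by
  rw [push_push, push_push]
  rfl

theorem HEcover_Cyc_succ (n : ℕ) (z : Sing X (n + 1) →₀ ℤ) :
    z ∈ Cyc X (n + 1) ↔ bdry X n z = 0 := Iff.rfl

/-- the last step of injectivity -/
theorem HEcover_last (hU : IsOpen U) (hV : IsOpen V)
    (hUV : ∀ y, y ∈ U ∨ y ∈ V) (h1 : HE (f.restrictPreimage U)) (h2 : HE (f.restrictPreimage V))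
    (h12 : HE (f.restrictPreimage (U ∩ V))) (n : ℕ) (z : Sing X n →₀ ℤ)
    (u : Sing ↥(f ⁻¹' U) n →₀ ℤ) (v : Sing ↥(f ⁻¹' V) n →₀ ℤ)
    (hu : u ∈ Cyc _ n) (hv : v ∈ Cyc _ n)
    (hz : z - (push (sub (f ⁻¹' U)) n u + push (sub (f ⁻¹' V)) n v) ∈ Bdy X n)
    (hfz : push f n z ∈ Bdy Y n) : z ∈ Bdy X n := by
  have e1 : push (sub U) n (push (f.restrictPreimage U) n u) +
      push (sub V) n (push (f.restrictPreimage V) n v) ∈ Bdy Y n := by
    have h3 := push_mem_Bdy f n _ hz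
    have h4 := (Bdy Y n).sub_mem hfz h3
    rwa [map_sub, sub_sub_cancel, map_add, HEcover_sub, HEcover_sub] at h4
  obtain ⟨d, hd, hd1, hd2⟩ := mv_inj U V hU hV hUV n _ _
    (push_mem_Cyc (f.restrictPreimage U) n u hu) (push_mem_Cyc (f.restrictPreimage V) n v hv) e1
  obtain ⟨d1, hd1c, hd1b⟩ := (h12 n).2 d hd
  have a1 : u - push (inl (f ⁻¹' U) (f ⁻¹' V)) n d1 ∈ Bdy _ n := by
    refine (h1 n).1 _ (Submodule.sub_mem _ hu (push_mem_Cyc _ n _ hd1c)) ?_
    rw [map_sub, HEcover_inl]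
    have h5 := push_mem_Bdy (inl U V) n _ hd1b
    rw [map_sub] at h5
    have h6 := Submodule.add_mem _ hd1 h5
    rwa [sub_add_sub_cancel] at h6
  have a2 : v + push (inr (f ⁻¹' U) (f ⁻¹' V)) n d1 ∈ Bdy _ n := by
    refine (h2 n).1 _ (Submodule.add_mem _ hv (push_mem_Cyc _ n _ hd1c)) ?_
    rw [map_add, HEcover_inr]
    have h5 := push_mem_Bdy (inr U V) n _ hd1b
    rw [map_sub] at h5
    have h6 := Submodule.sub_mem _ hd2 h5
    convert h6 using 1
    abel
  have b1 := push_mem_Bdy (sub (f ⁻¹' U)) n _ a1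
  have b2 := push_mem_Bdy (sub (f ⁻¹' V)) n _ a2
  rw [map_sub, HEcover_lr] at b1
  rw [map_add] at b2
  have b3 := Submodule.add_mem _ hz (Submodule.add_mem _ b1 b2)
  rwa [sub_add_add_cancel, sub_add_cancel] at b3

end HEcoverAux

/-- TO PROVE -/
theorem HE_of_cover (f : C(X, Y)) (U V : Set Y) (hU : IsOpen U) (hV : IsOpen V)
    (hUV : ∀ y, y ∈ U ∨ y ∈ V) (h1 : HE (f.restrictPreimage U)) (h2 : HE (f.restrictPreimage V))
    (h12 : HE (f.restrictPreimage (U ∩ V))) : HE f := by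
  have hU' : IsOpen (f ⁻¹' U) := hU.preimage f.continuous
  have hV' : IsOpen (f ⁻¹' V) := hV.preimage f.continuous
  have hUV' : ∀ x, x ∈ f ⁻¹' U ∨ x ∈ f ⁻¹' V := fun x => hUV (f x)
  intro n
  rcases n with _ | n
  · constructor
    · intro z hz hfz
      obtain ⟨u, v, e⟩ := mv_zero (f ⁻¹' U) (f ⁻¹' V) hUV' z
      refine HEcover_last f U V hU hV hUV h1 h2 h12 0 z u v Submodule.mem_top Submodule.mem_top
        ?_ hfz
      rw [e, sub_self]
      exact Submodule.zero_mem _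
    · intro b hb
      obtain ⟨u, v, e⟩ := mv_zero U V hUV b
      obtain ⟨a, ha, ha'⟩ := (h1 0).2 u Submodule.mem_top
      obtain ⟨c, hc, hc'⟩ := (h2 0).2 v Submodule.mem_top
      refine ⟨push (sub (f ⁻¹' U)) 0 a + push (sub (f ⁻¹' V)) 0 c, Submodule.mem_top, ?_⟩
      rw [map_add, HEcover_sub, HEcover_sub, e, add_sub_add_comm, ← map_sub, ← map_sub]
      exact Submodule.add_mem _ (push_mem_Bdy _ 0 _ ha') (push_mem_Bdy _ 0 _ hc')
  · constructor
    · intro z hz hfz
      obtain ⟨u, v, d, hd, hz', hu, hv⟩ := mv_split (f ⁻¹' U) (f ⁻¹' V) hU' hV' hUV' n z hz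
      have e1 : push (sub U) (n + 1) (push (f.restrictPreimage U) (n + 1) u) +
          push (sub V) (n + 1) (push (f.restrictPreimage V) (n + 1) v) ∈ Bdy Y (n + 1) := by
        have h3 := push_mem_Bdy f (n + 1) _ hz'
        have h4 := (Bdy Y (n + 1)).sub_mem hfz h3
        rwa [map_sub, sub_sub_cancel, map_add, HEcover_sub, HEcover_sub] at h4
      have e2 : push (f.restrictPreimage (U ∩ V)) n d ∈ Bdy ↥(U ∩ V) n := by
        refine mv_conn U V hU hV hUV n _ _ _ ?_ ?_ e1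
        · rw [bdry_push, hu, HEcover_inl]
        · rw [bdry_push, hv, map_neg, HEcover_inr]
      obtain ⟨e, he⟩ := (h12 n).1 d hd e2
      have he' : bdry ↥(f ⁻¹' U ∩ f ⁻¹' V) n e = d := he
      refine HEcover_last f U V hU hV hUV h1 h2 h12 (n + 1) z
        (u - push (inl (f ⁻¹' U) (f ⁻¹' V)) (n + 1) e)
        (v + push (inr (f ⁻¹' U) (f ⁻¹' V)) (n + 1) e) ?_ ?_ ?_ hfz
      · rw [HEcover_Cyc_succ, map_sub, hu, bdry_push, he', sub_self]
      · rw [HEcover_Cyc_succ, map_add, hv, bdry_push, he', neg_add_cancel]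
      · rw [map_sub, map_add, HEcover_lr, sub_add_add_cancel]
        exact hz'
    · intro b hb
      obtain ⟨u, v, d, hd, hb', hu, hv⟩ := mv_split U V hU hV hUV n b hb
      obtain ⟨d', hd', e, he⟩ := (h12 n).2 d hd
      have he2 : push (f.restrictPreimage (U ∩ V)) n d' = d - bdry _ n e := by
        rw [he, sub_sub_cancel]
      obtain ⟨u', hu'⟩ := (h1 n).1 (push (inl (f ⁻¹' U) (f ⁻¹' V)) n d')
        (push_mem_Cyc _ n _ hd') (by
          refine ⟨u - push (inl U V) (n + 1) e, ?_⟩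
          rw [map_sub, hu, bdry_push, HEcover_inl, he2, map_sub])
      obtain ⟨v', hv'⟩ := (h2 n).1 (push (inr (f ⁻¹' U) (f ⁻¹' V)) n d')
        (push_mem_Cyc _ n _ hd') (by
          refine ⟨-(v + push (inr U V) (n + 1) e), ?_⟩
          rw [map_neg, map_add, hv, bdry_push, HEcover_inr, he2, map_sub]
          abel)
      have c1 : u - push (inl U V) (n + 1) e - push (f.restrictPreimage U) (n + 1) u' ∈
          Cyc U (n + 1) := by
        rw [HEcover_Cyc_succ, map_sub, map_sub, hu, bdry_push, bdry_push, hu', HEcover_inl, he2,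
          map_sub, sub_self]
      have c2 : v + push (inr U V) (n + 1) e + push (f.restrictPreimage V) (n + 1) v' ∈
          Cyc V (n + 1) := by
        rw [HEcover_Cyc_succ, map_add, map_add, hv, bdry_push, bdry_push, hv', HEcover_inr, he2,
          map_sub]
        abel
      obtain ⟨a, ha, ha'⟩ := (h1 (n + 1)).2 _ c1
      obtain ⟨c, hc, hc'⟩ := (h2 (n + 1)).2 _ c2
      refine ⟨push (sub (f ⁻¹' U)) (n + 1) (u' + a) + push (sub (f ⁻¹' V)) (n + 1) (c - v'),
        ?_, ?_⟩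
      · rw [HEcover_Cyc_succ] at ha hc ⊢
        rw [map_add, bdry_push, bdry_push, map_add, map_sub, ha, hc, hu', hv', add_zero, zero_sub,
          map_neg, HEcover_lr, add_neg_cancel]
      · rw [map_add, HEcover_sub, HEcover_sub]
        have b1 := push_mem_Bdy (sub U) (n + 1) _ ha'
        have b2 := push_mem_Bdy (sub V) (n + 1) _ hc'
        have b3 := Submodule.add_mem _ hb' (Submodule.add_mem _ b1 b2)
        have b4 := HEcover_lr U V (n + 1) e
        simp only [map_sub, map_add] at b3 ⊢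
        rw [b4] at b3
        convert b3 using 1
        abel

end Pool.Agent.Helper922.HB
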