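import Pool.Agent.Helper922.HB.Model

/-! The parameter space of the twisted product. -/

open scoped LinearAlgebra.Projectivization

namespace Pool.Agent.Helper922.HB

/-- the parameter space: `(w, t, v)` with `v ≠ 0` satisfying the Weierstrass equation for `t` -/
abbrev E0 : Type := {p : ℂ × ℂ × (Fin 3 → ℂ) // p.2.2 ≠ 0 ∧ Wei p.2.1 p.2.2}

/-- the parametrisation of the twisted product -/
noncomputable def qK (p : E0) : KK := eK p.1.1 p.1.2.1 p.1.2.2 p.2.1 p.2.2

theorem lam_pow_six (w : ℂ) :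
    ((Circle.exp (2 * Real.pi * w.re) : Circle) : ℂ) * lam w ^ 6 = 1 := by
  rw [Circle.coe_exp, lam, ← Complex.exp_nat_mul, ← Complex.exp_add]
  rw [Complex.exp_eq_one_iff]
  refine ⟨0, ?_⟩
  push_cast
  ring

theorem fK_eK (w t : ℂ) (v : Fin 3 → ℂ) (hv : v ≠ 0) (hW : Wei t v) : fK (eK w t v hv hW) = t := by
  change ((Circle.exp (2 * Real.pi * w.re) : Circle) : ℂ) * (lam w ^ 6 * t) = t
  rw [← mul_assoc, lam_pow_six, one_mul]

theorem zeta_pow_six : zeta ^ 6 = 1 := by
  rw [zeta, ← Complex.exp_nat_mul, Complex.exp_eq_one_iff]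
  refine ⟨1, ?_⟩
  push_cast
  ring

theorem zeta_ne : zeta ≠ 0 := Complex.exp_ne_zero _

theorem lam_add_one (w : ℂ) : zeta * lam (w + 1) = lam w := by
  rw [zeta, lam, lam, ← Complex.exp_add]
  congr 1
  simp only [Complex.add_re, Complex.one_re]
  push_cast
  ring

theorem lam_add_I (w : ℂ) : lam (w + Complex.I) = lam w := by
  rw [lam, lam]
  simp

end Pool.Agent.Helper922.HB
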