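import Mathlib

/-! Lifting maps from simplices to the circle. -/

namespace Pool.Agent.Helper922.HB

/-- TO PROVE -/
theorem circle_lift {n : ℕ} (σ : C(stdSimplex ℝ (Fin (n + 1)), Circle)) :
    ∃ τ : C(stdSimplex ℝ (Fin (n + 1)), ℝ), ∀ t, Circle.exp (τ t) = σ t := by
  classical
  have hconv := convex_stdSimplex ℝ (Fin (n + 1))
  let t0 : stdSimplex ℝ (Fin (n + 1)) := ⟨Pi.single 0 1, single_mem_stdSimplex ℝ 0⟩
  -- the contraction
  let K : unitInterval × stdSimplex ℝ (Fin (n + 1)) → stdSimplex ℝ (Fin (n + 1)) := fun p =>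
    ⟨(1 - (p.1 : ℝ)) • (t0 : Fin (n + 1) → ℝ) + (p.1 : ℝ) • (p.2 : Fin (n + 1) → ℝ),
      hconv t0.2 p.2.2 (by linarith [p.1.2.2]) p.1.2.1 (by ring)⟩
  have hK : Continuous K := by
    apply Continuous.subtype_mk
    fun_prop
  have hK0 : ∀ a, K (0, a) = t0 := by
    intro a
    apply Subtype.ext
    simp [K]
    rfl
  have hK1 : ∀ a, K (1, a) = a := by
    intro a
    apply Subtype.ext
    simp [K]
    rfl
  let H : C(unitInterval × stdSimplex ℝ (Fin (n + 1)), Circle) := ⟨fun p => σ (K p), σ.continuous.comp hK⟩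
  have hsurj : Function.Surjective Circle.exp := fun z => ⟨Complex.arg z, by
    rw [Circle.exp_arg]⟩
  obtain ⟨r, hr⟩ := hsurj (σ t0)
  let f : C(stdSimplex ℝ (Fin (n + 1)), ℝ) := ContinuousMap.const _ r
  have H0 : ∀ a, H (0, a) = Circle.exp (f a) := by
    intro a
    change σ (K (0, a)) = Circle.exp r
    rw [hK0, hr]
  let L := Circle.isCoveringMap_exp.liftHomotopy H f H0
  have hL : Circle.exp ∘ L = H := Circle.isCoveringMap_exp.liftHomotopy_lifts H f H0
  refine ⟨⟨fun a => L (1, a), L.continuous.comp (by fun_prop)⟩, fun a => ?_⟩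
  have := congrFun hL (1, a)
  change Circle.exp (L (1, a)) = σ (K (1, a)) at this
  rw [hK1] at this
  exact this

/-- TO PROVE -/
theorem simplex_preconnected (n : ℕ) : PreconnectedSpace (stdSimplex ℝ (Fin (n + 1))) := by
  have h : IsPreconnected (stdSimplex ℝ (Fin (n + 1))) := (convex_stdSimplex ℝ (Fin (n + 1))).isPreconnected
  exact isPreconnected_iff_preconnectedSpace.mp h

end Pool.Agent.Helper922.HB
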