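import Pool.Agent.Helper922.HB.TopDefs
import Pool.Agent.Helper922.HB.T4a

/-! Transfers for the power maps of the circle. -/

namespace Pool.Agent.Helper922.HB

universe u v w



variable {Q : Type u} [TopologicalSpace Q]

/-- rotation of the second factor -/
noncomputable def t4b_rot (Q : Type u) [TopologicalSpace Q] (η : Circle) :
    C(Q × Circle, Q × Circle) :=
  ⟨fun p => (p.1, η * p.2), by fun_prop⟩

/-- the coercion -/
noncomputable def t4b_c (z : Circle) : ℂ := z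

theorem t4b_c_inj : Function.Injective t4b_c := by
  intro a b h
  have h' : (a : ℂ) = (b : ℂ) := h
  exact Circle.ext h'

/-- roots of unity in the circle -/
noncomputable def t4b_mu (m : ℕ) : Finset Circle :=
  (Polynomial.nthRootsFinset m (1 : ℂ)).preimage t4b_c t4b_c_inj.injOn

theorem t4b_mem_mu {m : ℕ} (hm : 0 < m) (η : Circle) : η ∈ t4b_mu m ↔ η ^ m = 1 := by
  unfold t4b_mu
  rw [Finset.mem_preimage, Polynomial.mem_nthRootsFinset hm]
  show (η : ℂ) ^ m = 1 ↔ η ^ m = 1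
  constructor
  · intro h
    apply Circle.ext
    rw [Circle.coe_pow, h, Circle.coe_one]
  · intro h
    rw [← Circle.coe_pow, h, Circle.coe_one]

theorem t4b_card_mu {m : ℕ} (hm : 0 < m) : (t4b_mu m).card = m := by
  classical
  unfold t4b_mu
  rw [Finset.card_preimage, Finset.filter_true_of_mem]
  · exact (Complex.isPrimitiveRoot_exp m hm.ne').card_nthRootsFinset
  · intro z hz
    rw [Polynomial.mem_nthRootsFinset hm] at hz
    exact ⟨⟨z, mem_sphere_zero_iff_norm.mpr (norm_one_of_pow hm.ne' hz norm_one)⟩, rfl⟩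

theorem t4b_exists_lift {m n : ℕ} (hm : 0 < m) (σ : Sing (Q × Circle) n) :
    ∃ ρ : Sing (Q × Circle) n, (pw Q m).comp ρ = σ := by
  obtain ⟨τ, hτ⟩ := circle_lift (⟨fun t => (σ t).2, by fun_prop⟩ :
    C(stdSimplex ℝ (Fin (n + 1)), Circle))
  refine ⟨⟨fun t => ((σ t).1, Circle.exp (τ t / m)), by fun_prop⟩, ?_⟩
  apply ContinuousMap.ext
  intro t
  show ((σ t).1, Circle.exp (τ t / m) ^ m) = σ t
  rw [← Circle.exp_nsmul, nsmul_eq_mul, mul_div_cancel₀ _ (Nat.cast_ne_zero.mpr hm.ne'), hτ t]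
  rfl

theorem t4b_unique {m n : ℕ} (hm : 0 < m) (ρ ρ' : Sing (Q × Circle) n)
    (h : (pw Q m).comp ρ = (pw Q m).comp ρ') :
    ∃ η ∈ t4b_mu m, ρ' = (t4b_rot Q η).comp ρ := by
  have hpt : ∀ t, (ρ t).1 = (ρ' t).1 ∧ (ρ t).2 ^ m = (ρ' t).2 ^ m := by
    intro t
    have h1 := ContinuousMap.congr_fun h t
    have h2 : ((ρ t).1, (ρ t).2 ^ m) = ((ρ' t).1, (ρ' t).2 ^ m) := h1
    exact Prod.ext_iff.mp h2
  have hpre := simplex_preconnected n
  have hS : IsPreconnected (Set.univ : Set (stdSimplex ℝ (Fin (n + 1)))) :=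
    hpre.isPreconnected_univ
  have hfin : ((t4b_mu m : Finset Circle) : Set Circle).Finite := Finset.finite_toSet _
  have hc : Continuous (fun t => (ρ' t).2 / (ρ t).2) := by
    apply Continuous.div'
    · fun_prop
    · fun_prop
  obtain ⟨η, hη, heq⟩ := hS.eqOn_const_of_mapsTo hfin.isDiscrete hc.continuousOn
    (by
      intro t _
      show (ρ' t).2 / (ρ t).2 ∈ t4b_mu m
      rw [t4b_mem_mu hm, div_pow, (hpt t).2, div_self'])
    ⟨1, by
      show (1 : Circle) ∈ t4b_mu m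
      rw [t4b_mem_mu hm, one_pow]⟩
  refine ⟨η, hη, ?_⟩
  apply ContinuousMap.ext
  intro t
  have h3 : (ρ' t).2 / (ρ t).2 = η := heq (Set.mem_univ t)
  show ρ' t = ((ρ t).1, η * (ρ t).2)
  rw [← h3, div_mul_cancel, (hpt t).1]

/-- the sum of the rotated simplices -/
noncomputable def t4b_S (m : ℕ) {n : ℕ} (ρ : Sing (Q × Circle) n) :
    Sing (Q × Circle) n →₀ ℤ :=
  ∑ η ∈ t4b_mu m, Finsupp.single ((t4b_rot Q η).comp ρ) (1 : ℤ)

theorem t4b_S_rot {m n : ℕ} (hm : 0 < m) (ρ : Sing (Q × Circle) n) {η₀ : Circle}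
    (h : η₀ ∈ t4b_mu m) : t4b_S m ((t4b_rot Q η₀).comp ρ) = t4b_S m ρ := by
  rw [t4b_mem_mu hm] at h
  unfold t4b_S
  refine Finset.sum_nbij' (fun η => η * η₀) (fun η => η / η₀) ?_ ?_ ?_ ?_ ?_
  · intro η hη
    rw [t4b_mem_mu hm] at hη ⊢
    rw [mul_pow, hη, h, one_mul]
  · intro η hη
    rw [t4b_mem_mu hm] at hη ⊢
    rw [div_pow, hη, h, div_one]
  · intro η _
    exact mul_div_cancel_right η η₀
  · intro η _
    exact div_mul_cancel η η₀
  · intro η _
    congr 1
    apply ContinuousMap.ext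
    intro t
    show ((ρ t).1, η * (η₀ * (ρ t).2)) = ((ρ t).1, (η * η₀) * (ρ t).2)
    rw [mul_assoc]

open Classical in
/-- a lift -/
noncomputable def t4b_lift (m : ℕ) {n : ℕ} (σ : Sing (Q × Circle) n) : Sing (Q × Circle) n :=
  if h : ∃ ρ : Sing (Q × Circle) n, (pw Q m).comp ρ = σ then h.choose else σ

theorem t4b_lift_spec {m n : ℕ} (hm : 0 < m) (σ : Sing (Q × Circle) n) :
    (pw Q m).comp (t4b_lift m σ) = σ := by
  unfold t4b_lift
  rw [dif_pos (t4b_exists_lift hm σ)]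
  exact (t4b_exists_lift hm σ).choose_spec

/-- the transfer -/
noncomputable def t4b_tr (Q : Type u) [TopologicalSpace Q] (m n : ℕ) :
    (Sing (Q × Circle) n →₀ ℤ) →ₗ[ℤ] (Sing (Q × Circle) n →₀ ℤ) :=
  Finsupp.linearCombination ℤ (fun σ => t4b_S m (t4b_lift m σ))

theorem t4b_tr_single {m n : ℕ} (hm : 0 < m) (σ ρ : Sing (Q × Circle) n)
    (h : (pw Q m).comp ρ = σ) : t4b_tr Q m n (Finsupp.single σ 1) = t4b_S m ρ := by
  unfold t4b_tr
  rw [Finsupp.linearCombination_single, one_smul]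
  obtain ⟨η, hη, h2⟩ := t4b_unique hm ρ (t4b_lift m σ) (by rw [h, t4b_lift_spec hm])
  rw [h2, t4b_S_rot hm ρ hη]

theorem t4b_S_map {m n k : ℕ} (g : Sing (Q × Circle) n → Sing (Q × Circle) k)
    (hg : ∀ η ρ, g ((t4b_rot Q η).comp ρ) = (t4b_rot Q η).comp (g ρ))
    (ρ : Sing (Q × Circle) n) :
    Finsupp.lmapDomain ℤ ℤ g (t4b_S m ρ) = t4b_S m (g ρ) := by
  unfold t4b_S
  rw [map_sum]
  refine Finset.sum_congr rfl (fun η _ => ?_)
  rw [Finsupp.lmapDomain_apply, Finsupp.mapDomain_single, hg]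

theorem t4b_chain {m : ℕ} (hm : 0 < m) (n : ℕ) (z : Sing (Q × Circle) (n + 1) →₀ ℤ) :
    bdry (Q × Circle) n (t4b_tr Q m (n + 1) z) = t4b_tr Q m n (bdry (Q × Circle) n z) := by
  have key : (bdry (Q × Circle) n).comp (t4b_tr Q m (n + 1)) =
      (t4b_tr Q m n).comp (bdry (Q × Circle) n) := by
    apply Finsupp.lhom_ext'
    intro σ
    apply LinearMap.ext_ring
    rw [LinearMap.comp_apply, LinearMap.comp_apply, LinearMap.comp_apply, LinearMap.comp_apply,
      Finsupp.lsingle_apply, t4b_tr_single hm σ _ (t4b_lift_spec hm σ)]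
    simp only [bdry, LinearMap.sum_apply, LinearMap.smul_apply, map_sum, map_smul]
    refine Finset.sum_congr rfl (fun i _ => ?_)
    congr 1
    rw [t4b_S_map (sface n i) (fun _ _ => rfl), Finsupp.lmapDomain_apply,
      Finsupp.mapDomain_single,
      t4b_tr_single hm (sface n i σ) (sface n i (t4b_lift m σ))]
    show sface n i ((pw Q m).comp (t4b_lift m σ)) = sface n i σ
    rw [t4b_lift_spec hm]
  exact LinearMap.congr_fun key z

theorem t4b_Cyc {m : ℕ} (hm : 0 < m) (n : ℕ) (z : Sing (Q × Circle) n →₀ ℤ)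
    (hz : z ∈ Cyc (Q × Circle) n) : t4b_tr Q m n z ∈ Cyc (Q × Circle) n := by
  cases n with
  | zero => exact Submodule.mem_top
  | succ n =>
    change bdry (Q × Circle) n (t4b_tr Q m (n + 1) z) = 0
    have h : bdry (Q × Circle) n z = 0 := hz
    rw [t4b_chain hm, h, map_zero]

theorem t4b_Bdy {m : ℕ} (hm : 0 < m) (n : ℕ) (z : Sing (Q × Circle) n →₀ ℤ)
    (hz : z ∈ Bdy (Q × Circle) n) : t4b_tr Q m n z ∈ Bdy (Q × Circle) n := by
  obtain ⟨w, rfl⟩ := hz
  exact ⟨t4b_tr Q m (n + 1) w, t4b_chain hm n w⟩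

theorem t4b_push_tr {m : ℕ} (hm : 0 < m) (n : ℕ) (z : Sing (Q × Circle) n →₀ ℤ) :
    push (pw Q m) n (t4b_tr Q m n z) = (m : ℤ) • z := by
  have key : (push (pw Q m) n).comp (t4b_tr Q m n) = (m : ℤ) • LinearMap.id := by
    apply Finsupp.lhom_ext'
    intro σ
    apply LinearMap.ext_ring
    rw [LinearMap.comp_apply, LinearMap.comp_apply, LinearMap.comp_apply,
      Finsupp.lsingle_apply, t4b_tr_single hm σ _ (t4b_lift_spec hm σ)]
    unfold t4b_S
    rw [map_sum]
    have h1 : ∀ η ∈ t4b_mu m, push (pw Q m) n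
        (Finsupp.single ((t4b_rot Q η).comp (t4b_lift m σ)) (1 : ℤ)) = Finsupp.single σ 1 := by
      intro η hη
      rw [t4b_mem_mu hm] at hη
      rw [push_single]
      congr 1
      conv_rhs => rw [← t4b_lift_spec hm σ]
      apply ContinuousMap.ext
      intro t
      show ((t4b_lift m σ t).1, (η * (t4b_lift m σ t).2) ^ m) =
        ((t4b_lift m σ t).1, (t4b_lift m σ t).2 ^ m)
      rw [mul_pow, hη, one_mul]
    rw [Finset.sum_congr rfl h1, Finset.sum_const, t4b_card_mu hm, LinearMap.smul_apply,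
      LinearMap.id_apply, natCast_zsmul]
  exact LinearMap.congr_fun key z

theorem t4b_rot_homotopic (η : Circle) (n : ℕ) (z : Sing (Q × Circle) n →₀ ℤ)
    (hz : z ∈ Cyc (Q × Circle) n) : push (t4b_rot Q η) n z - z ∈ Bdy (Q × Circle) n := by
  obtain ⟨θ, rfl⟩ := Circle.exp_surjective η
  have h := push_sub_mem_of_homotopy (X := Q × Circle) (Y := Q × Circle)
    ⟨fun p => (p.1.1, Circle.exp ((p.2 : ℝ) * θ) * p.1.2), by fun_prop⟩
    (ContinuousMap.id (Q × Circle)) (t4b_rot Q (Circle.exp θ))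
    (by
      intro x
      show (x.1, Circle.exp (((0 : unitInterval) : ℝ) * θ) * x.2) = x
      rw [Set.Icc.coe_zero, zero_mul, Circle.exp_zero, one_mul])
    (by
      intro x
      show (x.1, Circle.exp (((1 : unitInterval) : ℝ) * θ) * x.2) = (x.1, Circle.exp θ * x.2)
      rw [Set.Icc.coe_one, one_mul]) n z hz
  rwa [push_id] at h

theorem t4b_tr_push {m : ℕ} (hm : 0 < m) (n : ℕ) (z : Sing (Q × Circle) n →₀ ℤ)
    (hz : z ∈ Cyc (Q × Circle) n) :
    t4b_tr Q m n (push (pw Q m) n z) - (m : ℤ) • z ∈ Bdy (Q × Circle) n := by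
  have key : (t4b_tr Q m n).comp (push (pw Q m) n) = ∑ η ∈ t4b_mu m, push (t4b_rot Q η) n := by
    apply Finsupp.lhom_ext'
    intro σ
    apply LinearMap.ext_ring
    rw [LinearMap.comp_apply, LinearMap.comp_apply, LinearMap.comp_apply,
      Finsupp.lsingle_apply, push_single, t4b_tr_single hm _ σ rfl, LinearMap.sum_apply]
    unfold t4b_S
    refine Finset.sum_congr rfl (fun η _ => ?_)
    rw [push_single]
  have h1 := LinearMap.congr_fun key z
  rw [LinearMap.comp_apply, LinearMap.sum_apply] at h1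
  have h2 : (m : ℤ) • z = ∑ η ∈ t4b_mu m, z := by
    rw [Finset.sum_const, t4b_card_mu hm, natCast_zsmul]
  rw [h1, h2, ← Finset.sum_sub_distrib]
  exact Submodule.sum_mem _ (fun η _ => t4b_rot_homotopic η n z hz)

theorem t4b_comm {m k : ℕ} (hm : 0 < m) (hk : k.Coprime m) (n : ℕ)
    (z : Sing (Q × Circle) n →₀ ℤ) :
    push (pw Q k) n (t4b_tr Q m n z) = t4b_tr Q m n (push (pw Q k) n z) := by
  classical
  have key : (push (pw Q k) n).comp (t4b_tr Q m n) = (t4b_tr Q m n).comp (push (pw Q k) n) := by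
    apply Finsupp.lhom_ext'
    intro σ
    apply LinearMap.ext_ring
    rw [LinearMap.comp_apply, LinearMap.comp_apply, LinearMap.comp_apply, LinearMap.comp_apply,
      Finsupp.lsingle_apply, t4b_tr_single hm σ _ (t4b_lift_spec hm σ), push_single,
      t4b_tr_single hm ((pw Q k).comp σ) ((pw Q k).comp (t4b_lift m σ))]
    · unfold t4b_S
      rw [map_sum]
      have hinj : Set.InjOn (fun η : Circle => η ^ k) (t4b_mu m : Set Circle) := by
        intro a ha b hb hab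
        have ha' : a ^ m = 1 := (t4b_mem_mu hm a).1 ha
        have hb' : b ^ m = 1 := (t4b_mem_mu hm b).1 hb
        have hab' : a ^ k = b ^ k := hab
        have h1 : (a / b) ^ k = 1 := by rw [div_pow, hab', div_self']
        have h2 : (a / b) ^ m = 1 := by rw [div_pow, ha', hb', div_one]
        have h3 : orderOf (a / b) ∣ Nat.gcd k m :=
          Nat.dvd_gcd (orderOf_dvd_of_pow_eq_one h1) (orderOf_dvd_of_pow_eq_one h2)
        rw [hk.gcd_eq_one, Nat.dvd_one, orderOf_eq_one_iff] at h3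
        exact div_eq_one.mp h3
      have hmaps : ∀ a ∈ t4b_mu m, a ^ k ∈ t4b_mu m := by
        intro a ha
        rw [t4b_mem_mu hm] at ha ⊢
        rw [← pow_mul, mul_comm, pow_mul, ha, one_pow]
      have himg : Finset.image (fun η : Circle => η ^ k) (t4b_mu m) = t4b_mu m := by
        apply Finset.eq_of_subset_of_card_le
        · intro x hx
          obtain ⟨a, ha, rfl⟩ := Finset.mem_image.1 hx
          exact hmaps a ha
        · rw [Finset.card_image_of_injOn hinj]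
      conv_rhs => rw [← himg, Finset.sum_image hinj]
      refine Finset.sum_congr rfl (fun η _ => ?_)
      rw [push_single]
      congr 1
      apply ContinuousMap.ext
      intro t
      show ((t4b_lift m σ t).1, (η * (t4b_lift m σ t).2) ^ k) =
        ((t4b_lift m σ t).1, η ^ k * (t4b_lift m σ t).2 ^ k)
      rw [mul_pow]
    · conv_rhs => rw [← t4b_lift_spec hm σ]
      apply ContinuousMap.ext
      intro t
      show ((t4b_lift m σ t).1, ((t4b_lift m σ t).2 ^ k) ^ m) =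
        ((t4b_lift m σ t).1, ((t4b_lift m σ t).2 ^ m) ^ k)
      rw [← pow_mul, ← pow_mul, mul_comm]
  exact LinearMap.congr_fun key z

/-- TO PROVE -/
theorem pw_inj (n : ℕ) (d : Sing (Q × Circle) n →₀ ℤ) (hd : d ∈ Cyc (Q × Circle) n)
    (h3 : push (pw Q 3) n d ∈ Bdy (Q × Circle) n) (h2 : push (pw Q 2) n d ∈ Bdy (Q × Circle) n) :
    d ∈ Bdy (Q × Circle) n := by
  have a3 := t4b_tr_push (m := 3) (by norm_num) n d hd
  have a2 := t4b_tr_push (m := 2) (by norm_num) n d hd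
  have b3 := t4b_Bdy (m := 3) (by norm_num) n _ h3
  have b2 := t4b_Bdy (m := 2) (by norm_num) n _ h2
  have c3 := (Bdy (Q × Circle) n).sub_mem b3 a3
  have c2 := (Bdy (Q × Circle) n).sub_mem b2 a2
  rw [sub_sub_cancel] at c3 c2
  have e := (Bdy (Q × Circle) n).sub_mem c3 c2
  have he : ((3 : ℕ) : ℤ) • d - ((2 : ℕ) : ℤ) • d = d := by
    push_cast
    rw [← sub_smul]
    norm_num
  rwa [he] at e

/-- TO PROVE -/
theorem pw_mid (n : ℕ) (b2 b3 : Sing (Q × Circle) n →₀ ℤ) (hb2 : b2 ∈ Cyc (Q × Circle) n)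
    (hb3 : b3 ∈ Cyc (Q × Circle) n)
    (h : push (pw Q 2) n b2 - push (pw Q 3) n b3 ∈ Bdy (Q × Circle) n) :
    ∃ a ∈ Cyc (Q × Circle) n, push (pw Q 3) n a - b2 ∈ Bdy (Q × Circle) n ∧
      push (pw Q 2) n a - b3 ∈ Bdy (Q × Circle) n := by
  refine ⟨t4b_tr Q 3 n b2 - t4b_tr Q 2 n b3,
    (Cyc (Q × Circle) n).sub_mem (t4b_Cyc (by norm_num) n _ hb2)
      (t4b_Cyc (by norm_num) n _ hb3), ?_, ?_⟩
  · have h1 := t4b_tr_push (m := 2) (by norm_num) n b2 hb2
    have h2 := t4b_Bdy (m := 2) (by norm_num) n _ h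
    rw [map_sub] at h2
    rw [map_sub, t4b_push_tr (by norm_num), t4b_comm (m := 2) (k := 3) (by norm_num) (by norm_num)]
    have h3 := (Bdy (Q × Circle) n).sub_mem h2 h1
    have he : ((3 : ℕ) : ℤ) • b2 - t4b_tr Q 2 n (push (pw Q 3) n b3) - b2 =
        t4b_tr Q 2 n (push (pw Q 2) n b2) - t4b_tr Q 2 n (push (pw Q 3) n b3) -
          (t4b_tr Q 2 n (push (pw Q 2) n b2) - ((2 : ℕ) : ℤ) • b2) := by
      push_cast
      module
    rw [he]
    exact h3
  · have h1 := t4b_tr_push (m := 3) (by norm_num) n b3 hb3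
    have h2 := t4b_Bdy (m := 3) (by norm_num) n _ h
    rw [map_sub] at h2
    rw [map_sub, t4b_push_tr (by norm_num), t4b_comm (m := 3) (k := 2) (by norm_num) (by norm_num)]
    have h3 := (Bdy (Q × Circle) n).add_mem h2 h1
    have he : t4b_tr Q 3 n (push (pw Q 2) n b2) - ((2 : ℕ) : ℤ) • b3 - b3 =
        t4b_tr Q 3 n (push (pw Q 2) n b2) - t4b_tr Q 3 n (push (pw Q 3) n b3) +
          (t4b_tr Q 3 n (push (pw Q 3) n b3) - ((3 : ℕ) : ℤ) • b3) := by
      push_cast
      module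
    rw [he]
    exact h3

/-- TO PROVE -/
theorem pw_surj (n : ℕ) (c : Sing (Q × Circle) n →₀ ℤ) (hc : c ∈ Cyc (Q × Circle) n) :
    ∃ b2 ∈ Cyc (Q × Circle) n, ∃ b3 ∈ Cyc (Q × Circle) n,
      c - (push (pw Q 2) n b2 + push (pw Q 3) n b3) ∈ Bdy (Q × Circle) n := by
  refine ⟨-t4b_tr Q 2 n c, (Cyc (Q × Circle) n).neg_mem (t4b_Cyc (by norm_num) n _ hc),
    t4b_tr Q 3 n c, t4b_Cyc (by norm_num) n _ hc, ?_⟩
  rw [map_neg, t4b_push_tr (by norm_num), t4b_push_tr (by norm_num)]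
  have he : c - (-(((2 : ℕ) : ℤ) • c) + ((3 : ℕ) : ℤ) • c) = 0 := by
    push_cast
    module
  rw [he]
  exact Submodule.zero_mem _

end Pool.Agent.Helper922.HB
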