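import Pool.Agent.Helper922.HB.TopDefs

/-! Small pieces of the topological part. -/

namespace Pool.Agent.Helper922.HB

universe u v w

/-- TO PROVE: weak deformation retracts -/
theorem HE_of_weakRetract {N : Type u} [TopologicalSpace N] (F : Set N) (H : C(N × unitInterval, N))
    (h0 : ∀ x, H (x, 0) = x) (h1 : ∀ x, H (x, 1) ∈ F) (hF : ∀ x ∈ F, ∀ s, H (x, s) ∈ F) :
    HE (sub F) := by
  refine HE_of_homotopyEquiv (sub F) ⟨fun x => ⟨H (x, 1), h1 x⟩, ?_⟩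
    ⟨fun p => ⟨H (p.1.1, p.2), hF _ p.1.2 _⟩, ?_⟩ H ?_ ?_ h0 ?_
  · exact Continuous.subtype_mk (H.continuous.comp (by fun_prop)) _
  · exact Continuous.subtype_mk (H.continuous.comp (by fun_prop)) _
  · intro x
    exact Subtype.ext (h0 x)
  · intro x
    rfl
  · intro x
    rfl

/-- TO PROVE -/
theorem HE_FN_zero : HE (sub (FN 0)) := by
  refine HE_of_weakRetract (FN 0) ⟨fun p => (p.1.1, p.1.2.1,
    ((1 - (p.2 : ℝ) : ℝ) : ℂ) ^ 2 * p.1.2.2.1, ((1 - (p.2 : ℝ) : ℝ) : ℂ) ^ 3 * p.1.2.2.2), ?_⟩ ?_ ?_ ?_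
  · fun_prop
  · rintro ⟨β, θ, x, y⟩
    simp
  · rintro ⟨β, θ, x, y⟩
    simp [FN, fN]
  · rintro ⟨β, θ, x, y⟩ h s
    have h' : (θ : ℂ) * (y ^ 2 - x ^ 3) = 0 := h
    change (θ : ℂ) * ((((1 - (s : ℝ) : ℝ) : ℂ) ^ 3 * y) ^ 2 -
      (((1 - (s : ℝ) : ℝ) : ℂ) ^ 2 * x) ^ 3) = 0
    linear_combination (((1 - (s : ℝ) : ℝ) : ℂ) ^ 6) * h'

/-- TO PROVE -/
theorem HE_r1 : HE r1 := by
  refine HE_of_homotopyEquiv r1 ⟨fun q => (q.1, q.2⁻¹, 0, 0), ?_⟩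
    ⟨fun p => (p.1.1, p.1.2.1, ((1 - (p.2 : ℝ) : ℝ) : ℂ) * p.1.2.2.1,
      ((1 - (p.2 : ℝ) : ℝ) : ℂ) * p.1.2.2.2), ?_⟩ ⟨Prod.fst, continuous_fst⟩ ?_ ?_ ?_ ?_
  · fun_prop
  · fun_prop
  · rintro ⟨β, θ, x, y⟩
    simp
  · rintro ⟨β, θ, x, y⟩
    simp [r1]
  · intro y
    rfl
  · rintro ⟨β, θ⟩
    simp [r1]

/-- TO PROVE -/
theorem isOpen_FA (b : ℂ) : IsOpen (FA b) := by
  have h : Continuous fun p : FN b => (uu b p.1).re :=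
    Complex.continuous_re.comp ((continuous_uu b).comp continuous_subtype_val)
  exact isOpen_lt continuous_const h

/-- TO PROVE -/
theorem isOpen_FB (b : ℂ) : IsOpen (FB b) := by
  have h : Continuous fun p : FN b => (uu b p.1).re :=
    Complex.continuous_re.comp ((continuous_uu b).comp continuous_subtype_val)
  exact isOpen_lt h continuous_const

/-- TO PROVE -/
theorem FA_or_FB (b : ℂ) (x : FN b) : x ∈ FA b ∨ x ∈ FB b := by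
  rcases lt_or_ge (1 / 3) ((uu b x.1).re) with h | h
  · exact Or.inl h
  · refine Or.inr ?_
    change (uu b x.1).re < 2 / 3
    linarith

/-- TO PROVE -/
theorem r2_eq {b : ℂ} (hb : b ≠ 0) (p : FA b) : pw Circle 2 (r2 hb p) = r1 (sub (FN b) p) := by
  refine Prod.ext rfl (Circle.ext ?_)
  have h := r2_aux hb p
  have h2 : (((pw Circle 2 (r2 hb p)).2 : Circle) : ℂ) =
      (p.1.1.2.2.2 / (sq b * sq (uu b p.1.1))) ^ 2 := by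
    change ((((r2 hb p).2 ^ 2 : Circle)) : ℂ) = _
    rw [Circle.coe_pow]
    rfl
  rw [h2, h]
  rfl

/-- TO PROVE -/
theorem r3_eq {b : ℂ} (hb : b ≠ 0) (p : FB b) : pw Circle 3 (r3 hb p) = r1 (sub (FN b) p) := by
  refine Prod.ext rfl (Circle.ext ?_)
  have h := r3_aux hb p
  have h2 : (((pw Circle 3 (r3 hb p)).2 : Circle) : ℂ) =
      (p.1.1.2.2.1 / (cb (-b) * cb (1 - uu b p.1.1))) ^ 3 := by
    change ((((r3 hb p).2 ^ 3 : Circle)) : ℂ) = _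
    rw [Circle.coe_pow]
    rfl
  rw [h2, h]
  rfl

/-- the homotopy near infinity -/
noncomputable def top0_inf (b : ℂ) (θ : Circle) (p : ℂ × ℂ) (σ : unitInterval) : ℂ × ℂ :=
  (p.1 / ((1 + (σ : ℝ) * (‖b‖ * ‖p.1‖ ^ 6) : ℝ) : ℂ),
    ((1 - (σ : ℝ) : ℝ) : ℂ) * p.2 + ((σ : ℝ) : ℂ) * (b * ((θ⁻¹ : Circle) : ℂ)))

theorem top0_pos (b : ℂ) (z : ℂ) (σ : unitInterval) : 1 ≤ 1 + (σ : ℝ) * (‖b‖ * ‖z‖ ^ 6) := by
  have h1 : 0 ≤ (σ : ℝ) := σ.2.1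
  have h2 : 0 ≤ ‖b‖ * ‖z‖ ^ 6 := by positivity
  nlinarith [mul_nonneg h1 h2]

theorem top0_inf_mem (b : ℂ) (θ : Circle) (p : ℂ × ℂ) (σ : unitInterval) (hp : p ∈ W2) :
    top0_inf b θ p σ ∈ W2 := by
  have hp' : ‖p.2‖ * ‖p.1‖ ^ 6 < 1 := hp
  change ‖((1 - (σ : ℝ) : ℝ) : ℂ) * p.2 + ((σ : ℝ) : ℂ) * (b * ((θ⁻¹ : Circle) : ℂ))‖ *
    ‖p.1 / ((1 + (σ : ℝ) * (‖b‖ * ‖p.1‖ ^ 6) : ℝ) : ℂ)‖ ^ 6 < 1
  have s0 : 0 ≤ (σ : ℝ) := σ.2.1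
  have s1 : (σ : ℝ) ≤ 1 := σ.2.2
  have hP := top0_pos b p.1 σ
  have hP0 : 0 < 1 + (σ : ℝ) * (‖b‖ * ‖p.1‖ ^ 6) := by linarith
  have n1 : ‖((1 - (σ : ℝ) : ℝ) : ℂ) * p.2 + ((σ : ℝ) : ℂ) * (b * ((θ⁻¹ : Circle) : ℂ))‖ ≤
      (1 - (σ : ℝ)) * ‖p.2‖ + (σ : ℝ) * ‖b‖ := by
    refine (norm_add_le _ _).trans (le_of_eq ?_)
    rw [norm_mul, norm_mul, norm_mul, Circle.norm_coe, Complex.norm_real, Complex.norm_real,
      Real.norm_of_nonneg s0, Real.norm_of_nonneg (by linarith), mul_one]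
  have n2 : ‖p.1 / ((1 + (σ : ℝ) * (‖b‖ * ‖p.1‖ ^ 6) : ℝ) : ℂ)‖ =
      ‖p.1‖ / (1 + (σ : ℝ) * (‖b‖ * ‖p.1‖ ^ 6)) := by
    rw [norm_div, Complex.norm_real, Real.norm_of_nonneg hP0.le]
  rw [n2, div_pow, mul_div_assoc', div_lt_one (pow_pos hP0 6)]
  have hr : 0 ≤ ‖p.1‖ ^ 6 := by positivity
  have e1 : ‖((1 - (σ : ℝ) : ℝ) : ℂ) * p.2 + ((σ : ℝ) : ℂ) * (b * ((θ⁻¹ : Circle) : ℂ))‖ *
      ‖p.1‖ ^ 6 ≤ ((1 - (σ : ℝ)) * ‖p.2‖ + (σ : ℝ) * ‖b‖) * ‖p.1‖ ^ 6 :=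
    mul_le_mul_of_nonneg_right n1 hr
  have e2 : ((1 - (σ : ℝ)) * ‖p.2‖ + (σ : ℝ) * ‖b‖) * ‖p.1‖ ^ 6 <
      1 + (σ : ℝ) * (‖b‖ * ‖p.1‖ ^ 6) := by
    have c0 : 0 ≤ ‖p.2‖ * ‖p.1‖ ^ 6 := by positivity
    nlinarith [mul_nonneg s0 c0]
  have e3 : 1 + (σ : ℝ) * (‖b‖ * ‖p.1‖ ^ 6) ≤ (1 + (σ : ℝ) * (‖b‖ * ‖p.1‖ ^ 6)) ^ 6 :=
    le_self_pow₀ hP (by norm_num)
  linarith

theorem top0_gen (S : Set (ℂ × ℂ))
    (hS : ∀ (b : ℂ) (θ : Circle) (p : ℂ × ℂ) (σ : unitInterval), p ∈ S → top0_inf b θ p σ ∈ S)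
    (b : ℂ) : HE (sub {p : Circle × Circle × S | (p.2.1 : ℂ) * p.2.2.1.2 = b}) := by
  refine HE_of_weakRetract _ ⟨fun q => (q.1.1, q.1.2.1,
    ⟨top0_inf b q.1.2.1 q.1.2.2.1 q.2, hS _ _ _ _ q.1.2.2.2⟩), ?_⟩ ?_ ?_ ?_
  · refine Continuous.prodMk (by fun_prop) (Continuous.prodMk (by fun_prop) ?_)
    refine Continuous.subtype_mk ?_ _
    unfold top0_inf
    refine Continuous.prodMk ?_ (by fun_prop)
    refine Continuous.div (by fun_prop) (by fun_prop) ?_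
    intro q
    have := top0_pos b q.1.2.2.1.1 q.2
    have h2 : (1 + (q.2 : ℝ) * (‖b‖ * ‖q.1.2.2.1.1‖ ^ 6) : ℝ) ≠ 0 := by linarith
    exact_mod_cast h2
  · rintro ⟨β, θ, p⟩
    refine Prod.ext rfl (Prod.ext rfl (Subtype.ext ?_))
    change top0_inf b θ p.1 0 = p.1
    simp [top0_inf]
  · rintro ⟨β, θ, p⟩
    change (θ : ℂ) * (top0_inf b θ p.1 1).2 = b
    have hθ := coe_ne θ
    simp [top0_inf, Circle.coe_inv]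
    field_simp
  · rintro ⟨β, θ, p⟩ h s
    have h' : (θ : ℂ) * p.1.2 = b := h
    change (θ : ℂ) * (top0_inf b θ p.1 s).2 = b
    have hθ := coe_ne θ
    have e : (top0_inf b θ p.1 s).2 = p.1.2 := by
      change ((1 - (s : ℝ) : ℝ) : ℂ) * p.1.2 + ((s : ℝ) : ℂ) * (b * ((θ⁻¹ : Circle) : ℂ)) = p.1.2
      rw [← h', Circle.coe_inv]
      push_cast
      field_simp
      ring
    rw [e, h']

/-- TO PROVE -/
theorem HE_inf (b : ℂ) : HE (sub {p : Circle × Circle × W2 | (p.2.1 : ℂ) * p.2.2.1.2 = b}) :=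
  top0_gen W2 (fun b θ p σ hp => top0_inf_mem b θ p σ hp) b

/-- the chart at infinity without its zero section -/
abbrev W2' : Set (ℂ × ℂ) := {p | p ∈ W2 ∧ p.1 ≠ 0}

/-- TO PROVE -/
theorem HE_inf' (b : ℂ) : HE (sub {p : Circle × Circle × W2' | (p.2.1 : ℂ) * p.2.2.1.2 = b}) := by
  refine top0_gen W2' (fun b θ p σ hp => ⟨top0_inf_mem b θ p σ hp.1, ?_⟩) b
  have := top0_pos b p.1 σ
  have h2 : (1 + (σ : ℝ) * (‖b‖ * ‖p.1‖ ^ 6) : ℝ) ≠ 0 := by linarith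
  exact div_ne_zero hp.2 (by exact_mod_cast h2)

end Pool.Agent.Helper922.HB
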