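import Pool.Agent.Helper922.HB.TopDefs

/-! The map `r2` is a homology equivalence. -/

namespace Pool.Agent.Helper922.HB

/-- the interpolated value of `u` -/
noncomputable def HE_r2_u {b : ℂ} (l : ℝ) (p : FA b) : ℂ := 1 + (l : ℂ) ^ 3 * (uu b p.1.1 - 1)

theorem HE_r2_u_re {b : ℂ} {l : ℝ} (h0 : 0 ≤ l) (h1 : l ≤ 1) (p : FA b) :
    1 / 3 < (HE_r2_u l p).re := by
  have h2 : 1 / 3 < (uu b p.1.1).re := p.2
  unfold HE_r2_u
  have h : ((l : ℂ) ^ 3 * (uu b p.1.1 - 1)).re = l ^ 3 * ((uu b p.1.1).re - 1) := by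
    rw [← Complex.ofReal_pow, Complex.re_ofReal_mul, Complex.sub_re, Complex.one_re]
  rw [Complex.add_re, Complex.one_re, h]
  have h3 : 0 ≤ l ^ 3 := by positivity
  have h4 : l ^ 3 ≤ 1 := pow_le_one₀ h0 h1
  rcases h4.lt_or_eq with h5 | h5
  · nlinarith [mul_nonneg h3 (show 0 ≤ (uu b p.1.1).re - 1 / 3 by linarith)]
  · rw [h5]
    linarith

/-- the moving point -/
noncomputable def HE_r2_pt {b : ℂ} (hb : b ≠ 0) (l : ℝ) (p : FA b) : NN :=
  (p.1.1.1, p.1.1.2.1, (l : ℂ) * p.1.1.2.2.1, sq b * sq (HE_r2_u l p) * (((r2 hb p).2 : Circle) : ℂ))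

theorem HE_r2_sq {b : ℂ} (hb : b ≠ 0) (p : FA b) :
    (p.1.1.2.1 : ℂ) * (((r2 hb p).2 : Circle) : ℂ) ^ 2 = 1 := by
  have h : (((r2 hb p).2 : Circle) : ℂ) ^ 2 = ((p.1.1.2.1⁻¹ : Circle) : ℂ) := r2_aux hb p
  rw [h, Circle.coe_inv]
  exact mul_inv_cancel₀ (coe_ne _)

theorem HE_r2_uu {b : ℂ} (hb : b ≠ 0) (l : ℝ) (p : FA b) :
    uu b (HE_r2_pt hb l p) = HE_r2_u l p := by
  have h1 := HE_r2_sq hb p
  change (p.1.1.2.1 : ℂ) * (sq b * sq (HE_r2_u l p) * (((r2 hb p).2 : Circle) : ℂ)) ^ 2 / b =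
    HE_r2_u l p
  rw [mul_pow, mul_pow, sq_sq, sq_sq]
  have : (p.1.1.2.1 : ℂ) * (b * HE_r2_u l p * (((r2 hb p).2 : Circle) : ℂ) ^ 2) / b =
      HE_r2_u l p * ((p.1.1.2.1 : ℂ) * (((r2 hb p).2 : Circle) : ℂ) ^ 2) := by
    field_simp
  rw [this, h1, mul_one]

theorem HE_r2_fN {b : ℂ} (hb : b ≠ 0) (l : ℝ) (p : FA b) : fN (HE_r2_pt hb l p) = b := by
  have h1 := HE_r2_sq hb p
  have h2 := FN_eq hb p.1
  change (p.1.1.2.1 : ℂ) * ((sq b * sq (HE_r2_u l p) * (((r2 hb p).2 : Circle) : ℂ)) ^ 2 -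
    ((l : ℂ) * p.1.1.2.2.1) ^ 3) = b
  rw [mul_pow, mul_pow, sq_sq, sq_sq]
  have h3 : (p.1.1.2.1 : ℂ) * p.1.1.2.2.1 ^ 3 = b * (uu b p.1.1 - 1) := by
    have h4 : (p.1.1.2.1 : ℂ) * p.1.1.2.2.1 ^ 3 / b = uu b p.1.1 - 1 := by
      linear_combination h2
    rw [div_eq_iff hb] at h4
    rw [h4]
    ring
  calc (p.1.1.2.1 : ℂ) * (b * HE_r2_u l p * (((r2 hb p).2 : Circle) : ℂ) ^ 2 -
        ((l : ℂ) * p.1.1.2.2.1) ^ 3) =
      b * HE_r2_u l p * ((p.1.1.2.1 : ℂ) * (((r2 hb p).2 : Circle) : ℂ) ^ 2) -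
        (l : ℂ) ^ 3 * ((p.1.1.2.1 : ℂ) * p.1.1.2.2.1 ^ 3) := by ring
    _ = b := by
      rw [h1, h3]
      unfold HE_r2_u
      ring

/-- the moving point in the first piece -/
noncomputable def HE_r2_pA {b : ℂ} (hb : b ≠ 0) (l : ℝ) (h0 : 0 ≤ l) (h1 : l ≤ 1) (p : FA b) :
    FA b :=
  ⟨⟨HE_r2_pt hb l p, HE_r2_fN hb l p⟩, by
    change 1 / 3 < (uu b (HE_r2_pt hb l p)).re
    rw [HE_r2_uu hb l p]
    exact HE_r2_u_re h0 h1 p⟩

theorem HE_r2_sq_one : sq 1 = 1 := by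
  unfold sq
  exact Complex.one_cpow _

/-- the section -/
noncomputable def HE_r2_al {b : ℂ} (hb : b ≠ 0) : C(Circle × Circle, FA b) :=
  ⟨fun q => ⟨⟨(q.1, (q.2 ^ 2)⁻¹, 0, sq b * (q.2 : ℂ)), by
      change (((q.2 ^ 2)⁻¹ : Circle) : ℂ) * ((sq b * (q.2 : ℂ)) ^ 2 - 0 ^ 3) = b
      have := coe_ne q.2
      rw [mul_pow, sq_sq, Circle.coe_inv, Circle.coe_pow]
      field_simp
      ring⟩, by
      change 1 / 3 < ((((q.2 ^ 2)⁻¹ : Circle) : ℂ) * (sq b * (q.2 : ℂ)) ^ 2 / b).re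
      have := coe_ne q.2
      have h : (((q.2 ^ 2)⁻¹ : Circle) : ℂ) * (sq b * (q.2 : ℂ)) ^ 2 / b = 1 := by
        rw [mul_pow, sq_sq, Circle.coe_inv, Circle.coe_pow]
        field_simp
      rw [h]
      norm_num⟩, by
    refine Continuous.subtype_mk (Continuous.subtype_mk ?_ _) _
    fun_prop⟩

theorem HE_r2_al_uu {b : ℂ} (hb : b ≠ 0) (q : Circle × Circle) :
    uu b (HE_r2_al hb q).1.1 = 1 := by
  change (((q.2 ^ 2)⁻¹ : Circle) : ℂ) * (sq b * (q.2 : ℂ)) ^ 2 / b = 1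
  have := coe_ne q.2
  rw [mul_pow, sq_sq, Circle.coe_inv, Circle.coe_pow]
  field_simp

theorem HE_r2_r2al {b : ℂ} (hb : b ≠ 0) (q : Circle × Circle) : r2 hb (HE_r2_al hb q) = q := by
  refine Prod.ext rfl ?_
  apply Circle.ext
  change (sq b * (q.2 : ℂ)) / (sq b * sq (uu b (HE_r2_al hb q).1.1)) = (q.2 : ℂ)
  rw [HE_r2_al_uu, HE_r2_sq_one]
  have := sq_ne hb
  field_simp

theorem HE_r2_cont_sq {b : ℂ} : Continuous fun z : FA b × unitInterval =>
    sq (HE_r2_u (1 - (z.2 : ℝ)) z.1) := by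
  unfold sq
  have h : Continuous fun z : FA b × unitInterval => HE_r2_u (1 - (z.2 : ℝ)) z.1 := by
    unfold HE_r2_u
    have h1 : Continuous fun z : FA b × unitInterval => uu b z.1.1.1 :=
      (continuous_uu b).comp (continuous_subtype_val.comp
        (continuous_subtype_val.comp continuous_fst))
    have h2 : Continuous fun z : FA b × unitInterval => ((1 - (z.2 : ℝ) : ℝ) : ℂ) :=
      Complex.continuous_ofReal.comp (continuous_const.sub
        (continuous_subtype_val.comp continuous_snd))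
    exact continuous_const.add ((h2.pow 3).mul (h1.sub continuous_const))
  rw [continuous_iff_continuousAt]
  intro z
  refine (h.continuousAt).cpow continuousAt_const (Or.inl ?_)
  have h3 := HE_r2_u_re (b := b) (l := 1 - (z.2 : ℝ)) (by linarith [z.2.2.2])
    (by linarith [z.2.2.1]) z.1
  linarith

/-- the homotopy -/
noncomputable def HE_r2_H {b : ℂ} (hb : b ≠ 0) : C(FA b × unitInterval, FA b) :=
  ⟨fun z => HE_r2_pA hb (1 - (z.2 : ℝ)) (by linarith [z.2.2.2]) (by linarith [z.2.2.1]) z.1, by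
    refine Continuous.subtype_mk (Continuous.subtype_mk ?_ _) _
    unfold HE_r2_pt
    have hN : Continuous fun z : FA b × unitInterval => z.1.1.1 :=
      continuous_subtype_val.comp (continuous_subtype_val.comp continuous_fst)
    have h2 : Continuous fun z : FA b × unitInterval => ((1 - (z.2 : ℝ) : ℝ) : ℂ) :=
      Complex.continuous_ofReal.comp (continuous_const.sub
        (continuous_subtype_val.comp continuous_snd))
    have h3 : Continuous fun z : FA b × unitInterval => (((r2 hb z.1).2 : Circle) : ℂ) :=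
      continuous_subtype_val.comp (continuous_snd.comp ((r2 hb).continuous.comp continuous_fst))
    refine (continuous_fst.comp hN).prodMk ((continuous_fst.comp (continuous_snd.comp hN)).prodMk
      (Continuous.prodMk ?_ ?_))
    · exact h2.mul (continuous_fst.comp (continuous_snd.comp (continuous_snd.comp hN)))
    · exact (continuous_const.mul HE_r2_cont_sq).mul h3⟩

/-- TO PROVE -/
theorem HE_r2 {b : ℂ} (hb : b ≠ 0) : HE (r2 hb) := by
  refine HE_of_homotopyEquiv (r2 hb) (HE_r2_al hb) (HE_r2_H hb) ⟨Prod.fst, continuous_fst⟩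
    (fun p => ?_) (fun p => ?_) (fun _ => rfl) (fun q => (HE_r2_r2al hb q).symm)
  · apply Subtype.ext
    apply Subtype.ext
    change HE_r2_pt hb (1 - ((0 : unitInterval) : ℝ)) p = p.1.1
    have h0 : (1 - ((0 : unitInterval) : ℝ)) = 1 := by simp
    rw [h0]
    unfold HE_r2_pt
    refine Prod.ext rfl (Prod.ext rfl (Prod.ext ?_ ?_))
    · simp
    · have hu : HE_r2_u 1 p = uu b p.1.1 := by
        unfold HE_r2_u
        push_cast
        ring
      change sq b * sq (HE_r2_u 1 p) * (p.1.1.2.2.2 / (sq b * sq (uu b p.1.1))) = p.1.1.2.2.2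
      rw [hu]
      have h1 := sq_ne hb
      have h2 := sq_ne (Complex.slitPlane_ne_zero (uA p))
      field_simp
  · apply Subtype.ext
    apply Subtype.ext
    change HE_r2_pt hb (1 - ((1 : unitInterval) : ℝ)) p = (p.1.1.1, ((r2 hb p).2 ^ 2)⁻¹, 0,
      sq b * (((r2 hb p).2 : Circle) : ℂ))
    have h0 : (1 - ((1 : unitInterval) : ℝ)) = 0 := by simp
    rw [h0]
    unfold HE_r2_pt
    refine Prod.ext rfl (Prod.ext ?_ (Prod.ext ?_ ?_))
    · apply Circle.ext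
      change (p.1.1.2.1 : ℂ) = ((((r2 hb p).2 ^ 2)⁻¹ : Circle) : ℂ)
      rw [Circle.coe_inv, Circle.coe_pow]
      have h1 := HE_r2_sq hb p
      exact eq_inv_of_mul_eq_one_left h1
    · simp
    · have hu : HE_r2_u 0 p = 1 := by
        unfold HE_r2_u
        push_cast
        ring
      change sq b * sq (HE_r2_u 0 p) * (((r2 hb p).2 : Circle) : ℂ) =
        sq b * (((r2 hb p).2 : Circle) : ℂ)
      rw [hu, HE_r2_sq_one, mul_one]

end Pool.Agent.Helper922.HB
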