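import Pool.Agent.Helper922.HB.TopDefs

/-! The map `r3` is a homology equivalence. -/

namespace Pool.Agent.Helper922.HB

theorem top3_cb_one : cb 1 = 1 := by
  unfold cb
  exact Complex.one_cpow _

/-- explicit inverse -/
noncomputable def top3_pt (b : ℂ) (q : Circle × Circle) : NN :=
  (q.1, (q.2 ^ 3)⁻¹, cb (-b) * (q.2 : ℂ), 0)

theorem top3_pt_mem (b : ℂ) (q : Circle × Circle) : top3_pt b q ∈ FN b := by
  show (((q.2 ^ 3)⁻¹ : Circle) : ℂ) * ((0 : ℂ) ^ 2 - (cb (-b) * (q.2 : ℂ)) ^ 3) = b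
  have h := coe_ne q.2
  rw [mul_pow, cb_cube, Circle.coe_inv, Circle.coe_pow]
  field_simp
  ring

theorem top3_uu (b : ℂ) (q : Circle × Circle) : uu b (top3_pt b q) = 0 := by
  show (((q.2 ^ 3)⁻¹ : Circle) : ℂ) * (0 : ℂ) ^ 2 / b = 0
  simp

theorem top3_pt_mem2 (b : ℂ) (q : Circle × Circle) :
    (⟨top3_pt b q, top3_pt_mem b q⟩ : FN b) ∈ FB b := by
  show (uu b (top3_pt b q)).re < 2 / 3
  rw [top3_uu]
  norm_num

theorem top3_cont (b : ℂ) : Continuous (top3_pt b) := by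
  unfold top3_pt
  fun_prop

noncomputable def top3_g (b : ℂ) : C(Circle × Circle, FB b) :=
  ⟨fun q => ⟨⟨top3_pt b q, top3_pt_mem b q⟩, top3_pt_mem2 b q⟩,
    Continuous.subtype_mk (Continuous.subtype_mk (top3_cont b) _) _⟩

/-- the homotopy on points -/
noncomputable def top3_h (b : ℂ) (q : FB b × unitInterval) : NN :=
  (q.1.1.1.1, q.1.1.1.2.1,
    cb (-b) * cb (1 - (1 - (q.2 : ℂ)) ^ 2 * uu b q.1.1.1) *
      (q.1.1.1.2.2.1 / (cb (-b) * cb (1 - uu b q.1.1.1))),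
    (1 - (q.2 : ℂ)) * q.1.1.1.2.2.2)

theorem top3_h_mem {b : ℂ} (hb : b ≠ 0) (q : FB b × unitInterval) : top3_h b q ∈ FN b := by
  obtain ⟨p, s⟩ := q
  have h3 := r3_aux hb p
  have hth := coe_ne p.1.1.2.1
  show (p.1.1.2.1 : ℂ) * (((1 - ((s : ℝ) : ℂ)) * p.1.1.2.2.2) ^ 2 -
    (cb (-b) * cb (1 - (1 - ((s : ℝ) : ℂ)) ^ 2 * uu b p.1.1) *
      (p.1.1.2.2.1 / (cb (-b) * cb (1 - uu b p.1.1)))) ^ 3) = b
  rw [mul_pow (cb (-b) * cb _), h3, mul_pow (cb (-b)), cb_cube, cb_cube, Circle.coe_inv]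
  unfold uu
  field_simp
  ring

theorem top3_h_uu (b : ℂ) (q : FB b × unitInterval) :
    uu b (top3_h b q) = (((1 - (q.2 : ℝ)) ^ 2 : ℝ) : ℂ) * uu b q.1.1.1 := by
  show (q.1.1.1.2.1 : ℂ) * ((1 - ((q.2 : ℝ) : ℂ)) * q.1.1.1.2.2.2) ^ 2 / b = _
  unfold uu
  push_cast
  ring

theorem top3_re {r x : ℝ} (h0 : 0 ≤ r) (h1 : r ≤ 1) (hx : x < 2 / 3) : r * x < 2 / 3 := by
  rcases le_or_gt x 0 with h | h
  · nlinarith
  · nlinarith

theorem top3_sq (s : unitInterval) : 0 ≤ (1 - (s : ℝ)) ^ 2 ∧ (1 - (s : ℝ)) ^ 2 ≤ 1 := by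
  have h0 := s.2.1
  have h1 := s.2.2
  constructor
  · positivity
  · nlinarith

theorem top3_h_mem2 {b : ℂ} (hb : b ≠ 0) (q : FB b × unitInterval) :
    (⟨top3_h b q, top3_h_mem hb q⟩ : FN b) ∈ FB b := by
  show (uu b (top3_h b q)).re < 2 / 3
  rw [top3_h_uu, Complex.re_ofReal_mul]
  exact top3_re (top3_sq q.2).1 (top3_sq q.2).2 q.1.2

theorem top3_slit {b : ℂ} (q : FB b × unitInterval) :
    1 - (1 - ((q.2 : ℝ) : ℂ)) ^ 2 * uu b q.1.1.1 ∈ Complex.slitPlane := by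
  refine Or.inl ?_
  have h : (1 - ((q.2 : ℝ) : ℂ)) ^ 2 * uu b q.1.1.1 =
      (((1 - (q.2 : ℝ)) ^ 2 : ℝ) : ℂ) * uu b q.1.1.1 := by push_cast; ring
  rw [h, Complex.sub_re, Complex.one_re, Complex.re_ofReal_mul]
  have := top3_re (top3_sq q.2).1 (top3_sq q.2).2 q.1.2
  linarith

theorem top3_h_cont {b : ℂ} (hb : b ≠ 0) : Continuous (top3_h b) := by
  unfold top3_h
  have hu : Continuous fun q : FB b × unitInterval => uu b q.1.1.1 :=
    (continuous_uu b).comp (continuous_subtype_val.comp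
      (continuous_subtype_val.comp continuous_fst))
  have hs : Continuous fun q : FB b × unitInterval => ((q.2 : ℝ) : ℂ) :=
    Complex.continuous_ofReal.comp (continuous_subtype_val.comp continuous_snd)
  have hc : Continuous fun q : FB b × unitInterval =>
      cb (1 - (1 - ((q.2 : ℝ) : ℂ)) ^ 2 * uu b q.1.1.1) := by
    unfold cb
    have h : Continuous fun q : FB b × unitInterval =>
        1 - (1 - ((q.2 : ℝ) : ℂ)) ^ 2 * uu b q.1.1.1 :=
      continuous_const.sub (((continuous_const.sub hs).pow 2).mul hu)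
    rw [continuous_iff_continuousAt]
    intro q
    exact (h.continuousAt).cpow continuousAt_const (top3_slit q)
  have hc2 : Continuous fun q : FB b × unitInterval => cb (1 - uu b q.1.1.1) :=
    continuous_cb_uu.comp continuous_fst
  have hd : Continuous fun q : FB b × unitInterval =>
      q.1.1.1.2.2.1 / (cb (-b) * cb (1 - uu b q.1.1.1)) := by
    refine Continuous.div (by fun_prop) (continuous_const.mul hc2) ?_
    intro q
    exact mul_ne_zero (cb_ne (neg_ne_zero.mpr hb)) (cb_ne (Complex.slitPlane_ne_zero (uB q.1)))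
  refine Continuous.prodMk (by fun_prop) (Continuous.prodMk (by fun_prop) (Continuous.prodMk ?_ ?_))
  · exact (continuous_const.mul hc).mul hd
  · exact (continuous_const.sub hs).mul (by fun_prop)

noncomputable def top3_H {b : ℂ} (hb : b ≠ 0) : C(FB b × unitInterval, FB b) :=
  ⟨fun q => ⟨⟨top3_h b q, top3_h_mem hb q⟩, top3_h_mem2 hb q⟩,
    Continuous.subtype_mk (Continuous.subtype_mk (top3_h_cont hb) _) _⟩

theorem top3_H0 {b : ℂ} (hb : b ≠ 0) (p : FB b) : top3_H hb (p, 0) = p := by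
  apply Subtype.ext
  apply Subtype.ext
  show top3_h b (p, 0) = p.1.1
  have h1 := cb_ne (neg_ne_zero.mpr hb)
  have h2 := cb_ne (Complex.slitPlane_ne_zero (uB p))
  unfold top3_h
  refine Prod.ext rfl (Prod.ext rfl (Prod.ext ?_ ?_))
  · show cb (-b) * cb (1 - (1 - (((0 : unitInterval) : ℝ) : ℂ)) ^ 2 * uu b p.1.1) *
      (p.1.1.2.2.1 / (cb (-b) * cb (1 - uu b p.1.1))) = p.1.1.2.2.1
    have e : 1 - (1 - (((0 : unitInterval) : ℝ) : ℂ)) ^ 2 * uu b p.1.1 = 1 - uu b p.1.1 := by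
      simp
    rw [e]
    exact mul_div_cancel₀ _ (mul_ne_zero h1 h2)
  · show (1 - (((0 : unitInterval) : ℝ) : ℂ)) * p.1.1.2.2.2 = p.1.1.2.2.2
    simp

theorem top3_H1 {b : ℂ} (hb : b ≠ 0) (p : FB b) : top3_H hb (p, 1) = top3_g b (r3 hb p) := by
  apply Subtype.ext
  apply Subtype.ext
  show top3_h b (p, 1) = top3_pt b (r3 hb p)
  have h1 := cb_ne (neg_ne_zero.mpr hb)
  have h2 := cb_ne (Complex.slitPlane_ne_zero (uB p))
  unfold top3_h top3_pt
  refine Prod.ext rfl (Prod.ext ?_ (Prod.ext ?_ ?_))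
  · show p.1.1.2.1 = ((r3 hb p).2 ^ 3)⁻¹
    rw [← inv_inj, inv_inv, eq_comm]
    apply Circle.ext
    rw [Circle.coe_pow]
    exact r3_aux hb p
  · show cb (-b) * cb (1 - (1 - (((1 : unitInterval) : ℝ) : ℂ)) ^ 2 * uu b p.1.1) *
      (p.1.1.2.2.1 / (cb (-b) * cb (1 - uu b p.1.1))) =
      cb (-b) * (p.1.1.2.2.1 / (cb (-b) * cb (1 - uu b p.1.1)))
    have e : 1 - (1 - (((1 : unitInterval) : ℝ) : ℂ)) ^ 2 * uu b p.1.1 = 1 := by
      simp
    rw [e, top3_cb_one, mul_one]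
  · show (1 - (((1 : unitInterval) : ℝ) : ℂ)) * p.1.1.2.2.2 = 0
    simp

theorem top3_rg {b : ℂ} (hb : b ≠ 0) (q : Circle × Circle) : r3 hb (top3_g b q) = q := by
  refine Prod.ext rfl ?_
  apply Circle.ext
  show cb (-b) * (q.2 : ℂ) / (cb (-b) * cb (1 - uu b (top3_pt b q))) = q.2
  have h1 := cb_ne (neg_ne_zero.mpr hb)
  rw [top3_uu, sub_zero, top3_cb_one, mul_one]
  exact mul_div_cancel_left₀ _ h1

/-- TO PROVE -/
theorem HE_r3 {b : ℂ} (hb : b ≠ 0) : HE (r3 hb) := by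
  refine HE_of_homotopyEquiv (r3 hb) (top3_g b) (top3_H hb) ⟨Prod.fst, continuous_fst⟩
    (top3_H0 hb) (top3_H1 hb) (fun _ => rfl) (fun y => ?_)
  exact (top3_rg hb y).symm

end Pool.Agent.Helper922.HB
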