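import Pool.Agent.Helper922.HB.TopDefs

/-! The map `r6` is a homology equivalence. -/

namespace Pool.Agent.Helper922.HB

theorem top6_xi {b : ℂ} (hb : b ≠ 0) (p : ↥(FA b ∩ FB b)) :
    (r2 hb (inl _ _ p)).2 ^ 2 = (p.1.1.2.1)⁻¹ := by
  apply Circle.ext
  rw [Circle.coe_pow]
  exact r2_aux hb (inl _ _ p)

theorem top6_ka {b : ℂ} (hb : b ≠ 0) (p : ↥(FA b ∩ FB b)) :
    (r3 hb (inr _ _ p)).2 ^ 3 = (p.1.1.2.1)⁻¹ := by
  apply Circle.ext
  rw [Circle.coe_pow]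
  exact r3_aux hb (inr _ _ p)

theorem top6_grp1 (ξ κ : Circle) (h : ξ ^ 2 = κ ^ 3) : (ξ / κ) ^ 3 = ξ := by
  rw [div_pow, ← h, pow_succ ξ 2, mul_comm, mul_div_assoc, div_self', mul_one]

theorem top6_grp2 (ξ κ : Circle) (h : ξ ^ 2 = κ ^ 3) : (ξ / κ) ^ 2 = κ := by
  rw [div_pow, h, pow_succ κ 2, mul_comm, mul_div_assoc, div_self', mul_one]

/-- TO PROVE -/
theorem r2_inl {b : ℂ} (hb : b ≠ 0) (p : ↥(FA b ∩ FB b)) :
    r2 hb (inl _ _ p) = pw Circle 3 (r6 hb p) := by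
  refine Prod.ext rfl ?_
  show (r2 hb (inl _ _ p)).2 = ((r2 hb (inl _ _ p)).2 / (r3 hb (inr _ _ p)).2) ^ 3
  rw [top6_grp1 _ _ ((top6_xi hb p).trans (top6_ka hb p).symm)]

/-- TO PROVE -/
theorem r3_inr {b : ℂ} (hb : b ≠ 0) (p : ↥(FA b ∩ FB b)) :
    r3 hb (inr _ _ p) = pw Circle 2 (r6 hb p) := by
  refine Prod.ext rfl ?_
  show (r3 hb (inr _ _ p)).2 = ((r2 hb (inl _ _ p)).2 / (r3 hb (inr _ _ p)).2) ^ 2
  rw [top6_grp2 _ _ ((top6_xi hb p).trans (top6_ka hb p).symm)]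

/-- the explicit points of the fibre -/
noncomputable def top6_mk (b : ℂ) (β θ ξ κ : Circle) (u : ℂ) : NN :=
  (β, θ, cb (-b) * cb (1 - u) * κ, sq b * sq u * ξ)

theorem top6_fN {b : ℂ} {β θ ξ κ : Circle} {u : ℂ} (h1 : ξ ^ 2 = θ⁻¹) (h2 : κ ^ 3 = θ⁻¹) :
    fN (top6_mk b β θ ξ κ u) = b := by
  have e1 : (ξ : ℂ) ^ 2 = (θ : ℂ)⁻¹ := by rw [← Circle.coe_pow, h1, Circle.coe_inv]
  have e2 : (κ : ℂ) ^ 3 = (θ : ℂ)⁻¹ := by rw [← Circle.coe_pow, h2, Circle.coe_inv]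
  have hθ := coe_ne θ
  show (θ : ℂ) * ((sq b * sq u * ξ) ^ 2 - (cb (-b) * cb (1 - u) * κ) ^ 3) = b
  rw [mul_pow, mul_pow, sq_sq, sq_sq, e1, mul_pow, mul_pow, cb_cube, cb_cube, e2]
  field_simp
  ring

theorem top6_uu {b : ℂ} (hb : b ≠ 0) {β θ ξ κ : Circle} {u : ℂ} (h1 : ξ ^ 2 = θ⁻¹) :
    uu b (top6_mk b β θ ξ κ u) = u := by
  have e1 : (ξ : ℂ) ^ 2 = (θ : ℂ)⁻¹ := by rw [← Circle.coe_pow, h1, Circle.coe_inv]
  have hθ := coe_ne θ
  show (θ : ℂ) * (sq b * sq u * ξ) ^ 2 / b = u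
  rw [mul_pow, mul_pow, sq_sq, sq_sq, e1]
  field_simp

/-- the point of the piece -/
noncomputable def top6_pt {b : ℂ} (hb : b ≠ 0) (β θ ξ κ : Circle) (u : ℂ) (h1 : ξ ^ 2 = θ⁻¹)
    (h2 : κ ^ 3 = θ⁻¹) (h3 : 1 / 3 < u.re) (h4 : u.re < 2 / 3) : ↥(FA b ∩ FB b) :=
  ⟨⟨top6_mk b β θ ξ κ u, top6_fN h1 h2⟩, by
    constructor
    · show 1 / 3 < (uu b (top6_mk b β θ ξ κ u)).re
      rw [top6_uu hb h1]; exact h3
    · show (uu b (top6_mk b β θ ξ κ u)).re < 2 / 3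
      rw [top6_uu hb h1]; exact h4⟩

theorem top6_r2 {b : ℂ} (hb : b ≠ 0) (β θ ξ κ : Circle) (u : ℂ) (h1 : ξ ^ 2 = θ⁻¹)
    (h2 : κ ^ 3 = θ⁻¹) (h3 : 1 / 3 < u.re) (h4 : u.re < 2 / 3) :
    (r2 hb (inl _ _ (top6_pt hb β θ ξ κ u h1 h2 h3 h4))).2 = ξ := by
  apply Circle.ext
  show sq b * sq u * ξ / (sq b * sq (uu b (top6_mk b β θ ξ κ u))) = ξ
  rw [top6_uu hb h1]
  have hu : u ≠ 0 := by
    rintro rfl
    norm_num at h3
  have := sq_ne hb
  have := sq_ne hu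
  field_simp

theorem top6_r3 {b : ℂ} (hb : b ≠ 0) (β θ ξ κ : Circle) (u : ℂ) (h1 : ξ ^ 2 = θ⁻¹)
    (h2 : κ ^ 3 = θ⁻¹) (h3 : 1 / 3 < u.re) (h4 : u.re < 2 / 3) :
    (r3 hb (inr _ _ (top6_pt hb β θ ξ κ u h1 h2 h3 h4))).2 = κ := by
  apply Circle.ext
  show cb (-b) * cb (1 - u) * κ / (cb (-b) * cb (1 - uu b (top6_mk b β θ ξ κ u))) = κ
  rw [top6_uu hb h1]
  have hu : 1 - u ≠ 0 := by
    intro h
    have : u = 1 := by linear_combination -h
    rw [this] at h4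
    norm_num at h4
  have := cb_ne (neg_ne_zero.mpr hb)
  have := cb_ne hu
  field_simp

/-- the inverse map -/
noncomputable def top6_alpha {b : ℂ} (hb : b ≠ 0) : C(Circle × Circle, ↥(FA b ∩ FB b)) :=
  ⟨fun y => top6_pt hb y.1 (y.2 ^ 6)⁻¹ (y.2 ^ 3) (y.2 ^ 2) (1 / 2)
      (by rw [inv_inv, ← pow_mul]) (by rw [inv_inv, ← pow_mul]) (by norm_num) (by norm_num), by
    refine Continuous.subtype_mk (Continuous.subtype_mk ?_ _) _
    show Continuous fun y : Circle × Circle => ((y.1, (y.2 ^ 6)⁻¹,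
      cb (-b) * cb (1 - 1 / 2) * ((y.2 ^ 2 : Circle) : ℂ),
      sq b * sq (1 / 2) * ((y.2 ^ 3 : Circle) : ℂ)) : NN)
    fun_prop⟩

/-- the parameter of the homotopy -/
noncomputable def top6_us (b : ℂ) (q : ↥(FA b ∩ FB b) × unitInterval) : ℂ :=
  (1 - ((q.2 : ℝ) : ℂ)) * uu b q.1.1.1 + ((q.2 : ℝ) : ℂ) / 2

theorem top6_us_re (b : ℂ) (q : ↥(FA b ∩ FB b) × unitInterval) :
    1 / 3 < (top6_us b q).re ∧ (top6_us b q).re < 2 / 3 := by
  have e : (top6_us b q).re = (1 - (q.2 : ℝ)) * (uu b q.1.1.1).re + (q.2 : ℝ) / 2 := by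
    unfold top6_us
    simp [Complex.add_re, Complex.mul_re]
  have h1 : 1 / 3 < (uu b q.1.1.1).re := q.1.2.1
  have h2 : (uu b q.1.1.1).re < 2 / 3 := q.1.2.2
  have h3 : 0 ≤ (q.2 : ℝ) := q.2.2.1
  have h4 : (q.2 : ℝ) ≤ 1 := q.2.2.2
  rw [e]
  constructor
  · rcases eq_or_lt_of_le h4 with h | h
    · rw [h]; norm_num
    · nlinarith
  · rcases eq_or_lt_of_le h4 with h | h
    · rw [h]; norm_num
    · nlinarith

theorem top6_us_cont (b : ℂ) : Continuous (top6_us b) := by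
  unfold top6_us
  have h : Continuous fun q : ↥(FA b ∩ FB b) × unitInterval => uu b q.1.1.1 :=
    (continuous_uu b).comp (continuous_subtype_val.comp (continuous_subtype_val.comp continuous_fst))
  have h2 : Continuous fun q : ↥(FA b ∩ FB b) × unitInterval => ((q.2 : ℝ) : ℂ) := by fun_prop
  exact ((continuous_const.sub h2).mul h).add (h2.div_const 2)

/-- the homotopy -/
noncomputable def top6_H {b : ℂ} (hb : b ≠ 0) :
    C(↥(FA b ∩ FB b) × unitInterval, ↥(FA b ∩ FB b)) :=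
  ⟨fun q => top6_pt hb q.1.1.1.1 q.1.1.1.2.1 (r2 hb (inl _ _ q.1)).2 (r3 hb (inr _ _ q.1)).2
      (top6_us b q) (top6_xi hb q.1) (top6_ka hb q.1) (top6_us_re b q).1 (top6_us_re b q).2, by
    refine Continuous.subtype_mk (Continuous.subtype_mk ?_ _) _
    have c1 : Continuous fun q : ↥(FA b ∩ FB b) × unitInterval => cb (1 - top6_us b q) := by
      unfold cb
      rw [continuous_iff_continuousAt]
      intro q
      refine (continuous_const.sub (top6_us_cont b)).continuousAt.cpow continuousAt_const ?_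
      refine Or.inl ?_
      show 0 < (1 - top6_us b q).re
      rw [Complex.sub_re, Complex.one_re]
      linarith [(top6_us_re b q).2]
    have c2 : Continuous fun q : ↥(FA b ∩ FB b) × unitInterval => sq (top6_us b q) := by
      unfold sq
      rw [continuous_iff_continuousAt]
      intro q
      refine (top6_us_cont b).continuousAt.cpow continuousAt_const ?_
      refine Or.inl ?_
      linarith [(top6_us_re b q).1]
    have c3 : Continuous fun q : ↥(FA b ∩ FB b) × unitInterval => (r2 hb (inl _ _ q.1)).2 :=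
      continuous_snd.comp ((r2 hb).continuous.comp ((inl _ _).continuous.comp continuous_fst))
    have c4 : Continuous fun q : ↥(FA b ∩ FB b) × unitInterval => (r3 hb (inr _ _ q.1)).2 :=
      continuous_snd.comp ((r3 hb).continuous.comp ((inr _ _).continuous.comp continuous_fst))
    have c5 : Continuous fun q : ↥(FA b ∩ FB b) × unitInterval => (q.1.1.1 : NN) :=
      continuous_subtype_val.comp (continuous_subtype_val.comp continuous_fst)
    have c6 : Continuous fun z : Circle => (z : ℂ) := by fun_prop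
    show Continuous fun q : ↥(FA b ∩ FB b) × unitInterval => ((q.1.1.1.1, q.1.1.1.2.1,
      cb (-b) * cb (1 - top6_us b q) * (((r3 hb (inr _ _ q.1)).2 : Circle) : ℂ),
      sq b * sq (top6_us b q) * (((r2 hb (inl _ _ q.1)).2 : Circle) : ℂ)) : NN)
    refine (continuous_fst.comp c5).prodMk (((continuous_fst.comp continuous_snd).comp c5).prodMk
      (Continuous.prodMk ?_ ?_))
    · exact (continuous_const.mul c1).mul (c6.comp c4)
    · exact (continuous_const.mul c2).mul (c6.comp c3)⟩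

/-- TO PROVE -/
theorem HE_r6 {b : ℂ} (hb : b ≠ 0) : HE (r6 hb) := by
  refine HE_of_homotopyEquiv (r6 hb) (top6_alpha hb) (top6_H hb) ⟨Prod.fst, continuous_fst⟩
    ?_ ?_ (fun _ => rfl) ?_
  · intro p
    apply Subtype.ext
    apply Subtype.ext
    have e : top6_us b (p, 0) = uu b p.1.1 := by
      unfold top6_us
      simp
    have n1 := sq_ne hb
    have n2 := sq_ne (Complex.slitPlane_ne_zero (uA (inl _ _ p)))
    have n3 := cb_ne (neg_ne_zero.mpr hb)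
    have n4 := cb_ne (Complex.slitPlane_ne_zero (uB (inr _ _ p)))
    have n2' : sq (uu b p.1.1) ≠ 0 := n2
    have n4' : cb (1 - uu b p.1.1) ≠ 0 := n4
    have hx : cb (-b) * cb (1 - top6_us b (p, 0)) * (((r3 hb (inr _ _ p)).2 : Circle) : ℂ) =
        p.1.1.2.2.1 := by
      rw [e]
      show cb (-b) * cb (1 - uu b p.1.1) *
        (p.1.1.2.2.1 / (cb (-b) * cb (1 - uu b p.1.1))) = p.1.1.2.2.1
      field_simp
    have hy : sq b * sq (top6_us b (p, 0)) * (((r2 hb (inl _ _ p)).2 : Circle) : ℂ) =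
        p.1.1.2.2.2 := by
      rw [e]
      show sq b * sq (uu b p.1.1) *
        (p.1.1.2.2.2 / (sq b * sq (uu b p.1.1))) = p.1.1.2.2.2
      field_simp
    exact Prod.ext rfl (Prod.ext rfl (Prod.ext hx hy))
  · intro p
    apply Subtype.ext
    apply Subtype.ext
    have e : top6_us b (p, 1) = 1 / 2 := by
      unfold top6_us
      simp
    have h12 := (top6_xi hb p).trans (top6_ka hb p).symm
    have g3 : (r6 hb p).2 ^ 3 = (r2 hb (inl _ _ p)).2 := top6_grp1 _ _ h12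
    have g2 : (r6 hb p).2 ^ 2 = (r3 hb (inr _ _ p)).2 := top6_grp2 _ _ h12
    have g6 : ((r6 hb p).2 ^ 6)⁻¹ = p.1.1.2.1 := by
      rw [show 6 = 3 * 2 by norm_num, pow_mul, g3, top6_xi hb p, inv_inv]
    show top6_mk b p.1.1.1 p.1.1.2.1 (r2 hb (inl _ _ p)).2 (r3 hb (inr _ _ p)).2
      (top6_us b (p, 1)) = top6_mk b (r6 hb p).1 ((r6 hb p).2 ^ 6)⁻¹ ((r6 hb p).2 ^ 3)
      ((r6 hb p).2 ^ 2) (1 / 2)
    rw [g3, g2, g6, e]
    rfl
  · intro y
    refine Prod.ext rfl ?_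
    show y.2 = (r2 hb (inl _ _ (top6_alpha hb y))).2 / (r3 hb (inr _ _ (top6_alpha hb y))).2
    have a1 : (r2 hb (inl _ _ (top6_alpha hb y))).2 = y.2 ^ 3 :=
      top6_r2 hb y.1 (y.2 ^ 6)⁻¹ (y.2 ^ 3) (y.2 ^ 2) (1 / 2)
      (by rw [inv_inv, ← pow_mul]) (by rw [inv_inv, ← pow_mul]) (by norm_num) (by norm_num)
    have a2 : (r3 hb (inr _ _ (top6_alpha hb y))).2 = y.2 ^ 2 :=
      top6_r3 hb y.1 (y.2 ^ 6)⁻¹ (y.2 ^ 3) (y.2 ^ 2) (1 / 2)
      (by rw [inv_inv, ← pow_mul]) (by rw [inv_inv, ← pow_mul]) (by norm_num) (by norm_num)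
    rw [a1, a2, pow_succ y.2 2, mul_comm, mul_div_assoc, div_self', mul_one]

end Pool.Agent.Helper922.HB
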