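import Pool.Agent.Helper922.HB.Key
import Pool.Agent.Helper922.HB.T4b
import Pool.Agent.Helper922.HB.Top0
import Pool.Agent.Helper922.HB.Top2
import Pool.Agent.Helper922.HB.Top3
import Pool.Agent.Helper922.HB.Top6

/-! The inclusion of every affine fibre is a homology equivalence. -/

namespace Pool.Agent.Helper922.HB

theorem HE_FN (b : ℂ) : HE (sub (FN b)) := by
  by_cases hb : b = 0
  · rw [hb]
    exact HE_FN_zero
  · exact key (sub (FN b)) (FA b) (FB b) (isOpen_FA b) (isOpen_FB b) (FA_or_FB b) r1 (r2 hb) (r3 hb)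
      (r6 hb) (pw Circle 2) (pw Circle 3) HE_r1 (HE_r2 hb) (HE_r3 hb) (HE_r6 hb) (r2_eq hb)
      (r3_eq hb) (r2_inl hb) (r3_inr hb) (fun n d hd h3 h2 => pw_inj n d hd h3 h2)
      (fun n b2 h2 b3 h3 h => pw_mid n b2 b3 h2 h3 h) (fun n c hc => pw_surj n c hc)

end Pool.Agent.Helper922.HB
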