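import Pool.Agent.Helper922.HB.Model

/-! Twisted elliptic functions. -/

open scoped Topology

namespace Pool.Agent.Helper922.HB

theorem G3b_indep (N : ℕ) (hN : 0 < N) :
    LinearIndependent ℝ ![(N : ℂ), Complex.I] := by
  rw [LinearIndependent.pair_iff]
  intro s t h
  have h1 := congrArg Complex.re h
  have h2 := congrArg Complex.im h
  simp at h1 h2
  refine ⟨?_, h2⟩
  rcases h1 with h1 | h1
  · exact h1
  · omega

/-- The period pair `(N, i)`. -/
noncomputable def G3b_L (N : ℕ) (hN : 0 < N) : PeriodPair :=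
  ⟨(N : ℂ), Complex.I, G3b_indep N hN⟩

theorem G3b_mem (N : ℕ) (hN : 0 < N) (x : ℂ) :
    x ∈ (G3b_L N hN).lattice ↔ ∃ m n : ℤ, (m : ℂ) * (N : ℂ) + n * Complex.I = x :=
  PeriodPair.mem_lattice

theorem exists_twisted (N : ℕ) (hN : 0 < N) (ω : ℂ) (hω : ω ^ N = 1) :
    ∃ E : ℂ → ℂ, (∀ w, E (w + 1) = ω * E w) ∧ (∀ w, E (w + Complex.I) = E w) ∧
      (∀ w, (¬ ∃ m n : ℤ, w = m + n * Complex.I) → AnalyticAt ℂ E w) ∧
      ∃ g : ℂ → ℂ, AnalyticAt ℂ g 0 ∧ g 0 = 1 ∧ ∀ᶠ z in 𝓝[≠] (0 : ℂ), z ^ 2 * E z = g z := by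
  classical
  have hω0 : ω ≠ 0 := by
    rintro rfl
    rw [zero_pow hN.ne'] at hω
    exact zero_ne_one hω
  set L := G3b_L N hN with hL
  let P : ℂ → ℂ := PeriodPair.weierstrassP L
  have hNmem : (N : ℂ) ∈ L.lattice := (G3b_mem N hN _).2 ⟨1, 0, by simp⟩
  have hImem : (Complex.I : ℂ) ∈ L.lattice := (G3b_mem N hN _).2 ⟨0, 1, by simp⟩
  have hPN : ∀ w, P (w + N) = P w := fun w => L.weierstrassP_add_coe w ⟨(N : ℂ), hNmem⟩
  have hPI : ∀ w, P (w + Complex.I) = P w := fun w =>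
    L.weierstrassP_add_coe w ⟨(Complex.I : ℂ), hImem⟩
  have hPan : ∀ w, w ∉ L.lattice → AnalyticAt ℂ P w := fun w hw =>
    L.analyticOnNhd_weierstrassP w hw
  obtain ⟨M, rfl⟩ : ∃ M, N = M + 1 := ⟨N - 1, by omega⟩
  let E : ℂ → ℂ := fun w => ∑ k ∈ Finset.range (M + 1), ω⁻¹ ^ k * P (w + k)
  have hωi : ω⁻¹ ^ (M + 1) = 1 := by rw [inv_pow, hω, inv_one]
  have hE1 : ∀ w, E (w + 1) = ω * E w := by
    intro w
    have e1 : E (w + 1) = ∑ k ∈ Finset.range (M + 1), ω * (ω⁻¹ ^ (k + 1) * P (w + (k + 1 : ℕ))) := by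
      refine Finset.sum_congr rfl fun k _ => ?_
      have : w + 1 + (k : ℂ) = w + ((k + 1 : ℕ) : ℂ) := by push_cast; ring
      rw [this, pow_succ]
      field_simp
    rw [e1, ← Finset.mul_sum]
    congr 1
    rw [Finset.sum_range_succ]
    change _ = ∑ k ∈ Finset.range (M + 1), ω⁻¹ ^ k * P (w + k)
    rw [Finset.sum_range_succ']
    congr 1
    rw [hωi, one_mul, hPN]
    simp
  have hEI : ∀ w, E (w + Complex.I) = E w := by
    intro w
    refine Finset.sum_congr rfl fun k _ => ?_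
    have : w + Complex.I + (k : ℂ) = w + k + Complex.I := by ring
    rw [this, hPI]
  have hEan : ∀ w, (¬ ∃ m n : ℤ, w = m + n * Complex.I) → AnalyticAt ℂ E w := by
    intro w hw
    refine Finset.analyticAt_fun_sum _ fun k _ => ?_
    refine analyticAt_const.mul ?_
    have hk : w + k ∉ L.lattice := by
      intro h
      obtain ⟨m, n, e⟩ := (G3b_mem (M + 1) hN _).1 h
      apply hw
      refine ⟨m * (M + 1 : ℕ) - k, n, ?_⟩
      push_cast at e ⊢
      linear_combination -e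
    exact (hPan _ hk).comp_of_eq (analyticAt_id.add analyticAt_const) rfl
  refine ⟨E, hE1, hEI, hEan, ?_⟩
  let Q : ℂ → ℂ := PeriodPair.weierstrassPExcept L 0
  have hQ : AnalyticAt ℂ Q 0 := L.analyticAt_weierstrassPExcept 0
  have hPQ : ∀ z, P z = Q z + 1 / z ^ 2 := by
    intro z
    have := L.weierstrassPExcept_add ⟨0, zero_mem _⟩ z
    simp at this
    change PeriodPair.weierstrassP L z = PeriodPair.weierstrassPExcept L 0 z + 1 / z ^ 2
    rw [← this]
    simp
  let R : ℂ → ℂ := fun z => Q z + ∑ k ∈ Finset.range M, ω⁻¹ ^ (k + 1) * P (z + (k + 1 : ℕ))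
  have hR : AnalyticAt ℂ R 0 := by
    refine hQ.add ?_
    refine Finset.analyticAt_fun_sum _ fun k hk => ?_
    refine analyticAt_const.mul ?_
    have hk' : (0 : ℂ) + (k + 1 : ℕ) ∉ L.lattice := by
      intro h
      obtain ⟨m, n, e⟩ := (G3b_mem (M + 1) hN _).1 h
      have h2 := congrArg Complex.re e
      simp at h2
      have h3 : m * ((M : ℤ) + 1) = (k : ℤ) + 1 := by exact_mod_cast h2
      have hk2 : (k : ℤ) < M := by exact_mod_cast Finset.mem_range.1 hk
      have hk0 : (0 : ℤ) ≤ k := by positivity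
      rcases le_or_gt m 0 with hm | hm
      · nlinarith
      · nlinarith
    exact (hPan _ hk').comp_of_eq (analyticAt_id.add analyticAt_const) rfl
  refine ⟨fun z => 1 + z ^ 2 * R z, ?_, by simp, ?_⟩
  · exact analyticAt_const.add ((analyticAt_id.pow 2).mul hR)
  · filter_upwards [self_mem_nhdsWithin] with z hz
    have hz' : z ≠ 0 := hz
    have : E z = R z + 1 / z ^ 2 := by
      change ∑ k ∈ Finset.range (M + 1), ω⁻¹ ^ k * P (z + k) = Q z + (∑ k ∈ Finset.range M, ω⁻¹ ^ (k + 1) * P (z + (k + 1 : ℕ))) + 1 / z ^ 2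
      rw [Finset.sum_range_succ']
      simp only [pow_zero, one_mul, Nat.cast_zero, add_zero]
      rw [hPQ z]
      ring
    rw [this]
    field_simp
    ring

end Pool.Agent.Helper922.HB
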