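import Pool.Agent.Helper922.HB.G3a
import Pool.Agent.Helper922.HB.G3b

/-! The elliptic data exist. -/

open scoped Topology

namespace Pool.Agent.Helper922.HB



/-- the lattice -/
def G3cL (w : ℂ) : Prop := ∃ m n : ℤ, w = m + n * Complex.I

/-- the twisted functions -/
def G3cE (ω : ℂ) (E : ℂ → ℂ) : Prop :=
  (∀ w, E (w + 1) = ω * E w) ∧ (∀ w, E (w + Complex.I) = E w) ∧
      (∀ w, ¬ G3cL w → AnalyticAt ℂ E w) ∧
      ∃ g : ℂ → ℂ, AnalyticAt ℂ g 0 ∧ g 0 = 1 ∧ ∀ᶠ z in 𝓝[≠] (0 : ℂ), z ^ 2 * E z = g z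

theorem G3c_add_one (w : ℂ) : G3cL (w + 1) ↔ G3cL w := by
  constructor
  · rintro ⟨m, n, h⟩
    exact ⟨m - 1, n, by push_cast; linear_combination h⟩
  · rintro ⟨m, n, h⟩
    exact ⟨m + 1, n, by push_cast; linear_combination h⟩

theorem G3c_add_I (w : ℂ) : G3cL (w + Complex.I) ↔ G3cL w := by
  constructor
  · rintro ⟨m, n, h⟩
    exact ⟨m, n - 1, by push_cast; linear_combination h⟩
  · rintro ⟨m, n, h⟩
    exact ⟨m, n + 1, by push_cast; linear_combination h⟩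

theorem G3c_neg (w : ℂ) : G3cL (-w) ↔ G3cL w := by
  constructor
  · rintro ⟨m, n, h⟩
    exact ⟨-m, -n, by push_cast; linear_combination -h⟩
  · rintro ⟨m, n, h⟩
    exact ⟨-m, -n, by push_cast; linear_combination -h⟩

theorem G3c_countable : {w : ℂ | G3cL w}.Countable := by
  have : {w : ℂ | G3cL w} = Set.range (fun p : ℤ × ℤ => (p.1 : ℂ) + p.2 * Complex.I) := by
    ext w
    constructor
    · rintro ⟨m, n, h⟩
      exact ⟨(m, n), h.symm⟩
    · rintro ⟨⟨m, n⟩, h⟩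
      exact ⟨m, n, h.symm⟩
  rw [this]
  exact Set.countable_range _

theorem G3c_sep (w w' : ℂ) (h : G3cL w) (h' : G3cL w') (hd : dist w w' < 1) : w = w' := by
  obtain ⟨m, n, rfl⟩ := h
  obtain ⟨m', n', rfl⟩ := h'
  rw [Complex.dist_eq] at hd
  have h1 := Complex.abs_re_le_norm (((m : ℂ) + n * Complex.I) - ((m' : ℂ) + n' * Complex.I))
  have h2 := Complex.abs_im_le_norm (((m : ℂ) + n * Complex.I) - ((m' : ℂ) + n' * Complex.I))
  have e1 : (((m : ℂ) + n * Complex.I) - ((m' : ℂ) + n' * Complex.I)).re = ((m - m' : ℤ) : ℝ) := by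
    simp
  have e2 : (((m : ℂ) + n * Complex.I) - ((m' : ℂ) + n' * Complex.I)).im = ((n - n' : ℤ) : ℝ) := by
    simp
  rw [e1] at h1
  rw [e2] at h2
  have g1 : |((m - m' : ℤ) : ℝ)| < 1 := lt_of_le_of_lt h1 hd
  have g2 : |((n - n' : ℤ) : ℝ)| < 1 := lt_of_le_of_lt h2 hd
  have k1 : |m - m'| < 1 := by exact_mod_cast g1
  have k2 : |n - n'| < 1 := by exact_mod_cast g2
  have l1 : m - m' = 0 := Int.abs_lt_one_iff.1 k1
  have l2 : n - n' = 0 := Int.abs_lt_one_iff.1 k2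
  have : m = m' := by omega
  have : n = n' := by omega
  subst_vars
  rfl

theorem G3c_iso (w₀ : ℂ) : ∃ r : ℝ, 0 < r ∧ ∀ w ∈ Metric.ball w₀ r, w ≠ w₀ → ¬ G3cL w := by
  by_cases h : ∃ w₁ ∈ Metric.ball w₀ (1 / 2), w₁ ≠ w₀ ∧ G3cL w₁
  · obtain ⟨w₁, hw₁, hne, hL⟩ := h
    rw [Metric.mem_ball] at hw₁
    refine ⟨min (1 / 2) (dist w₁ w₀), lt_min (by norm_num) (dist_pos.2 hne), ?_⟩
    intro w hw hne' hL'
    rw [Metric.mem_ball, lt_min_iff] at hw
    have : w = w₁ := by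
      apply G3c_sep w w₁ hL' hL
      calc dist w w₁ ≤ dist w w₀ + dist w₁ w₀ := dist_triangle_right _ _ _
        _ < 1 := by linarith [hw.1]
    rw [this] at hw
    exact lt_irrefl _ hw.2
  · push Not at h
    exact ⟨1 / 2, by norm_num, fun w hw hne => h w hw hne⟩

theorem G3c_iso2 (a w₀ : ℂ) : ∃ r : ℝ, 0 < r ∧ ∀ w ∈ Metric.ball w₀ r, w ≠ w₀ →
    ¬ G3cL w ∧ ¬ G3cL (w - a) := by
  obtain ⟨r, hr, h⟩ := G3c_iso w₀
  obtain ⟨r', hr', h'⟩ := G3c_iso (w₀ - a)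
  refine ⟨min r r', lt_min hr hr', ?_⟩
  intro w hw hne
  rw [Metric.mem_ball, lt_min_iff] at hw
  refine ⟨h w hw.1 hne, h' (w - a) ?_ ?_⟩
  · rw [Metric.mem_ball, dist_sub_right]
    exact hw.2
  · intro he
    exact hne (sub_left_injective he)

theorem G3c_add_int {ω : ℂ} (hω : ω ≠ 0) {E : ℂ → ℂ} (hE : G3cE ω E) (m : ℤ) :
    ∀ w, E (w + m) = ω ^ m * E w := by
  induction m using Int.induction_on with
  | zero => intro w; simp
  | succ i ih =>
    intro w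
    have h1 := hE.1 (w + (i : ℤ))
    rw [ih w] at h1
    rw [zpow_add_one₀ hω]
    have h2 : w + (((i : ℤ) + 1 : ℤ) : ℂ) = w + ((i : ℤ) : ℂ) + 1 := by push_cast; ring
    rw [h2, h1]; ring
  | pred i ih =>
    intro w
    have h1 := hE.1 (w + ((-(i : ℤ) - 1 : ℤ) : ℂ))
    have h2 : w + ((-(i : ℤ) - 1 : ℤ) : ℂ) + 1 = w + ((-(i : ℤ) : ℤ) : ℂ) := by push_cast; ring
    rw [h2, ih w] at h1
    rw [zpow_sub_one₀ hω]
    field_simp
    linear_combination -h1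

theorem G3c_add_intI {ω : ℂ} {E : ℂ → ℂ} (hE : G3cE ω E) (m : ℤ) :
    ∀ w, E (w + m * Complex.I) = E w := by
  induction m using Int.induction_on with
  | zero => intro w; simp
  | succ i ih =>
    intro w
    have h1 := hE.2.1 (w + (i : ℤ) * Complex.I)
    rw [ih w] at h1
    have h2 : w + (((i : ℤ) + 1 : ℤ) : ℂ) * Complex.I =
        w + ((i : ℤ) : ℂ) * Complex.I + Complex.I := by push_cast; ring
    rw [h2, h1]
  | pred i ih =>
    intro w
    have h1 := hE.2.1 (w + ((-(i : ℤ) - 1 : ℤ) : ℂ) * Complex.I)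
    have h2 : w + ((-(i : ℤ) - 1 : ℤ) : ℂ) * Complex.I + Complex.I =
        w + ((-(i : ℤ) : ℤ) : ℂ) * Complex.I := by push_cast; ring
    rw [h2, ih w] at h1
    exact h1.symm

open Classical in
/-- first component -/
noncomputable def G3c_e1 (a ω : ℂ) (E : ℂ → ℂ) (w : ℂ) : ℂ :=
  if G3cL w then ω ^ ⌊w.re⌋ else if G3cL (w - a) then 0 else E w

/-- second component -/
noncomputable def G3c_e2 (a ω : ℂ) (E : ℂ → ℂ) (w : ℂ) : ℂ := G3c_e1 (-a) ω E (w - a)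

open Classical in
/-- zeroth component -/
noncomputable def G3c_e0 (a : ℂ) (w : ℂ) : ℂ := if G3cL w ∨ G3cL (w - a) then 0 else 1

open Classical in
/-- local factor -/
noncomputable def G3c_m (a w₀ : ℂ) (w : ℂ) : ℂ :=
  if (G3cL w₀ ∨ G3cL (w₀ - a)) ∧ w ≠ w₀ then (w - w₀) ^ 2 else 1

theorem G3c_m_ne (a w₀ w : ℂ) : G3c_m a w₀ w ≠ 0 := by
  unfold G3c_m
  split_ifs with h
  · exact pow_ne_zero 2 (sub_ne_zero.2 h.2)
  · exact one_ne_zero

theorem G3c_m_shift (a w₀ w : ℂ) : G3c_m (-a) (w₀ - a) (w - a) = G3c_m a w₀ w := by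
  unfold G3c_m
  have h1 : w₀ - a - -a = w₀ := by ring
  have h2 : (w - a ≠ w₀ - a) ↔ w ≠ w₀ := by
    rw [ne_eq, ne_eq, sub_left_inj]
  have h3 : w - a - (w₀ - a) = w - w₀ := by ring
  have h4 : ((G3cL (w₀ - a) ∨ G3cL (w₀ - a - -a)) ∧ w - a ≠ w₀ - a) ↔
      ((G3cL w₀ ∨ G3cL (w₀ - a)) ∧ w ≠ w₀) := by
    rw [h1, h2, or_comm]
  by_cases h : (G3cL w₀ ∨ G3cL (w₀ - a)) ∧ w ≠ w₀
  · rw [if_pos h, if_pos (h4.2 h), h3]
  · rw [if_neg h, if_neg (fun h' => h (h4.1 h'))]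

theorem G3c_e1_one {a ω : ℂ} (hω : ω ≠ 0) {E : ℂ → ℂ} (hE : G3cE ω E) (w : ℂ) :
    G3c_e1 a ω E (w + 1) = ω * G3c_e1 a ω E w := by
  unfold G3c_e1
  have h1 : G3cL (w + 1 - a) ↔ G3cL (w - a) := by
    rw [show w + 1 - a = w - a + 1 by ring]
    exact G3c_add_one _
  rw [G3c_add_one, h1]
  split_ifs
  · have : (w + 1).re = w.re + 1 := by simp
    rw [this, Int.floor_add_one, zpow_add_one₀ hω, mul_comm]
  · simp
  · exact hE.1 w

theorem G3c_e1_I {a ω : ℂ} {E : ℂ → ℂ} (hE : G3cE ω E) (w : ℂ) :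
    G3c_e1 a ω E (w + Complex.I) = G3c_e1 a ω E w := by
  unfold G3c_e1
  have h1 : G3cL (w + Complex.I - a) ↔ G3cL (w - a) := by
    rw [show w + Complex.I - a = w - a + Complex.I by ring]
    exact G3c_add_I _
  rw [G3c_add_I, h1]
  split_ifs
  · have : (w + Complex.I).re = w.re := by simp
    rw [this]
  · rfl
  · exact hE.2.1 w

theorem G3c_e2_one {a ω : ℂ} (hω : ω ≠ 0) {E : ℂ → ℂ} (hE : G3cE ω E) (w : ℂ) :
    G3c_e2 a ω E (w + 1) = ω * G3c_e2 a ω E w := by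
  unfold G3c_e2
  rw [show w + 1 - a = w - a + 1 by ring]
  exact G3c_e1_one hω hE _

theorem G3c_e2_I {a ω : ℂ} {E : ℂ → ℂ} (hE : G3cE ω E) (w : ℂ) :
    G3c_e2 a ω E (w + Complex.I) = G3c_e2 a ω E w := by
  unfold G3c_e2
  rw [show w + Complex.I - a = w - a + Complex.I by ring]
  exact G3c_e1_I hE _

theorem G3c_e0_one (a w : ℂ) : G3c_e0 a (w + 1) = G3c_e0 a w := by
  unfold G3c_e0
  have h1 : G3cL (w + 1 - a) ↔ G3cL (w - a) := by
    rw [show w + 1 - a = w - a + 1 by ring]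
    exact G3c_add_one _
  rw [G3c_add_one, h1]

theorem G3c_e0_I (a w : ℂ) : G3c_e0 a (w + Complex.I) = G3c_e0 a w := by
  unfold G3c_e0
  have h1 : G3cL (w + Complex.I - a) ↔ G3cL (w - a) := by
    rw [show w + Complex.I - a = w - a + Complex.I by ring]
    exact G3c_add_I _
  rw [G3c_add_I, h1]

theorem G3c_D0 (a w₀ : ℂ) : ∃ r : ℝ, 0 < r ∧
    DifferentiableOn ℂ (fun w => G3c_m a w₀ w * G3c_e0 a w) (Metric.ball w₀ r) := by
  obtain ⟨r, hr, hiso⟩ := G3c_iso2 a w₀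
  refine ⟨r, hr, ?_⟩
  by_cases h0 : G3cL w₀ ∨ G3cL (w₀ - a)
  · have : ∀ w ∈ Metric.ball w₀ r, G3c_m a w₀ w * G3c_e0 a w = (w - w₀) ^ 2 := by
      intro w hw
      unfold G3c_m G3c_e0
      by_cases hne : w = w₀
      · subst hne
        rw [if_pos h0]; simp
      · have := hiso w hw hne
        rw [if_pos ⟨h0, hne⟩, if_neg (not_or.2 this), mul_one]
    refine DifferentiableOn.congr ?_ this
    exact ((differentiable_id.sub_const w₀).pow 2).differentiableOn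
  · have : ∀ w ∈ Metric.ball w₀ r, G3c_m a w₀ w * G3c_e0 a w = 1 := by
      intro w hw
      unfold G3c_m G3c_e0
      rw [if_neg (fun h => h0 h.1)]
      by_cases hne : w = w₀
      · subst hne
        rw [if_neg h0]; simp
      · have := hiso w hw hne
        rw [if_neg (not_or.2 this), mul_one]
    refine DifferentiableOn.congr ?_ this
    exact differentiableOn_const _

theorem G3c_D1 {a ω : ℂ} (ha : ¬ G3cL a) (hω : ω ≠ 0) {E : ℂ → ℂ} (hE : G3cE ω E) (w₀ : ℂ) :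
    ∃ r : ℝ, 0 < r ∧
    DifferentiableOn ℂ (fun w => G3c_m a w₀ w * G3c_e1 a ω E w) (Metric.ball w₀ r) := by
  obtain ⟨r, hr, hiso⟩ := G3c_iso2 a w₀
  by_cases h0 : G3cL w₀
  · -- lattice point
    obtain ⟨g, hg, hg0, hgE⟩ := hE.2.2.2
    have hna : ¬ G3cL (w₀ - a) := by
      intro h1
      obtain ⟨m, n, h⟩ := h0
      obtain ⟨m', n', h'⟩ := h1
      exact ha ⟨m - m', n - n', by push_cast; linear_combination h - h'⟩
    obtain ⟨r1, hr1, hgd⟩ := Metric.eventually_nhds_iff_ball.1 hg.eventually_analyticAt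
    obtain ⟨r2, hr2, hgE'⟩ := Metric.eventually_nhds_iff_ball.1
      (eventually_nhdsWithin_iff.1 hgE)
    refine ⟨min r (min r1 r2), lt_min hr (lt_min hr1 hr2), ?_⟩
    obtain ⟨m, n, hmn⟩ := h0
    have hL0 : G3cL w₀ := ⟨m, n, hmn⟩
    have : ∀ w ∈ Metric.ball w₀ (min r (min r1 r2)),
        G3c_m a w₀ w * G3c_e1 a ω E w = ω ^ m * g (w - w₀) := by
      intro w hw
      rw [Metric.mem_ball, lt_min_iff, lt_min_iff] at hw
      obtain ⟨hw1, hw2, hw3⟩ := hw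
      by_cases hne : w = w₀
      · subst hne
        unfold G3c_m G3c_e1
        rw [if_neg (fun h => h.2 rfl), if_pos hL0, sub_self, hg0]
        have : w.re = (m : ℝ) := by rw [hmn]; simp
        rw [this, Int.floor_intCast]
        ring
      · have hi := hiso w hw1 hne
        unfold G3c_m G3c_e1
        rw [if_pos ⟨Or.inl hL0, hne⟩, if_neg hi.1, if_neg hi.2]
        have e1 : E w = ω ^ m * E (w - w₀) := by
          have : w = (w - w₀ + n * Complex.I) + m := by rw [hmn]; ring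
          rw [this, G3c_add_int hω hE, G3c_add_intI hE]
          congr 2
          rw [hmn]; ring
        have e2 := hgE' (w - w₀) (by rw [Metric.mem_ball, dist_zero_right, ← dist_eq_norm]; exact hw3)
          (sub_ne_zero.2 hne)
        rw [e1, ← e2]; ring
    refine DifferentiableOn.congr ?_ this
    intro w hw
    rw [Metric.mem_ball, lt_min_iff, lt_min_iff] at hw
    have h1 := (hgd (w - w₀) (by rw [Metric.mem_ball, dist_zero_right, ← dist_eq_norm]; exact hw.2.1)).differentiableAt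
    have h2 : DifferentiableAt ℂ (fun w => g (w - w₀)) w :=
      DifferentiableAt.comp w (f := fun w => w - w₀) h1 (differentiableAt_id.sub_const w₀)
    exact (h2.const_mul _).differentiableWithinAt
  · -- regular points
    obtain ⟨r1, hr1, hE1⟩ := Metric.eventually_nhds_iff_ball.1 (hE.2.2.1 w₀ h0).eventually_analyticAt
    by_cases h1 : G3cL (w₀ - a)
    · refine ⟨min r r1, lt_min hr hr1, ?_⟩
      have : ∀ w ∈ Metric.ball w₀ (min r r1),
          G3c_m a w₀ w * G3c_e1 a ω E w = (w - w₀) ^ 2 * E w := by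
        intro w hw
        rw [Metric.mem_ball, lt_min_iff] at hw
        unfold G3c_m G3c_e1
        by_cases hne : w = w₀
        · subst hne
          rw [if_neg h0, if_pos h1]; simp
        · have := hiso w hw.1 hne
          rw [if_pos ⟨Or.inr h1, hne⟩, if_neg this.1, if_neg this.2]
      refine DifferentiableOn.congr ?_ this
      intro w hw
      rw [Metric.mem_ball, lt_min_iff] at hw
      exact (((differentiableAt_id.sub_const w₀).pow 2).mul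
        (hE1 w hw.2).differentiableAt).differentiableWithinAt
    · refine ⟨min r r1, lt_min hr hr1, ?_⟩
      have : ∀ w ∈ Metric.ball w₀ (min r r1),
          G3c_m a w₀ w * G3c_e1 a ω E w = E w := by
        intro w hw
        rw [Metric.mem_ball, lt_min_iff] at hw
        unfold G3c_m G3c_e1
        rw [if_neg (fun h => (h.1.elim h0 h1))]
        by_cases hne : w = w₀
        · subst hne
          rw [if_neg h0, if_neg h1, one_mul]
        · have := hiso w hw.1 hne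
          rw [if_neg this.1, if_neg this.2, one_mul]
      refine DifferentiableOn.congr ?_ this
      intro w hw
      rw [Metric.mem_ball, lt_min_iff] at hw
      exact (hE1 w hw.2).differentiableAt.differentiableWithinAt

theorem G3c_D2 {a ω : ℂ} (ha : ¬ G3cL a) (hω : ω ≠ 0) {E : ℂ → ℂ} (hE : G3cE ω E) (w₀ : ℂ) :
    ∃ r : ℝ, 0 < r ∧
    DifferentiableOn ℂ (fun w => G3c_m a w₀ w * G3c_e2 a ω E w) (Metric.ball w₀ r) := by
  obtain ⟨r, hr, hd⟩ := G3c_D1 (a := -a) (fun h => ha ((G3c_neg a).1 h)) hω hE (w₀ - a)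
  refine ⟨r, hr, ?_⟩
  have h1 : DifferentiableOn ℂ ((fun w => G3c_m (-a) (w₀ - a) w * G3c_e1 (-a) ω E w) ∘
      (fun w => w - a)) (Metric.ball w₀ r) := by
    refine hd.comp ((differentiable_id.sub_const a).differentiableOn) ?_
    intro w hw
    rw [Metric.mem_ball] at hw ⊢
    rw [dist_sub_right]; exact hw
  refine h1.congr ?_
  intro w _
  show G3c_m a w₀ w * G3c_e2 a ω E w =
    G3c_m (-a) (w₀ - a) (w - a) * G3c_e1 (-a) ω E (w - a)
  rw [G3c_m_shift]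
  rfl

theorem G3c_zeros {ω : ℂ} {E : ℂ → ℂ} (hE : G3cE ω E) :
    {w : ℂ | ¬ G3cL w ∧ E w = 0}.Countable := by
  obtain ⟨g, hg, hg0, hgE⟩ := hE.2.2.2
  have hconn : IsPreconnected ({w : ℂ | G3cL w}ᶜ) := by
    refine (G3c_countable.isConnected_compl_of_one_lt_rank ?_).isPreconnected
    rw [Complex.rank_real_complex]
    norm_num
  have han : AnalyticOnNhd ℂ E ({w : ℂ | G3cL w}ᶜ) := fun w hw => hE.2.2.1 w hw
  have hnz : ∀ x, ¬ G3cL x → ∀ᶠ y in 𝓝[≠] x, E y ≠ 0 := by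
    intro x hx
    rcases (hE.2.2.1 x hx).eventually_eq_zero_or_eventually_ne_zero with h | h
    · exfalso
      have h1 := han.eqOn_zero_of_preconnected_of_eventuallyEq_zero hconn hx h
      obtain ⟨r, hr, hiso⟩ := G3c_iso 0
      have h2 : ∀ᶠ z in 𝓝[≠] (0 : ℂ), ¬ G3cL z := by
        rw [eventually_nhdsWithin_iff]
        filter_upwards [Metric.ball_mem_nhds (0 : ℂ) hr] with z hz hne
        exact hiso z hz hne
      have h3 : ∀ᶠ z in 𝓝[≠] (0 : ℂ), g z = 0 := by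
        filter_upwards [h2, hgE] with z hz1 hz2
        rw [← hz2, h1 hz1]; simp
      have h4 : Filter.Tendsto g (𝓝[≠] (0 : ℂ)) (𝓝 (g 0)) :=
        hg.continuousAt.tendsto.mono_left nhdsWithin_le_nhds
      have h5 : Filter.Tendsto g (𝓝[≠] (0 : ℂ)) (𝓝 0) :=
        (tendsto_const_nhds).congr' (by filter_upwards [h3] with z hz; exact hz.symm)
      have h6 := tendsto_nhds_unique h4 h5
      rw [hg0] at h6
      exact one_ne_zero h6
    · exact h
  refine IsLindelof.countable (HereditarilyLindelofSpace.isLindelof _) ?_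
  rw [discreteTopology_subtype_iff]
  rintro x ⟨hx, -⟩
  rw [Filter.inf_principal_eq_bot]
  filter_upwards [hnz x hx] with y hy
  intro h
  exact hy h.2

theorem G3c_exists_a {ω ω' : ℂ} {E E' : ℂ → ℂ} (hE : G3cE ω E) (hE' : G3cE ω' E') :
    ∃ a : ℂ, ¬ G3cL a ∧ (∀ w, ¬ G3cL w → ¬ G3cL (w - a) → E w = 0 → E (w - a) ≠ 0) ∧
      (∀ w, ¬ G3cL w → ¬ G3cL (w - a) → E' w = 0 → E' (w - a) ≠ 0) := by
  have h1 := G3c_zeros hE
  have h2 := G3c_zeros hE'
  have hc : ({w : ℂ | G3cL w} ∪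
      ((fun p : ℂ × ℂ => p.1 - p.2) '' ({w : ℂ | ¬ G3cL w ∧ E w = 0} ×ˢ
        {w : ℂ | ¬ G3cL w ∧ E w = 0}) ∪
      (fun p : ℂ × ℂ => p.1 - p.2) '' ({w : ℂ | ¬ G3cL w ∧ E' w = 0} ×ˢ
        {w : ℂ | ¬ G3cL w ∧ E' w = 0}))).Countable :=
    G3c_countable.union (((h1.prod h1).image _).union ((h2.prod h2).image _))
  obtain ⟨a, ha⟩ := (hc.dense_compl ℝ).nonempty
  rw [Set.mem_compl_iff, Set.mem_union, Set.mem_union, not_or, not_or] at ha
  refine ⟨a, ha.1, ?_, ?_⟩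
  · intro w hw hwa hz hz'
    exact ha.2.1 ⟨(w, w - a), ⟨⟨hw, hz⟩, ⟨hwa, hz'⟩⟩, by simp⟩
  · intro w hw hwa hz hz'
    exact ha.2.2 ⟨(w, w - a), ⟨⟨hw, hz⟩, ⟨hwa, hz'⟩⟩, by simp⟩

theorem G3c_zeta6 : zeta ^ 6 = 1 := by
  unfold zeta
  rw [← Complex.exp_nat_mul]
  have : ((6 : ℕ) : ℂ) * (Real.pi * Complex.I / 3) = 2 * Real.pi * Complex.I := by
    push_cast; ring
  rw [this, Complex.exp_two_pi_mul_I]

theorem G3c_zeta_ne : zeta ≠ 0 := Complex.exp_ne_zero _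

theorem G3c_ne2 {a ω : ℂ} (ha : ¬ G3cL a) (hω : ω ≠ 0) {E : ℂ → ℂ}
    (hz : ∀ w, ¬ G3cL w → ¬ G3cL (w - a) → E w = 0 → E (w - a) ≠ 0) (w : ℂ) :
    (![G3c_e1 a ω E w, G3c_e2 a ω E w] : Fin 2 → ℂ) ≠ 0 := by
  intro h
  have h0 : G3c_e1 a ω E w = 0 := congrFun h 0
  have h1 : G3c_e2 a ω E w = 0 := congrFun h 1
  unfold G3c_e2 G3c_e1 at h1
  unfold G3c_e1 at h0
  by_cases hL : G3cL w
  · rw [if_pos hL] at h0
    exact zpow_ne_zero _ hω h0
  · rw [if_neg hL] at h0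
    by_cases hL' : G3cL (w - a)
    · rw [if_pos hL'] at h1
      exact zpow_ne_zero _ hω h1
    · rw [if_neg hL'] at h0 h1
      rw [show w - a - -a = w by ring, if_neg hL] at h1
      exact hz w hL hL' h0 h1

theorem G3c_ne3 {a : ℂ} {E : ℂ → ℂ} (w : ℂ) :
    (![G3c_e0 a w, G3c_e1 a 1 E w, G3c_e2 a 1 E w] : Fin 3 → ℂ) ≠ 0 := by
  intro h
  have h0 : G3c_e0 a w = 0 := congrFun h 0
  have h1 : G3c_e1 a 1 E w = 0 := congrFun h 1
  have h2 : G3c_e2 a 1 E w = 0 := congrFun h 2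
  unfold G3c_e2 G3c_e1 at h2
  unfold G3c_e1 at h1
  unfold G3c_e0 at h0
  by_cases hL : G3cL w
  · rw [if_pos hL] at h1
    simp at h1
  · by_cases hL' : G3cL (w - a)
    · rw [if_pos hL'] at h2
      simp at h2
    · rw [if_neg (not_or.2 ⟨hL, hL'⟩)] at h0
      exact one_ne_zero h0

/-- TO PROVE -/
theorem nonempty_EData : Nonempty EData := by
  obtain ⟨U, U_ne, U_one, U_I, sep, Ulift⟩ := exists_U
  obtain ⟨E1, hE1⟩ : ∃ E, G3cE 1 E := exists_twisted 1 one_pos 1 (one_pow _)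
  have hω3 : ((zeta ^ 2)⁻¹) ^ 3 = 1 := by
    rw [inv_pow, ← pow_mul, G3c_zeta6, inv_one]
  have hω2 : ((zeta ^ 3)⁻¹) ^ 2 = 1 := by
    rw [inv_pow, ← pow_mul, G3c_zeta6, inv_one]
  obtain ⟨E3, hE3⟩ : ∃ E, G3cE (zeta ^ 2)⁻¹ E := exists_twisted 3 (by norm_num) _ hω3
  obtain ⟨E2, hE2⟩ : ∃ E, G3cE (zeta ^ 3)⁻¹ E := exists_twisted 2 (by norm_num) _ hω2
  have hn3 : (zeta ^ 2)⁻¹ ≠ 0 := inv_ne_zero (pow_ne_zero _ G3c_zeta_ne)
  have hn2 : (zeta ^ 3)⁻¹ ≠ 0 := inv_ne_zero (pow_ne_zero _ G3c_zeta_ne)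
  obtain ⟨a, ha, ha3, ha2⟩ := G3c_exists_a hE3 hE2
  refine ⟨{
    U := U
    A := fun w => ![G3c_e0 a w, G3c_e1 a 1 E1 w, G3c_e2 a 1 E1 w]
    B := fun w => ![G3c_e1 a (zeta ^ 2)⁻¹ E3 w, G3c_e2 a (zeta ^ 2)⁻¹ E3 w]
    C := fun w => ![G3c_e1 a (zeta ^ 3)⁻¹ E2 w, G3c_e2 a (zeta ^ 3)⁻¹ E2 w]
    U_ne := U_ne
    A_ne := fun w => G3c_ne3 w
    B_ne := fun w => G3c_ne2 ha hn3 ha3 w
    C_ne := fun w => G3c_ne2 ha hn2 ha2 w
    U_one := U_one
    A_one := ?_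
    B_one := ?_
    C_one := ?_
    U_I := U_I
    A_I := ?_
    B_I := ?_
    C_I := ?_
    sep := sep
    lift := ?_ }⟩
  · intro w
    simp only [G3c_e0_one, G3c_e1_one one_ne_zero hE1, G3c_e2_one one_ne_zero hE1, one_mul]
  · intro w
    simp only [G3c_e1_one hn3 hE3, G3c_e2_one hn3 hE3]
    funext i
    have hz : zeta ^ 2 ≠ 0 := pow_ne_zero _ G3c_zeta_ne
    fin_cases i
    · simp [hz]
    · simp [hz]
  · intro w
    simp only [G3c_e1_one hn2 hE2, G3c_e2_one hn2 hE2]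
    funext i
    have hz : zeta ^ 3 ≠ 0 := pow_ne_zero _ G3c_zeta_ne
    fin_cases i
    · simp [hz]
    · simp [hz]
  · intro w
    simp only [G3c_e0_I, G3c_e1_I hE1, G3c_e2_I hE1]
  · intro w
    simp only [G3c_e1_I hE3, G3c_e2_I hE3]
  · intro w
    simp only [G3c_e1_I hE2, G3c_e2_I hE2]
  · intro w₀
    obtain ⟨r, hr, l, hl0, hl1, hl2⟩ := Ulift w₀
    obtain ⟨r0, hr0, h0⟩ := G3c_D0 a w₀
    obtain ⟨r1, hr1, h1⟩ := G3c_D1 ha one_ne_zero hE1 w₀
    obtain ⟨r2, hr2, h2⟩ := G3c_D2 ha one_ne_zero hE1 w₀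
    obtain ⟨r3, hr3, h3⟩ := G3c_D1 ha hn3 hE3 w₀
    obtain ⟨r4, hr4, h4⟩ := G3c_D2 ha hn3 hE3 w₀
    obtain ⟨r5, hr5, h5⟩ := G3c_D1 ha hn2 hE2 w₀
    obtain ⟨r6, hr6, h6⟩ := G3c_D2 ha hn2 hE2 w₀
    obtain ⟨R, hR⟩ : ∃ R, R = min r (min r0 (min r1 (min r2 (min r3 (min r4 (min r5 r6)))))) :=
      ⟨_, rfl⟩
    have hR0 : 0 < R := by
      rw [hR]
      exact lt_min hr (lt_min hr0 (lt_min hr1 (lt_min hr2 (lt_min hr3 (lt_min hr4
        (lt_min hr5 hr6))))))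
    have hRle : R ≤ r ∧ R ≤ r0 ∧ R ≤ r1 ∧ R ≤ r2 ∧ R ≤ r3 ∧ R ≤ r4 ∧ R ≤ r5 ∧ R ≤ r6 := by
      have := le_of_eq hR
      simp only [le_min_iff] at this
      exact this
    obtain ⟨g, g0, g1, g2, g3, g4, g5, g6⟩ := hRle
    refine ⟨R, hR0, l, G3c_m a w₀, ?_, ?_, ?_, ?_, ?_, ?_⟩
    · intro w hw
      exact ⟨hl0 w (Metric.ball_subset_ball g hw), G3c_m_ne a w₀ w⟩
    · exact hl1.mono (Metric.ball_subset_ball g)
    · rw [differentiableOn_pi]
      intro i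
      fin_cases i
      · exact h0.mono (Metric.ball_subset_ball g0)
      · exact h1.mono (Metric.ball_subset_ball g1)
      · exact h2.mono (Metric.ball_subset_ball g2)
    · rw [differentiableOn_pi]
      intro i
      fin_cases i
      · exact h3.mono (Metric.ball_subset_ball g3)
      · exact h4.mono (Metric.ball_subset_ball g4)
    · rw [differentiableOn_pi]
      intro i
      fin_cases i
      · exact h5.mono (Metric.ball_subset_ball g5)
      · exact h6.mono (Metric.ball_subset_ball g6)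
    · intro w hw c
      exact hl2 w (Metric.ball_subset_ball g hw) c

end Pool.Agent.Helper922.HB
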