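import Pool.Agent.Helper922.HB.EmbDefs

/-! The fibres of the parametrisation of the twisted product. -/

open scoped LinearAlgebra.Projectivization Topology

namespace Pool.Agent.Helper922.HB

theorem eK_eq_iff_lam_nat (w : ℂ) (m : ℕ) : zeta ^ m * lam (w + m) = lam w := by
  induction m with
  | zero => simp
  | succ m ih =>
    have h := lam_add_one (w + m)
    rw [pow_succ, mul_assoc]
    push_cast
    rw [← add_assoc, h, ih]

theorem eK_eq_iff_lam_int (w : ℂ) (m : ℤ) : zeta ^ m * lam (w + m) = lam w := by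
  obtain ⟨k, rfl | rfl⟩ := m.eq_nat_or_neg
  · simpa using eK_eq_iff_lam_nat w k
  · have h := eK_eq_iff_lam_nat (w + ((-(k : ℤ) : ℤ) : ℂ)) k
    push_cast at h
    rw [neg_add_cancel_right] at h
    push_cast
    rw [← h, ← mul_assoc, zpow_neg, zpow_natCast, inv_mul_cancel₀ (pow_ne_zero _ zeta_ne), one_mul]

theorem eK_eq_iff_lam_I (w : ℂ) (n : ℤ) : lam (w + n * Complex.I) = lam w := by
  unfold lam
  simp

theorem eK_eq_iff_lam (w : ℂ) (m n : ℤ) : lam w = zeta ^ m * lam (w + m + n * Complex.I) := by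
  rw [eK_eq_iff_lam_I, eK_eq_iff_lam_int]

theorem eK_eq_iff_lam6 (w : ℂ) (m n : ℤ) : lam w ^ 6 = lam (w + m + n * Complex.I) ^ 6 := by
  rw [eK_eq_iff_lam w m n, mul_pow]
  have : (zeta ^ m) ^ 6 = 1 := by
    rw [← zpow_natCast, ← zpow_mul, mul_comm, zpow_mul]
    rw [zpow_natCast, zeta_pow_six, one_zpow]
  rw [this, one_mul]

/-- TO PROVE -/
theorem eK_eq_iff (w t : ℂ) (v : Fin 3 → ℂ) (hv : v ≠ 0) (hW : Wei t v) (w' t' : ℂ)
    (v' : Fin 3 → ℂ) (hv' : v' ≠ 0) (hW' : Wei t' v') :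
    eK w t v hv hW = eK w' t' v' hv' hW' ↔ t = t' ∧ ∃ (m n : ℤ) (c : ℂ),
      w' = w + m + n * Complex.I ∧
        v' = c • ![zeta ^ (2 * m) * v 0, zeta ^ (3 * m) * v 1, v 2] := by
  constructor
  · intro h
    have ht : t = t' := by
      have := congrArg fK h
      rwa [fK_eK, fK_eK] at this
    refine ⟨ht, ?_⟩
    have h1 : Circle.exp (2 * Real.pi * w.im) = Circle.exp (2 * Real.pi * w'.im) :=
      congrArg Prod.fst h
    have h2 : Circle.exp (2 * Real.pi * w.re) = Circle.exp (2 * Real.pi * w'.re) :=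
      congrArg (fun k => k.2.1) h
    have h3 : Projectivization.mk ℂ (actV (lam w) v) (actV_ne _ (lam_ne w) v hv) =
        Projectivization.mk ℂ (actV (lam w') v') (actV_ne _ (lam_ne w') v' hv') :=
      congrArg (fun k => k.2.2.1.2) h
    have hpi : (2 * Real.pi) ≠ 0 := by positivity
    obtain ⟨n, hn⟩ := Circle.exp_eq_exp.1 h1.symm
    obtain ⟨m, hm⟩ := Circle.exp_eq_exp.1 h2.symm
    have hn' : w'.im = w.im + n := by
      have : 2 * Real.pi * w'.im = 2 * Real.pi * (w.im + n) := by rw [hn]; ring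
      exact mul_left_cancel₀ hpi this
    have hm' : w'.re = w.re + m := by
      have : 2 * Real.pi * w'.re = 2 * Real.pi * (w.re + m) := by rw [hm]; ring
      exact mul_left_cancel₀ hpi this
    have hw : w' = w + m + n * Complex.I := by
      apply Complex.ext
      · simp [hm']
      · simp [hn']
    obtain ⟨a, ha⟩ := (Projectivization.mk_eq_mk_iff' ℂ _ _ _ _).1 h3.symm
    have hlam := eK_eq_iff_lam w m n
    rw [← hw] at hlam
    refine ⟨m, n, a, hw, ?_⟩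
    have hl := lam_ne w'
    have a0 := congrFun ha 0
    have a1 := congrFun ha 1
    have a2 := congrFun ha 2
    simp only [actV, Pi.smul_apply, smul_eq_mul, Matrix.cons_val_zero, Matrix.cons_val_one,
      Matrix.cons_val] at a0 a1 a2
    rw [hlam] at a0 a1
    have z2 : zeta ^ (2 * m) = (zeta ^ m) ^ 2 := by
      rw [mul_comm, zpow_mul]; norm_cast
    have z3 : zeta ^ (3 * m) = (zeta ^ m) ^ 3 := by
      rw [mul_comm, zpow_mul]; norm_cast
    funext i
    fin_cases i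
    · simp only [Pi.smul_apply, smul_eq_mul, Matrix.cons_val_zero, Fin.zero_eta, z2]
      apply mul_left_cancel₀ (pow_ne_zero 2 hl)
      rw [← a0]; ring
    · simp only [Pi.smul_apply, smul_eq_mul, Matrix.cons_val_one, Fin.mk_one, z3]
      apply mul_left_cancel₀ (pow_ne_zero 3 hl)
      simp only [Matrix.cons_val_zero]
      rw [← a1]; ring
    · simp only [Pi.smul_apply, smul_eq_mul, Matrix.cons_val, Fin.reduceFinMk]
      exact a2.symm
  · rintro ⟨rfl, m, n, c, hw, hvc⟩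
    have hc : c ≠ 0 := by
      rintro rfl
      rw [zero_smul] at hvc
      exact hv' hvc
    have hlam := eK_eq_iff_lam w m n
    have hlam6 := eK_eq_iff_lam6 w m n
    rw [← hw] at hlam hlam6
    have hl := lam_ne w'
    have h1 : Circle.exp (2 * Real.pi * w.im) = Circle.exp (2 * Real.pi * w'.im) := by
      refine (Circle.exp_eq_exp.2 ⟨n, ?_⟩).symm
      rw [hw]; simp; ring
    have h2 : Circle.exp (2 * Real.pi * w.re) = Circle.exp (2 * Real.pi * w'.re) := by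
      refine (Circle.exp_eq_exp.2 ⟨m, ?_⟩).symm
      rw [hw]; simp; ring
    have z2 : zeta ^ (2 * m) = (zeta ^ m) ^ 2 := by
      rw [mul_comm, zpow_mul]; norm_cast
    have z3 : zeta ^ (3 * m) = (zeta ^ m) ^ 3 := by
      rw [mul_comm, zpow_mul]; norm_cast
    have h3 : Projectivization.mk ℂ (actV (lam w) v) (actV_ne _ (lam_ne w) v hv) =
        Projectivization.mk ℂ (actV (lam w') v') (actV_ne _ (lam_ne w') v' hv') := by
      rw [Projectivization.mk_eq_mk_iff']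
      refine ⟨c⁻¹, ?_⟩
      rw [hlam]
      funext i
      fin_cases i
      · simp only [actV, hvc, Pi.smul_apply, smul_eq_mul, Matrix.cons_val_zero, Fin.zero_eta, z2]
        field_simp
      · simp only [actV, hvc, Pi.smul_apply, smul_eq_mul, Matrix.cons_val_one, Fin.mk_one,
          Matrix.cons_val_zero, z3]
        field_simp
      · simp only [actV, hvc, Pi.smul_apply, smul_eq_mul, Matrix.cons_val, Fin.reduceFinMk]
        field_simp
    unfold eK
    refine Prod.ext h1 (Prod.ext h2 (Subtype.ext (Prod.ext ?_ h3)))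
    change lam w ^ 6 * t = lam w' ^ 6 * t
    rw [hlam6]

/-- TO PROVE -/
theorem eK_c1 (w x y : ℂ) : eK w (y ^ 2 - x ^ 3) ![x, y, 1] (vec1_ne x y) (Wei1 x y) =
    (Circle.exp (2 * Real.pi * w.im), Circle.exp (2 * Real.pi * w.re),
      c1 (lam w ^ 2 * x, lam w ^ 3 * y)) := by
  unfold eK c1
  refine Prod.ext rfl (Prod.ext rfl (Subtype.ext (Prod.ext ?_ ?_)))
  · change lam w ^ 6 * (y ^ 2 - x ^ 3) = (lam w ^ 3 * y) ^ 2 - (lam w ^ 2 * x) ^ 3
    ring
  · change Projectivization.mk ℂ (actV (lam w) ![x, y, 1]) _ =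
      Projectivization.mk ℂ ![lam w ^ 2 * x, lam w ^ 3 * y, 1] _
    rw [Projectivization.mk_eq_mk_iff']
    exact ⟨1, by rw [one_smul]; rfl⟩

theorem eK_c2_norm (w : ℂ) : ‖lam w‖ = 1 := by
  unfold lam
  have h := Complex.norm_exp_ofReal_mul_I (-(Real.pi * w.re / 3))
  rw [Complex.ofReal_neg] at h
  exact h

/-- TO PROVE -/
theorem lam_mem_W2 (w s t : ℂ) (h : ((s, t) : ℂ × ℂ) ∈ W2) :
    (((lam w)⁻¹ * s, lam w ^ 6 * t) : ℂ × ℂ) ∈ W2 := by
  change ‖lam w ^ 6 * t‖ * ‖(lam w)⁻¹ * s‖ ^ 6 < 1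
  change ‖t‖ * ‖s‖ ^ 6 < 1 at h
  rw [norm_mul, norm_mul, norm_pow, norm_inv, eK_c2_norm]
  simpa using h

theorem eK_c2_rt (l s t : ℂ) (hl : l ≠ 0) : rt (l⁻¹ * s) (l ^ 6 * t) = rt s t := by
  unfold rt
  congr 2
  field_simp

/-- TO PROVE -/
theorem eK_c2 (w s t : ℂ) (h : ((s, t) : ℂ × ℂ) ∈ W2) :
    eK w t ![s, rt s t, s ^ 3] (vec2_ne s t h) (Wei2 s t) =
    (Circle.exp (2 * Real.pi * w.im), Circle.exp (2 * Real.pi * w.re),
      c2 ⟨((lam w)⁻¹ * s, lam w ^ 6 * t), lam_mem_W2 w s t h⟩) := by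
  have hl := lam_ne w
  unfold eK c2
  refine Prod.ext rfl (Prod.ext rfl (Subtype.ext (Prod.ext rfl ?_)))
  change Projectivization.mk ℂ (actV (lam w) ![s, rt s t, s ^ 3]) _ =
      Projectivization.mk ℂ ![(lam w)⁻¹ * s, rt ((lam w)⁻¹ * s) (lam w ^ 6 * t),
        ((lam w)⁻¹ * s) ^ 3] _
  rw [Projectivization.mk_eq_mk_iff']
  refine ⟨lam w ^ 3, ?_⟩
  rw [eK_c2_rt _ _ _ hl]
  funext i
  fin_cases i
  · simp only [actV, Pi.smul_apply, smul_eq_mul, Matrix.cons_val_zero, Fin.zero_eta]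
    field_simp
  · simp only [actV, Pi.smul_apply, smul_eq_mul, Matrix.cons_val_one, Fin.mk_one,
      Matrix.cons_val_zero]
  · simp only [actV, Pi.smul_apply, smul_eq_mul, Matrix.cons_val, Fin.reduceFinMk]
    field_simp

theorem KK_cases_c (c : CC) : (∃ X Y : ℂ, c = c1 (X, Y)) ∨
    (∃ T : ℂ, ∃ h : ((0, T) : ℂ × ℂ) ∈ W2, c = c2 ⟨(0, T), h⟩) := by
  obtain ⟨⟨τ, ℓ⟩, hc⟩ := c
  have hW : Wei τ ℓ.rep := hc
  have hne := ℓ.rep_nonzero
  have hmk : Projectivization.mk ℂ ℓ.rep hne = ℓ := ℓ.mk_rep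
  by_cases h2 : ℓ.rep 2 = 0
  · right
    have hW0 := hW
    unfold Wei at hW0
    rw [h2] at hW0
    have h0 : ℓ.rep 0 = 0 := by
      have : ℓ.rep 0 ^ 3 = 0 := by linear_combination -hW0
      exact pow_eq_zero_iff (by norm_num) |>.1 this
    have h1 : ℓ.rep 1 ≠ 0 := by
      intro h1
      apply hne
      funext i
      fin_cases i
      · exact h0
      · exact h1
      · exact h2
    have hmem : ((0, τ) : ℂ × ℂ) ∈ W2 := by
      change ‖τ‖ * ‖(0 : ℂ)‖ ^ 6 < 1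
      simp
    refine ⟨τ, hmem, ?_⟩
    unfold c2
    refine Subtype.ext (Prod.ext rfl ?_)
    change ℓ = Projectivization.mk ℂ ![0, rt 0 τ, 0 ^ 3] _
    rw [← hmk, Projectivization.mk_eq_mk_iff']
    have hrt : rt 0 τ = 1 := by
      unfold rt
      simp
    refine ⟨ℓ.rep 1, ?_⟩
    rw [hrt]
    funext i
    fin_cases i
    · simp [h0]
    · simp
    · simp [h2]
  · left
    refine ⟨ℓ.rep 0 / ℓ.rep 2, ℓ.rep 1 / ℓ.rep 2, ?_⟩
    unfold c1
    refine Subtype.ext (Prod.ext ?_ ?_)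
    · change τ = (ℓ.rep 1 / ℓ.rep 2) ^ 2 - (ℓ.rep 0 / ℓ.rep 2) ^ 3
      have hW0 := hW
      unfold Wei at hW0
      field_simp
      linear_combination -hW0
    · change ℓ = Projectivization.mk ℂ ![ℓ.rep 0 / ℓ.rep 2, ℓ.rep 1 / ℓ.rep 2, 1] _
      conv_lhs => rw [← hmk]
      rw [Projectivization.mk_eq_mk_iff']
      refine ⟨ℓ.rep 2, ?_⟩
      funext i
      fin_cases i
      · simp only [Pi.smul_apply, smul_eq_mul, Matrix.cons_val_zero, Fin.zero_eta]
        field_simp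
      · simp only [Pi.smul_apply, smul_eq_mul, Matrix.cons_val_one, Fin.mk_one,
          Matrix.cons_val_zero]
        field_simp
      · simp

/-- TO PROVE -/
theorem KK_cases (k : KK) :
    (∃ w x y : ℂ, k = eK w (y ^ 2 - x ^ 3) ![x, y, 1] (vec1_ne x y) (Wei1 x y)) ∨
    (∃ (w s t : ℂ) (h : ((s, t) : ℂ × ℂ) ∈ W2),
      k = eK w t ![s, rt s t, s ^ 3] (vec2_ne s t h) (Wei2 s t)) := by
  obtain ⟨β, θ, c⟩ := k
  set w : ℂ := ⟨Complex.arg θ / (2 * Real.pi), Complex.arg β / (2 * Real.pi)⟩ with hw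
  have hpi : (2 * Real.pi) ≠ 0 := by positivity
  have hβ : Circle.exp (2 * Real.pi * w.im) = β := by
    have : 2 * Real.pi * w.im = Complex.arg β := by
      rw [hw]; simp only; field_simp
    rw [this, Circle.exp_arg]
  have hθ : Circle.exp (2 * Real.pi * w.re) = θ := by
    have : 2 * Real.pi * w.re = Complex.arg θ := by
      rw [hw]; simp only; field_simp
    rw [this, Circle.exp_arg]
  have hl := lam_ne w
  rcases KK_cases_c c with ⟨X, Y, hc⟩ | ⟨T, hT, hc⟩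
  · left
    refine ⟨w, (lam w ^ 2)⁻¹ * X, (lam w ^ 3)⁻¹ * Y, ?_⟩
    rw [eK_c1, hβ, hθ, hc, mul_inv_cancel_left₀ (pow_ne_zero 2 hl),
      mul_inv_cancel_left₀ (pow_ne_zero 3 hl)]
  · right
    have hmem : ((0, (lam w ^ 6)⁻¹ * T) : ℂ × ℂ) ∈ W2 := by
      change ‖(lam w ^ 6)⁻¹ * T‖ * ‖(0 : ℂ)‖ ^ 6 < 1
      simp
    refine ⟨w, 0, (lam w ^ 6)⁻¹ * T, hmem, ?_⟩
    rw [eK_c2 w 0 _ hmem, hβ, hθ, hc]
    congr 3
    apply Subtype.ext
    change (0, T) = ((lam w)⁻¹ * 0, lam w ^ 6 * ((lam w ^ 6)⁻¹ * T))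
    rw [mul_zero, mul_inv_cancel_left₀ (pow_ne_zero 6 hl)]

end Pool.Agent.Helper922.HB
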