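import Pool.Agent.Helper922.HB.G4a
import Pool.Agent.Helper922.HB.G4b

/-! The embedding of the twisted product. -/

open scoped LinearAlgebra.Projectivization Topology

namespace Pool.Agent.Helper922.HB

universe u v



theorem g4c_int {κ : Type} (F : ℂ → κ → ℂ) (z : ℂ) (hz : z ≠ 0)
    (h : ∀ w, z • F (w + 1) = F w) (m : ℤ) : ∀ w, z ^ m • F (w + m) = F w := by
  induction m using Int.induction_on with
  | zero => intro w; simp
  | succ i ih =>
    intro w
    have h1 := h (w + (i : ℤ))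
    have h2 := ih w
    rw [← h1, smul_smul, ← zpow_add_one₀ hz] at h2
    rw [← h2]
    push_cast
    rw [add_assoc]
  | pred i ih =>
    intro w
    have h1 := h (w + ((-(i : ℤ) - 1 : ℤ) : ℂ))
    have h2 := ih w
    rw [← h1, smul_smul, ← zpow_add_one₀ hz, ← h2]
    push_cast
    congr 2
    · ring_nf
    · ring_nf

theorem g4c_per {κ : Type} (F : ℂ → κ → ℂ) (z : ℂ) (hz : z ≠ 0)
    (h : ∀ w, z • F (w + 1) = F w) (hI : ∀ w, F (w + Complex.I) = F w) (m n : ℤ) (w : ℂ) :
    z ^ m • F (w + m + n * Complex.I) = F w := by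
  have hp : Function.Periodic F Complex.I := hI
  rw [(hp.int_mul n) (w + m)]
  exact g4c_int F z hz h m w

theorem g4c_perU (D : EData) (w : ℂ) (m n : ℤ) : D.U (w + m + n * Complex.I) = D.U w := by
  have := g4c_per D.U 1 one_ne_zero (fun w => by rw [one_smul, D.U_one]) D.U_I m n w
  simpa using this

theorem g4c_perA (D : EData) (w : ℂ) (m n : ℤ) : D.A (w + m + n * Complex.I) = D.A w := by
  have := g4c_per D.A 1 one_ne_zero (fun w => by rw [one_smul, D.A_one]) D.A_I m n w
  simpa using this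

theorem g4c_perB (D : EData) (w : ℂ) (m n : ℤ) :
    zeta ^ (2 * m) • D.B (w + m + n * Complex.I) = D.B w := by
  have := g4c_per D.B (zeta ^ 2) (pow_ne_zero _ zeta_ne) D.B_one D.B_I m n w
  rw [← this, zpow_mul]
  norm_cast

theorem g4c_perC (D : EData) (w : ℂ) (m n : ℤ) :
    zeta ^ (3 * m) • D.C (w + m + n * Complex.I) = D.C w := by
  have := g4c_per D.C (zeta ^ 3) (pow_ne_zero _ zeta_ne) D.C_one D.C_I m n w
  rw [← this, zpow_mul]
  norm_cast

/-- the map on the parameter space -/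
noncomputable def g4c_jt (D : EData) (p : E0) : ℂ × ℙ ℂ (Idx → ℂ) :=
  (p.1.2.1, Projectivization.mk ℂ (Phi (D.U p.1.1) (D.A p.1.1) (D.B p.1.1) (D.C p.1.1) p.1.2.2)
      (Phi_ne _ _ _ _ _ (D.U_ne _) (D.A_ne _) (D.B_ne _) (D.C_ne _) p.2.1))

theorem g4c_wd (D : EData) (p p' : E0) (h : qK p = qK p') : g4c_jt D p = g4c_jt D p' := by
  obtain ⟨⟨w, t, v⟩, hv, hW⟩ := p
  obtain ⟨⟨w', t', v'⟩, hv', hW'⟩ := p'
  have h' : eK w t v hv hW = eK w' t' v' hv' hW' := h
  rw [eK_eq_iff] at h'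
  obtain ⟨ht, m, n, c, hw, hvv⟩ := h'
  dsimp only at hv hW hv' hW'
  unfold g4c_jt
  refine Prod.ext ht ?_
  change Projectivization.mk ℂ _ _ = Projectivization.mk ℂ _ _
  rw [eq_comm, Projectivization.mk_eq_mk_iff']
  refine ⟨c, ?_⟩
  have hU := g4c_perU D w m n
  have hA := g4c_perA D w m n
  have hB := g4c_perB D w m n
  have hC := g4c_perC D w m n
  rw [← hw] at hU hA hB hC
  funext q
  obtain ⟨i, q⟩ := q
  rcases q with a | b | b
  · simp only [Phi, Pi.smul_apply, smul_eq_mul, Sum.elim_inl]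
    rw [hU, hA, hvv]
    simp only [Pi.smul_apply, smul_eq_mul, Matrix.cons_val]
    ring
  · simp only [Phi, Pi.smul_apply, smul_eq_mul, Sum.elim_inr, Sum.elim_inl]
    rw [hU, ← hB, hvv]
    simp only [Pi.smul_apply, smul_eq_mul, Matrix.cons_val_zero]
    ring
  · simp only [Phi, Pi.smul_apply, smul_eq_mul, Sum.elim_inr]
    rw [hU, ← hC, hvv]
    simp only [Pi.smul_apply, smul_eq_mul, Matrix.cons_val_one, Matrix.cons_val_zero]
    ring

theorem g4c_cont (D : EData) : Continuous (g4c_jt D) := by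
  unfold g4c_jt
  refine Continuous.prodMk (by fun_prop) ?_
  rw [continuous_iff_continuousAt]
  intro p0
  obtain ⟨r, hr, l, m, hlm, hU, hA, hB, hC, -⟩ := D.lift p0.1.1
  have hw : Continuous (fun p : E0 => p.1.1) := by fun_prop
  have hball : Metric.ball p0.1.1 r ∈ nhds p0.1.1 := Metric.ball_mem_nhds _ hr
  refine continuousAt_mk (fun p : E0 => Phi (D.U p.1.1) (D.A p.1.1) (D.B p.1.1) (D.C p.1.1) p.1.2.2)
    (fun p => Phi_ne _ _ _ _ _ (D.U_ne _) (D.A_ne _) (D.B_ne _) (D.C_ne _) p.2.1)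
    (fun p => l p.1.1 * m p.1.1) p0 ?_ ?_
  · have : ∀ᶠ w in nhds p0.1.1, l w * m w ≠ 0 :=
      Filter.mem_of_superset hball fun w hw => mul_ne_zero (hlm w hw).1 (hlm w hw).2
    exact hw.continuousAt.eventually this
  · have cU : ContinuousAt (fun p : E0 => l p.1.1 • D.U p.1.1) p0 :=
      ContinuousAt.comp (f := fun p : E0 => p.1.1) (g := fun w => l w • D.U w)
        ((hU.continuousOn.continuousAt hball)) hw.continuousAt
    have cA : ContinuousAt (fun p : E0 => m p.1.1 • D.A p.1.1) p0 :=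
      ContinuousAt.comp (f := fun p : E0 => p.1.1) (g := fun w => m w • D.A w)
        ((hA.continuousOn.continuousAt hball)) hw.continuousAt
    have cB : ContinuousAt (fun p : E0 => m p.1.1 • D.B p.1.1) p0 :=
      ContinuousAt.comp (f := fun p : E0 => p.1.1) (g := fun w => m w • D.B w)
        ((hB.continuousOn.continuousAt hball)) hw.continuousAt
    have cC : ContinuousAt (fun p : E0 => m p.1.1 • D.C p.1.1) p0 :=
      ContinuousAt.comp (f := fun p : E0 => p.1.1) (g := fun w => m w • D.C w)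
        ((hC.continuousOn.continuousAt hball)) hw.continuousAt
    have cv : ∀ i : Fin 3, ContinuousAt (fun p : E0 => p.1.2.2 i) p0 := fun i =>
      Continuous.continuousAt (by fun_prop)
    rw [continuousAt_pi]
    rintro ⟨i, q⟩
    have cUi := (continuousAt_pi.1 cU) i
    rcases q with a | b | b
    · refine (cUi.mul ((cv 2).mul ((continuousAt_pi.1 cA) a))).congr
        (Filter.Eventually.of_forall fun p => ?_)
      simp only [Phi, Pi.smul_apply, Pi.mul_apply, smul_eq_mul, Sum.elim_inl]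
      ring
    · refine (cUi.mul ((cv 0).mul ((continuousAt_pi.1 cB) b))).congr
        (Filter.Eventually.of_forall fun p => ?_)
      simp only [Phi, Pi.smul_apply, Pi.mul_apply, smul_eq_mul, Sum.elim_inl, Sum.elim_inr]
      ring
    · refine (cUi.mul ((cv 1).mul ((continuousAt_pi.1 cC) b))).congr
        (Filter.Eventually.of_forall fun p => ?_)
      simp only [Phi, Pi.smul_apply, Pi.mul_apply, smul_eq_mul, Sum.elim_inr]
      ring

theorem g4c_inj (D : EData) (p p' : E0) (h : g4c_jt D p = g4c_jt D p') : qK p = qK p' := by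
  obtain ⟨⟨w, t, v⟩, hv, hW⟩ := p
  obtain ⟨⟨w', t', v'⟩, hv', hW'⟩ := p'
  dsimp only at hv hW hv' hW'
  have h1 := congrArg Prod.fst h
  have h2 := congrArg Prod.snd h
  change t = t' at h1
  change Projectivization.mk ℂ _ _ = Projectivization.mk ℂ _ _ at h2
  rw [Projectivization.mk_eq_mk_iff'] at h2
  obtain ⟨c, hc⟩ := h2
  dsimp only at hc
  have hne := Phi_ne _ _ _ _ _ (D.U_ne w) (D.A_ne w) (D.B_ne w) (D.C_ne w) hv
  have hcoord : ∀ q : Idx, c * Phi (D.U w') (D.A w') (D.B w') (D.C w') v' q =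
      Phi (D.U w) (D.A w) (D.B w) (D.C w) v q := fun q => congrFun hc q
  have hc0 : c ≠ 0 := by
    rintro rfl
    apply hne
    rw [← hc, zero_smul]
  obtain ⟨⟨i0, x0⟩, hq⟩ := Function.ne_iff.mp hne
  set W : (Fin 3 ⊕ (Fin 2 ⊕ Fin 2)) → ℂ := Sum.elim (fun i => v 2 * D.A w i)
    (Sum.elim (fun i => v 0 * D.B w i) (fun i => v 1 * D.C w i)) with hWdef
  set W' : (Fin 3 ⊕ (Fin 2 ⊕ Fin 2)) → ℂ := Sum.elim (fun i => v' 2 * D.A w' i)
    (Sum.elim (fun i => v' 0 * D.B w' i) (fun i => v' 1 * D.C w' i)) with hW'def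
  have hcoord' : ∀ i x, c * (D.U w' i * W' x) = D.U w i * W x := fun i x => hcoord (i, x)
  have hx0 : W x0 ≠ 0 := by
    intro h0
    apply hq
    change D.U w i0 * W x0 = 0
    rw [h0, mul_zero]
  have hUU : D.U w = (c * W' x0 / W x0) • D.U w' := by
    funext i
    have := hcoord' i x0
    simp only [Pi.smul_apply, smul_eq_mul]
    field_simp
    linear_combination -this
  obtain ⟨m, n, hw⟩ := D.sep w w' _ hUU
  have hU := g4c_perU D w' m n
  have hA := g4c_perA D w' m n
  have hB := g4c_perB D w' m n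
  have hC := g4c_perC D w' m n
  rw [← hw] at hU hA hB hC
  obtain ⟨i1, hi1⟩ := Function.ne_iff.mp (D.U_ne w')
  have hi1' : D.U w' i1 ≠ 0 := hi1
  have hWW : ∀ x, W x = c * W' x := by
    intro x
    have := hcoord' i1 x
    rw [hU] at this
    have h3 : D.U w' i1 * (W x - c * W' x) = 0 := by linear_combination -this
    have h4 := (mul_eq_zero.1 h3).resolve_left hi1'
    linear_combination h4
  obtain ⟨a, ha⟩ := Function.ne_iff.mp (D.A_ne w)
  obtain ⟨b, hb⟩ := Function.ne_iff.mp (D.B_ne w)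
  obtain ⟨e, he⟩ := Function.ne_iff.mp (D.C_ne w)
  have ha' : D.A w a ≠ 0 := ha
  have hb' : D.B w b ≠ 0 := hb
  have he' : D.C w e ≠ 0 := he
  have e2 : v 2 = c * v' 2 := by
    have h3 := hWW (Sum.inl a)
    simp only [hWdef, hW'def, Sum.elim_inl, ← hA] at h3
    have h4 : D.A w a * (v 2 - c * v' 2) = 0 := by linear_combination h3
    linear_combination (mul_eq_zero.1 h4).resolve_left ha'
  have e0 : v 0 = c * (zeta ^ (2 * m) * v' 0) := by
    have h3 := hWW (Sum.inr (Sum.inl b))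
    simp only [hWdef, hW'def, Sum.elim_inl, Sum.elim_inr, ← hB, Pi.smul_apply, smul_eq_mul] at h3
    have h4 : D.B w b * (v 0 - c * (zeta ^ (2 * m) * v' 0)) = 0 := by linear_combination h3
    linear_combination (mul_eq_zero.1 h4).resolve_left hb'
  have e1 : v 1 = c * (zeta ^ (3 * m) * v' 1) := by
    have h3 := hWW (Sum.inr (Sum.inr e))
    simp only [hWdef, hW'def, Sum.elim_inr, ← hC, Pi.smul_apply, smul_eq_mul] at h3
    have h4 : D.C w e * (v 1 - c * (zeta ^ (3 * m) * v' 1)) = 0 := by linear_combination h3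
    linear_combination (mul_eq_zero.1 h4).resolve_left he'
  symm
  change eK w' t' v' hv' hW' = eK w t v hv hW
  rw [eK_eq_iff]
  refine ⟨h1.symm, m, n, c, hw, ?_⟩
  funext i
  fin_cases i
  · simpa using e0
  · simpa using e1
  · simpa using e2

/-- TO PROVE -/
theorem exists_emb (D : EData) : ∃ j : KK → ℂ × ℙ ℂ (Idx → ℂ), Continuous j ∧
    Function.Injective j ∧ (∀ k, (j k).1 = fK k) ∧ IsEmb D j := by
  classical
  let j : KK → ℂ × ℙ ℂ (Idx → ℂ) := fun k => g4c_jt D (Function.surjInv surjective_qK k)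
  have hj : ∀ p, j (qK p) = g4c_jt D p := fun p =>
    g4c_wd D _ _ (Function.surjInv_eq surjective_qK (qK p))
  refine ⟨j, ?_, ?_, ?_, ?_⟩
  · rw [isQuotientMap_qK.continuous_iff]
    have : j ∘ qK = g4c_jt D := funext hj
    rw [this]
    exact g4c_cont D
  · intro k k' h
    obtain ⟨p, rfl⟩ := surjective_qK k
    obtain ⟨p', rfl⟩ := surjective_qK k'
    rw [hj, hj] at h
    exact g4c_inj D p p' h
  · intro k
    obtain ⟨p, rfl⟩ := surjective_qK k
    rw [hj]
    exact (fK_eK p.1.1 p.1.2.1 p.1.2.2 p.2.1 p.2.2).symm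
  · intro w t v hv hW
    exact hj ⟨(w, t, v), hv, hW⟩

end Pool.Agent.Helper922.HB
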