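import Pool.Agent.Helper922.HB.G1

/-! The two charts of the Weierstrass family. -/

open scoped LinearAlgebra.Projectivization Topology

namespace Pool.Agent.Helper922.HB

universe u v



theorem G2_openEmb {X : Type v} {Y : Type u} [TopologicalSpace X] [TopologicalSpace Y] {f : X → Y}
    {g : Y → X} (hf : Continuous f) (hr : IsOpen (Set.range f)) (hg : ContinuousOn g (Set.range f))
    (hgf : ∀ x, g (f x) = x) : Topology.IsOpenEmbedding f := by
  refine Topology.IsOpenEmbedding.of_continuous_injective_isOpenMap hf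
    (Function.LeftInverse.injective hgf) fun U hU => ?_
  have h1 : f '' U = Set.range f ∩ g ⁻¹' U := by
    ext y
    constructor
    · rintro ⟨x, hx, rfl⟩
      exact ⟨⟨x, rfl⟩, by rw [Set.mem_preimage, hgf]; exact hx⟩
    · rintro ⟨⟨x, rfl⟩, hx⟩
      rw [Set.mem_preimage, hgf] at hx
      exact ⟨x, hx, rfl⟩
  rw [h1]
  exact hg.isOpen_inter_preimage hr hU

theorem G2_cont_c1 : Continuous c1 := by
  unfold c1
  refine Continuous.subtype_mk (Continuous.prodMk (by fun_prop) ?_) _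
  refine continuous_mk _ _ ?_
  refine continuous_pi fun i => ?_
  fin_cases i
  · exact continuous_fst
  · exact continuous_snd
  · exact continuous_const

theorem G2_cont_snd : Continuous fun c : CC => c.1.2 := continuous_snd.comp continuous_subtype_val

theorem G2_open (k : Fin 3) : IsOpen {c : CC | c.1.2.rep k ≠ 0} :=
  (isOpen_rep_ne k).preimage G2_cont_snd

theorem G2_ratio (i k : Fin 3) :
    ContinuousOn (fun c : CC => c.1.2.rep i / c.1.2.rep k) {c : CC | c.1.2.rep k ≠ 0} :=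
  (continuousOn_rep_ratio i k).comp G2_cont_snd.continuousOn fun _ hc => hc

theorem G2_mk_eq (P : ℙ ℂ (Fin 3 → ℂ)) (w : Fin 3 → ℂ) (hw : w ≠ 0) (a : ℂ) (h : a • P.rep = w) :
    Projectivization.mk ℂ w hw = P := by
  conv_rhs => rw [← P.mk_rep]
  rw [Projectivization.mk_eq_mk_iff']
  exact ⟨a, h⟩

/-- TO PROVE -/
theorem range_c1 : Set.range c1 = {c : CC | c.1.2.rep 2 ≠ 0} := by
  ext c
  constructor
  · rintro ⟨p, rfl⟩
    exact (rep_ne_iff _ (vec1_ne _ _) 2).2 (by simp)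
  · intro hc
    have hc' : c.1.2.rep 2 ≠ 0 := hc
    have hW : Wei c.1.1 c.1.2.rep := c.2
    refine ⟨(c.1.2.rep 0 / c.1.2.rep 2, c.1.2.rep 1 / c.1.2.rep 2), ?_⟩
    apply Subtype.ext
    refine Prod.ext ?_ ?_
    · show (c.1.2.rep 1 / c.1.2.rep 2) ^ 2 - (c.1.2.rep 0 / c.1.2.rep 2) ^ 3 = c.1.1
      unfold Wei at hW
      field_simp
      linear_combination hW
    · show Projectivization.mk ℂ _ _ = c.1.2
      refine G2_mk_eq _ _ _ (c.1.2.rep 2)⁻¹ ?_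
      funext i
      fin_cases i
      · show (c.1.2.rep 2)⁻¹ * c.1.2.rep 0 = c.1.2.rep 0 / c.1.2.rep 2
        ring
      · show (c.1.2.rep 2)⁻¹ * c.1.2.rep 1 = c.1.2.rep 1 / c.1.2.rep 2
        ring
      · show (c.1.2.rep 2)⁻¹ * c.1.2.rep 2 = 1
        exact inv_mul_cancel₀ hc'

/-- TO PROVE -/
theorem isOpenEmbedding_c1 : Topology.IsOpenEmbedding c1 := by
  refine G2_openEmb (g := fun c : CC => (c.1.2.rep 0 / c.1.2.rep 2, c.1.2.rep 1 / c.1.2.rep 2))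
    G2_cont_c1 ?_ ?_ ?_
  · rw [range_c1]; exact G2_open 2
  · rw [range_c1]; exact (G2_ratio 0 2).prodMk (G2_ratio 1 2)
  · intro p
    refine Prod.ext ?_ ?_
    · show (Projectivization.mk ℂ ![p.1, p.2, 1] (vec1_ne _ _)).rep 0 /
        (Projectivization.mk ℂ ![p.1, p.2, 1] (vec1_ne _ _)).rep 2 = p.1
      rw [rep_ratio]
      simp
    · show (Projectivization.mk ℂ ![p.1, p.2, 1] (vec1_ne _ _)).rep 1 /
        (Projectivization.mk ℂ ![p.1, p.2, 1] (vec1_ne _ _)).rep 2 = p.2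
      rw [rep_ratio]
      simp

/-- the number `τ` -/
noncomputable def G2_tau (c : CC) : ℂ := c.1.1 * (c.1.2.rep 2 / c.1.2.rep 1) ^ 2

/-- the range of the second chart -/
def G2_V : Set CC := {c | c.1.2.rep 1 ≠ 0 ∧ (G2_tau c).re < 1 / 2}

/-- the inverse of the second chart -/
noncomputable def G2_g (c : CC) : ℂ × ℂ :=
  (c.1.2.rep 0 / c.1.2.rep 1 * ((1 - G2_tau c)⁻¹) ^ ((2 : ℂ)⁻¹), c.1.1)

theorem G2_re_lt {q : ℂ} (hq : ‖q‖ < 1) : (q / (1 + q)).re < 1 / 2 := by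
  have h1 : 1 + q ≠ 0 := by
    intro h
    have : q = -1 := by linear_combination h
    rw [this, norm_neg, norm_one] at hq
    exact lt_irrefl _ hq
  have h2 : 0 < Complex.normSq (1 + q) := Complex.normSq_pos.2 h1
  have h3 : Complex.normSq q < 1 := by
    rw [Complex.normSq_eq_norm_sq]
    nlinarith [norm_nonneg q]
  rw [Complex.div_re, ← add_div, div_lt_iff₀ h2]
  rw [Complex.normSq_apply] at h3 ⊢
  simp only [Complex.add_re, Complex.one_re, Complex.add_im, Complex.one_im]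
  nlinarith

theorem G2_norm_lt {τ : ℂ} (hτ : τ.re < 1 / 2) : ‖τ / (1 - τ)‖ < 1 := by
  have h1 : 1 - τ ≠ 0 := by
    intro h
    have : τ = 1 := by linear_combination -h
    rw [this] at hτ
    norm_num at hτ
  rw [norm_div, div_lt_one (norm_pos_iff.2 h1)]
  rw [Complex.norm_def, Complex.norm_def]
  apply Real.sqrt_lt_sqrt (Complex.normSq_nonneg _)
  rw [Complex.normSq_apply, Complex.normSq_apply]
  simp only [Complex.sub_re, Complex.one_re, Complex.sub_im, Complex.one_im]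
  nlinarith

theorem G2_one_sub_ne {τ : ℂ} (hτ : τ.re < 1 / 2) : 1 - τ ≠ 0 := by
  intro h
  have : τ = 1 := by linear_combination -h
  rw [this] at hτ
  norm_num at hτ

theorem G2_c2_V (p : W2) : c2 p ∈ G2_V := by
  have hr := rt_ne p.1.1 p.1.2 p.2
  refine ⟨(rep_ne_iff _ (vec2_ne _ _ p.2) 1).2 (by simpa using hr), ?_⟩
  have h1 : G2_tau (c2 p) = p.1.2 * p.1.1 ^ 6 / (1 + p.1.2 * p.1.1 ^ 6) := by
    show p.1.2 * ((Projectivization.mk ℂ ![p.1.1, rt p.1.1 p.1.2, p.1.1 ^ 3] (vec2_ne _ _ p.2)).rep 2 /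
      (Projectivization.mk ℂ ![p.1.1, rt p.1.1 p.1.2, p.1.1 ^ 3] (vec2_ne _ _ p.2)).rep 1) ^ 2 = _
    rw [rep_ratio, ← rt_sq]
    simp only [Matrix.cons_val_one, Matrix.cons_val]
    field_simp
  rw [h1]
  apply G2_re_lt
  rw [norm_mul, norm_pow]
  exact p.2

theorem G2_g_c2 (p : W2) : G2_g (c2 p) = p.1 := by
  have hr := rt_ne p.1.1 p.1.2 p.2
  have h1 : G2_tau (c2 p) = p.1.2 * p.1.1 ^ 6 / (1 + p.1.2 * p.1.1 ^ 6) := by
    show p.1.2 * ((Projectivization.mk ℂ ![p.1.1, rt p.1.1 p.1.2, p.1.1 ^ 3] (vec2_ne _ _ p.2)).rep 2 /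
      (Projectivization.mk ℂ ![p.1.1, rt p.1.1 p.1.2, p.1.1 ^ 3] (vec2_ne _ _ p.2)).rep 1) ^ 2 = _
    rw [rep_ratio, ← rt_sq]
    simp only [Matrix.cons_val_one, Matrix.cons_val]
    field_simp
  have hq : 1 + p.1.2 * p.1.1 ^ 6 ≠ 0 := by
    rw [← rt_sq]; exact pow_ne_zero _ hr
  have h2 : (1 - G2_tau (c2 p))⁻¹ = 1 + p.1.2 * p.1.1 ^ 6 := by
    rw [h1]
    field_simp
    ring
  have h3 : (Projectivization.mk ℂ ![p.1.1, rt p.1.1 p.1.2, p.1.1 ^ 3] (vec2_ne _ _ p.2)).rep 0 /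
      (Projectivization.mk ℂ ![p.1.1, rt p.1.1 p.1.2, p.1.1 ^ 3] (vec2_ne _ _ p.2)).rep 1 =
      p.1.1 / rt p.1.1 p.1.2 := by
    rw [rep_ratio]
    simp
  refine Prod.ext ?_ rfl
  unfold G2_g
  rw [h2]
  show (Projectivization.mk ℂ ![p.1.1, rt p.1.1 p.1.2, p.1.1 ^ 3] (vec2_ne _ _ p.2)).rep 0 /
      (Projectivization.mk ℂ ![p.1.1, rt p.1.1 p.1.2, p.1.1 ^ 3] (vec2_ne _ _ p.2)).rep 1 *
      rt p.1.1 p.1.2 = p.1.1
  rw [h3, div_mul_cancel₀ _ hr]

theorem G2_exists (c : CC) (hc : c ∈ G2_V) : ∃ p : W2, c2 p = c := by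
  obtain ⟨h1, hτ⟩ := hc
  have hW : Wei c.1.1 c.1.2.rep := c.2
  unfold Wei at hW
  have hτn := G2_one_sub_ne hτ
  obtain ⟨ρ, hρ⟩ : ∃ ρ : ℂ, ρ = ((1 - G2_tau c)⁻¹) ^ ((2 : ℂ)⁻¹) := ⟨_, rfl⟩
  have hρ2 : ρ ^ 2 = (1 - G2_tau c)⁻¹ := by
    rw [hρ]
    have := Complex.cpow_nat_inv_pow ((1 - G2_tau c)⁻¹) (n := 2) (by norm_num)
    exact_mod_cast this
  obtain ⟨ξ, hξ⟩ : ∃ ξ : ℂ, ξ = c.1.2.rep 0 / c.1.2.rep 1 := ⟨_, rfl⟩
  obtain ⟨ζ, hζ⟩ : ∃ ζ : ℂ, ζ = c.1.2.rep 2 / c.1.2.rep 1 := ⟨_, rfl⟩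
  have hτζ : G2_tau c = c.1.1 * ζ ^ 2 := by rw [hζ]; rfl
  have hξ3 : ξ ^ 3 = ζ * (1 - G2_tau c) := by
    rw [hτζ, hξ, hζ]
    field_simp
    linear_combination -hW
  have hρ2' : ρ ^ 2 * (1 - G2_tau c) = 1 := by
    rw [hρ2]; exact inv_mul_cancel₀ hτn
  have hq : c.1.1 * (ξ * ρ) ^ 6 = G2_tau c / (1 - G2_tau c) := by
    rw [eq_div_iff hτn]
    have e1 : c.1.1 * (ξ * ρ) ^ 6 * (1 - G2_tau c) =
        c.1.1 * (ξ ^ 3) ^ 2 * (ρ ^ 2) ^ 3 * (1 - G2_tau c) := by ring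
    rw [e1, hξ3]
    have e2 : c.1.1 * (ζ * (1 - G2_tau c)) ^ 2 * (ρ ^ 2) ^ 3 * (1 - G2_tau c) =
        c.1.1 * ζ ^ 2 * (ρ ^ 2 * (1 - G2_tau c)) ^ 3 := by ring
    rw [e2, hρ2', ← hτζ, one_pow, mul_one]
  have hmem : ‖c.1.1‖ * ‖ξ * ρ‖ ^ 6 < 1 := by
    rw [← norm_pow, ← norm_mul, hq]
    exact G2_norm_lt hτ
  have hrt : rt (ξ * ρ) c.1.1 = ρ := by
    have e1 : 1 + c.1.1 * (ξ * ρ) ^ 6 = (1 - G2_tau c)⁻¹ := by
      rw [hq]
      field_simp
      ring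
    unfold rt
    rw [e1, hρ]
  refine ⟨⟨(ξ * ρ, c.1.1), hmem⟩, ?_⟩
  apply Subtype.ext
  refine Prod.ext rfl ?_
  show Projectivization.mk ℂ _ _ = c.1.2
  refine G2_mk_eq _ _ _ (ρ / c.1.2.rep 1) ?_
  funext i
  fin_cases i
  · show ρ / c.1.2.rep 1 * c.1.2.rep 0 = ξ * ρ
    rw [hξ]; ring
  · show ρ / c.1.2.rep 1 * c.1.2.rep 1 = rt (ξ * ρ) c.1.1
    rw [hrt, div_mul_cancel₀ _ h1]
  · show ρ / c.1.2.rep 1 * c.1.2.rep 2 = (ξ * ρ) ^ 3
    have e1 : (ξ * ρ) ^ 3 = ξ ^ 3 * ρ ^ 2 * ρ := by ring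
    rw [e1, hξ3]
    have e2 : ζ * (1 - G2_tau c) * ρ ^ 2 * ρ = ζ * (ρ ^ 2 * (1 - G2_tau c)) * ρ := by ring
    rw [e2, hρ2', hζ]
    ring

theorem G2_range_c2 : Set.range c2 = G2_V := by
  ext c
  constructor
  · rintro ⟨p, rfl⟩; exact G2_c2_V p
  · intro hc
    exact G2_exists c hc

theorem G2_cont_tau : ContinuousOn G2_tau {c : CC | c.1.2.rep 1 ≠ 0} := by
  unfold G2_tau
  exact (continuous_fst.comp continuous_subtype_val).continuousOn.mul ((G2_ratio 2 1).pow 2)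

theorem G2_open_V : IsOpen G2_V := by
  have h1 : G2_V = {c : CC | c.1.2.rep 1 ≠ 0} ∩ G2_tau ⁻¹' {τ : ℂ | τ.re < 1 / 2} := rfl
  rw [h1]
  exact G2_cont_tau.isOpen_inter_preimage (G2_open 1)
    (isOpen_lt Complex.continuous_re continuous_const)

theorem G2_cont_c2 : Continuous c2 := by
  unfold c2
  refine Continuous.subtype_mk (Continuous.prodMk (by fun_prop) ?_) _
  have hc1 : Continuous fun p : W2 => p.1.1 := by fun_prop
  have hc2 : Continuous fun p : W2 => p.1.2 := by fun_prop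
  refine continuous_mk (fun p : W2 => ![p.1.1, rt p.1.1 p.1.2, p.1.1 ^ 3]) _ ?_
  refine continuous_pi fun i => ?_
  fin_cases i
  · exact hc1
  · show Continuous fun p : W2 => (1 + p.1.2 * p.1.1 ^ 6) ^ ((2 : ℂ)⁻¹)
    rw [continuous_iff_continuousAt]
    intro p
    refine ContinuousAt.cpow (continuous_const.add (hc2.mul (hc1.pow 6))).continuousAt
      continuousAt_const ?_
    rw [Complex.mem_slitPlane_iff]
    left
    have h1 : ‖p.1.2 * p.1.1 ^ 6‖ < 1 := by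
      rw [norm_mul, norm_pow]; exact p.2
    have h2 := Complex.abs_re_le_norm (p.1.2 * p.1.1 ^ 6)
    have h3 := (abs_le.1 (h2.trans h1.le)).1
    have h4 := neg_abs_le (p.1.2 * p.1.1 ^ 6).re
    rw [Complex.add_re, Complex.one_re]
    linarith
  · exact hc1.pow 3

/-- TO PROVE -/
theorem isOpenEmbedding_c2 : Topology.IsOpenEmbedding c2 := by
  have hV := G2_range_c2
  have hcont : ContinuousOn G2_g G2_V := by
    unfold G2_g
    refine ContinuousOn.prodMk ?_ (continuous_fst.comp continuous_subtype_val).continuousOn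
    refine ((G2_ratio 0 1).mono fun c hc => hc.1).mul ?_
    have h1 : ContinuousOn (fun c : CC => (1 - G2_tau c)⁻¹) G2_V :=
      (continuousOn_const.sub (G2_cont_tau.mono fun c hc => hc.1)).inv₀
        fun c hc => G2_one_sub_ne hc.2
    refine ContinuousOn.cpow h1 continuousOn_const fun c hc => ?_
    rw [Complex.mem_slitPlane_iff]
    left
    rw [Complex.inv_re]
    have h2 : 0 < Complex.normSq (1 - G2_tau c) := Complex.normSq_pos.2 (G2_one_sub_ne hc.2)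
    apply div_pos _ h2
    rw [Complex.sub_re, Complex.one_re]
    have := hc.2
    linarith
  refine Topology.IsOpenEmbedding.of_continuous_injective_isOpenMap G2_cont_c2 ?_ fun U hU => ?_
  · intro p p' h
    have := congrArg G2_g h
    rw [G2_g_c2, G2_g_c2] at this
    exact Subtype.ext this
  · have hWo : IsOpen W2 := by
      unfold W2
      exact isOpen_lt (by fun_prop) continuous_const
    have hUo : IsOpen (Subtype.val '' U : Set (ℂ × ℂ)) := hWo.isOpenMap_subtype_val U hU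
    have h1 : c2 '' U = G2_V ∩ G2_g ⁻¹' (Subtype.val '' U) := by
      ext y
      constructor
      · rintro ⟨x, hx, rfl⟩
        exact ⟨G2_c2_V x, by rw [Set.mem_preimage, G2_g_c2]; exact ⟨x, hx, rfl⟩⟩
      · rintro ⟨hy, hx⟩
        obtain ⟨x, rfl⟩ := G2_exists y hy
        rw [Set.mem_preimage, G2_g_c2] at hx
        obtain ⟨x', hx', he⟩ := hx
        have : x' = x := Subtype.ext he
        exact ⟨x, this ▸ hx', rfl⟩
    rw [h1]
    exact hcont.isOpen_inter_preimage G2_open_V hUo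

/-- TO PROVE -/
theorem mem_range_or (c : CC) : c ∈ Set.range c1 ∨ c ∈ Set.range c2 := by
  by_cases h : c.1.2.rep 2 ≠ 0
  · left
    rw [range_c1]
    exact h
  · right
    rw [not_not] at h
    rw [G2_range_c2]
    have hW : Wei c.1.1 c.1.2.rep := c.2
    unfold Wei at hW
    rw [h] at hW
    have h0 : c.1.2.rep 0 = 0 := by
      have : c.1.2.rep 0 ^ 3 = 0 := by linear_combination -hW
      exact pow_eq_zero_iff (by norm_num) |>.1 this
    have h1 : c.1.2.rep 1 ≠ 0 := by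
      intro h1
      apply c.1.2.rep_nonzero
      funext i
      fin_cases i
      · exact h0
      · exact h1
      · exact h
    refine ⟨h1, ?_⟩
    unfold G2_tau
    rw [h]
    norm_num

/-- TO PROVE -/
theorem c2_mem_range_c1 (p : W2) : c2 p ∈ Set.range c1 ↔ p.1.1 ≠ 0 := by
  rw [range_c1]
  show (Projectivization.mk ℂ ![p.1.1, rt p.1.1 p.1.2, p.1.1 ^ 3] (vec2_ne _ _ p.2)).rep 2 ≠ 0 ↔ _
  rw [rep_ne_iff]
  simp

/-- TO PROVE -/
theorem isClosed_CC : IsClosed CC := by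
  rw [← isOpen_compl_iff]
  have hc2 : Continuous fun c : ℂ × ℙ ℂ (Fin 3 → ℂ) => c.2 := continuous_snd
  have hopen : ∀ k : Fin 3, IsOpen {c : ℂ × ℙ ℂ (Fin 3 → ℂ) | c.2.rep k ≠ 0} := fun k =>
    (isOpen_rep_ne k).preimage hc2
  have hratio : ∀ i k : Fin 3, ContinuousOn (fun c : ℂ × ℙ ℂ (Fin 3 → ℂ) => c.2.rep i / c.2.rep k)
      {c : ℂ × ℙ ℂ (Fin 3 → ℂ) | c.2.rep k ≠ 0} := fun i k =>
    (continuousOn_rep_ratio i k).comp hc2.continuousOn fun _ hc => hc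
  have hunion : CCᶜ = ⋃ k : Fin 3, ({c : ℂ × ℙ ℂ (Fin 3 → ℂ) | c.2.rep k ≠ 0} ∩
      (fun c : ℂ × ℙ ℂ (Fin 3 → ℂ) => (c.2.rep 1 / c.2.rep k) ^ 2 * (c.2.rep 2 / c.2.rep k) -
        (c.2.rep 0 / c.2.rep k) ^ 3 - c.1 * (c.2.rep 2 / c.2.rep k) ^ 3) ⁻¹' {0}ᶜ) := by
    ext c
    rw [Set.mem_iUnion]
    have hiff : ∀ k : Fin 3, c.2.rep k ≠ 0 → ((c.2.rep 1 / c.2.rep k) ^ 2 * (c.2.rep 2 / c.2.rep k) -
        (c.2.rep 0 / c.2.rep k) ^ 3 - c.1 * (c.2.rep 2 / c.2.rep k) ^ 3 = 0 ↔ c ∈ CC) := by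
      intro k hk
      have h2 : (c.2.rep 1 / c.2.rep k) ^ 2 * (c.2.rep 2 / c.2.rep k) -
        (c.2.rep 0 / c.2.rep k) ^ 3 - c.1 * (c.2.rep 2 / c.2.rep k) ^ 3 =
        (c.2.rep 1 ^ 2 * c.2.rep 2 - c.2.rep 0 ^ 3 - c.1 * c.2.rep 2 ^ 3) / c.2.rep k ^ 3 := by
        field_simp
      rw [h2, div_eq_zero_iff]
      constructor
      · rintro (h | h)
        · show Wei c.1 c.2.rep
          unfold Wei
          linear_combination h
        · exact absurd h (pow_ne_zero _ hk)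
      · intro h
        left
        have h' : Wei c.1 c.2.rep := h
        unfold Wei at h'
        linear_combination h'
    constructor
    · intro hc
      obtain ⟨k, hk⟩ := Function.ne_iff.1 c.2.rep_nonzero
      exact ⟨k, hk, fun h => hc ((hiff k hk).1 h)⟩
    · rintro ⟨k, hk, hne⟩ hc
      exact hne ((hiff k hk).2 hc)
  rw [hunion]
  refine isOpen_iUnion fun k => ?_
  refine ContinuousOn.isOpen_inter_preimage ?_ (hopen k) isOpen_compl_singleton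
  exact ((((hratio 1 k).pow 2).mul (hratio 2 k)).sub ((hratio 0 k).pow 3)).sub
    (continuous_fst.continuousOn.mul ((hratio 2 k).pow 3))

end Pool.Agent.Helper922.HB
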