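import Pool.Agent.Helper922.HB.EmbDefs
import Pool.Agent.Helper922.HB.G2

/-! The embedding is closed. -/

open scoped LinearAlgebra.Projectivization Topology

namespace Pool.Agent.Helper922.HB

universe u v



/-- TO PROVE -/
theorem isClosedEmbedding_of (j : KK → ℂ × ℙ ℂ (Idx → ℂ)) (hc : Continuous j)
    (hi : Function.Injective j) (hf : ∀ k, (j k).1 = fK k) : Topology.IsClosedEmbedding j := by
  have i1 : T2Space (ℙ ℂ (Idx → ℂ)) := t2_proj
  have i2 : CompactSpace (ℙ ℂ (Idx → ℂ)) := compact_proj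
  have i3 : CompactSpace (ℙ ℂ (Fin 3 → ℂ)) := compact_proj
  have hprop : IsProperMap j := by
    rw [isProperMap_iff_isCompact_preimage]
    refine ⟨hc, fun K hK => ?_⟩
    obtain ⟨R, hR⟩ := (hK.image continuous_fst).isBounded.subset_closedBall (0 : ℂ)
    have hCC : Topology.IsClosedEmbedding (Subtype.val : CC → ℂ × ℙ ℂ (Fin 3 → ℂ)) :=
      isClosed_CC.isClosedEmbedding_subtypeVal
    have hcomp : IsCompact ((Subtype.val : CC → ℂ × ℙ ℂ (Fin 3 → ℂ)) ⁻¹'
        (Metric.closedBall (0 : ℂ) R ×ˢ (Set.univ : Set (ℙ ℂ (Fin 3 → ℂ))))) :=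
      hCC.isCompact_preimage ((isCompact_closedBall _ _).prod isCompact_univ)
    have hbig : IsCompact ((Set.univ : Set Circle) ×ˢ ((Set.univ : Set Circle) ×ˢ
        ((Subtype.val : CC → ℂ × ℙ ℂ (Fin 3 → ℂ)) ⁻¹'
        (Metric.closedBall (0 : ℂ) R ×ˢ (Set.univ : Set (ℙ ℂ (Fin 3 → ℂ))))))) :=
      isCompact_univ.prod (isCompact_univ.prod hcomp)
    refine hbig.of_isClosed_subset (hK.isClosed.preimage hc) ?_
    intro k hk
    refine ⟨Set.mem_univ _, Set.mem_univ _, ?_, Set.mem_univ _⟩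
    have h1 : (j k).1 ∈ Metric.closedBall (0 : ℂ) R := hR ⟨j k, hk, rfl⟩
    rw [hf, mem_closedBall_zero_iff, fK, norm_mul, Circle.norm_coe, one_mul] at h1
    rw [mem_closedBall_zero_iff]
    exact h1
  exact Topology.IsClosedEmbedding.of_continuous_injective_isClosedMap hc hi hprop.isClosedMap

theorem pcKK_cont_mk {A : Type*} [TopologicalSpace A] (f : A → Fin 3 → ℂ) (hf : Continuous f)
    (h0 : ∀ a, f a ≠ 0) : Continuous (fun a => (Projectivization.mk ℂ (f a) (h0 a))) := by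
  have h1 : Continuous (Projectivization.mk' ℂ : {v : Fin 3 → ℂ // v ≠ 0} → ℙ ℂ (Fin 3 → ℂ)) :=
    continuous_coinduced_rng
  exact h1.comp (hf.subtype_mk h0)

theorem pcKK_c1 : Continuous c1 := by
  refine Continuous.subtype_mk ?_ _
  refine Continuous.prodMk (by fun_prop) ?_
  exact pcKK_cont_mk (fun p : ℂ × ℂ => ![p.1, p.2, 1]) (by fun_prop) _

theorem pcKK_g_ne (s : ℂ) : (![s, 1, s ^ 3] : Fin 3 → ℂ) ≠ 0 := by
  intro h
  have := congrFun h 1
  simp at this

theorem pcKK_g_wei (s : ℂ) : Wei 0 ![s, 1, s ^ 3] := by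
  simp [Wei]

noncomputable def pcKKg (s : ℂ) : CC :=
  ⟨(0, Projectivization.mk ℂ ![s, 1, s ^ 3] (pcKK_g_ne s)), (mem_CC _ _ _).mpr (pcKK_g_wei s)⟩

theorem pcKK_h_ne : (![0, 1, 0] : Fin 3 → ℂ) ≠ 0 := by
  intro h
  have := congrFun h 1
  simp at this

theorem pcKK_h_wei (t : ℂ) : Wei t ![0, 1, 0] := by
  simp [Wei]

noncomputable def pcKKh (t : ℂ) : CC :=
  ⟨(t, Projectivization.mk ℂ ![0, 1, 0] pcKK_h_ne), (mem_CC _ _ _).mpr (pcKK_h_wei t)⟩

theorem pcKK_g_cont : Continuous pcKKg := by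
  refine Continuous.subtype_mk ?_ _
  refine Continuous.prodMk continuous_const ?_
  exact pcKK_cont_mk (fun s : ℂ => ![s, 1, s ^ 3]) (by fun_prop) _

theorem pcKK_h_cont : Continuous pcKKh := by
  refine Continuous.subtype_mk ?_ _
  exact Continuous.prodMk continuous_id continuous_const

theorem pcKK_cases (c : CC) : (∃ p, c = c1 p) ∨ ∃ t, c = pcKKh t := by
  obtain ⟨⟨t, P⟩, hc⟩ := c
  obtain ⟨v, hne, hP, hW⟩ : ∃ (v : Fin 3 → ℂ) (hne : v ≠ 0),
      Projectivization.mk ℂ v hne = P ∧ Wei t v := ⟨P.rep, P.rep_nonzero, P.mk_rep, hc⟩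
  by_cases h2 : v 2 = 0
  · right
    refine ⟨t, Subtype.ext (Prod.ext rfl ?_)⟩
    have h0 : v 0 = 0 := by
      unfold Wei at hW
      rw [h2] at hW
      have : v 0 ^ 3 = 0 := by linear_combination -hW
      exact pow_eq_zero_iff (by norm_num) |>.1 this
    show P = Projectivization.mk ℂ ![0, 1, 0] pcKK_h_ne
    rw [← hP, Projectivization.mk_eq_mk_iff']
    refine ⟨v 1, ?_⟩
    funext i
    fin_cases i
    · simp [h0]
    · simp
    · simp [h2]
  · left
    refine ⟨(v 0 / v 2, v 1 / v 2), Subtype.ext (Prod.ext ?_ ?_)⟩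
    · show t = (v 1 / v 2) ^ 2 - (v 0 / v 2) ^ 3
      unfold Wei at hW
      field_simp
      linear_combination -hW
    · show P = Projectivization.mk ℂ ![v 0 / v 2, v 1 / v 2, 1] (vec1_ne _ _)
      rw [← hP, Projectivization.mk_eq_mk_iff']
      refine ⟨v 2, ?_⟩
      funext i
      fin_cases i
      · simp; field_simp
      · simp; field_simp
      · simp

theorem pcKK_CC : PathConnectedSpace CC := by
  have hj : ∀ c : CC, Joined c (c1 (1, 1)) := by
    intro c
    rcases pcKK_cases c with ⟨p, rfl⟩ | ⟨t, rfl⟩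
    · exact (PathConnectedSpace.joined p (1, 1)).map pcKK_c1
    · have h1 : Joined (pcKKh t) (pcKKh 0) := (PathConnectedSpace.joined t 0).map pcKK_h_cont
      have h2 : Joined (pcKKg 0) (pcKKg 1) := (PathConnectedSpace.joined (0 : ℂ) 1).map pcKK_g_cont
      have e1 : pcKKh 0 = pcKKg 0 := by
        refine Subtype.ext (Prod.ext rfl ?_)
        show Projectivization.mk ℂ ![0, 1, 0] _ = Projectivization.mk ℂ ![0, 1, 0 ^ 3] _
        congr 1
        simp
      have e2 : pcKKg 1 = c1 (1, 1) := by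
        refine Subtype.ext (Prod.ext ?_ ?_)
        · show (0 : ℂ) = 1 ^ 2 - 1 ^ 3
          norm_num
        · show Projectivization.mk ℂ ![1, 1, 1 ^ 3] _ = Projectivization.mk ℂ ![1, 1, 1] _
          congr 1
          simp
      rw [e1] at h1
      rw [e2] at h2
      exact h1.trans h2
  exact ⟨⟨c1 (1, 1)⟩, fun x y => (hj x).trans (hj y).symm⟩

/-- TO PROVE -/
theorem pathConnected_KK : PathConnectedSpace KK := by
  have h1 : PathConnectedSpace Circle := by
    have : Function.Surjective Circle.exp := fun z => ⟨Complex.arg z, Circle.exp_arg z⟩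
    exact this.pathConnectedSpace Circle.exp.continuous
  have h2 := pcKK_CC
  infer_instance

end Pool.Agent.Helper922.HB
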