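import Pool.Agent.Helper922.HB.G6a

/-! Holomorphic parametrisations of the embedded threefold. -/

open scoped LinearAlgebra.Projectivization Topology

namespace Pool.Agent.Helper922.HB




theorem param_line {E : Type*} [NormedAddCommGroup E] [NormedSpace ℂ E]
    {F : (Fin 3 → ℂ) → E} {p : Fin 3 → ℂ} (hF : DifferentiableAt ℂ F p) (h : Fin 3 → ℂ) :
    HasDerivAt (fun z : ℂ => F (p + z • h)) (fderiv ℂ F p h) 0 := by
  have hg : HasDerivAt (fun z : ℂ => p + z • h) h 0 := by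
    have := ((hasDerivAt_id (0:ℂ)).smul_const h).const_add p
    simpa using this
  have h1 : HasFDerivAt F (fderiv ℂ F p) ((fun z : ℂ => p + z • h) 0) := by
    simpa using hF.hasFDerivAt
  exact h1.comp_hasDerivAt (0:ℂ) hg

theorem param_coord (p h : Fin 3 → ℂ) (k : Fin 3) :
    HasDerivAt (fun z : ℂ => (p + z • h) k) (h k) 0 := by
  have h1 := param_line (F := fun q : Fin 3 → ℂ => q k) (p := p)
    (differentiableAt_apply k p) h
  have h2 : HasDerivAt (fun z : ℂ => p k + z * h k) (h k) 0 := by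
    have := ((hasDerivAt_id (0:ℂ)).mul_const (h k)).const_add (p k)
    simpa using this
  simpa [Pi.add_apply, Pi.smul_apply, smul_eq_mul] using h2

theorem param_comp {n : ℕ} {F : ℂ → Fin n → ℂ} {S : Set ℂ} (hS : IsOpen S)
    (hF : DifferentiableOn ℂ F S) (p h : Fin 3 → ℂ) (hp : p 0 ∈ S) (i : Fin n) :
    HasDerivAt (fun z : ℂ => F ((p + z • h) 0) i) (deriv F (p 0) i * h 0) 0 := by
  have h1 : DifferentiableAt ℂ F (p 0) := hF.differentiableAt (hS.mem_nhds hp)
  have h2 : HasDerivAt F (deriv F (p 0)) (p 0) := h1.hasDerivAt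
  have h3 : HasDerivAt (fun w => F w i) (deriv F (p 0) i) (p 0) := hasDerivAt_pi.mp h2 i
  have h4 := param_coord p h 0
  have h5 : HasDerivAt (fun w => F w i) (deriv F (p 0) i) ((fun z : ℂ => (p + z • h) 0) 0) := by
    simpa using h3
  exact h5.comp (0:ℂ) h4

theorem param_gen (D : EData) (j : KK → ℂ × ℙ ℂ (Idx → ℂ)) (hj : IsEmb D j)
    (hc : Topology.IsClosedEmbedding j) (S : Set ℂ) (hS : IsOpen S) (l m : ℂ → ℂ)
    (hlm : ∀ w ∈ S, l w ≠ 0 ∧ m w ≠ 0)
    (hU : DifferentiableOn ℂ (fun w => l w • D.U w) S)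
    (hA : DifferentiableOn ℂ (fun w => m w • D.A w) S)
    (hB : DifferentiableOn ℂ (fun w => m w • D.B w) S)
    (hC : DifferentiableOn ℂ (fun w => m w • D.C w) S)
    (hL : ∀ w ∈ S, ∀ c : ℂ, deriv (fun w => l w • D.U w) w ≠ c • (l w • D.U w))
    (O : Set (Fin 3 → ℂ)) (hO : IsOpen O) (hOS : ∀ p ∈ O, p 0 ∈ S)
    (a : (Fin 3 → ℂ) → ℂ) (v : (Fin 3 → ℂ) → Fin 3 → ℂ)
    (ha : DifferentiableOn ℂ a O) (hv : DifferentiableOn ℂ v O)
    (hne : ∀ p ∈ O, v p ≠ 0) (hW : ∀ p ∈ O, Wei (a p) (v p))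
    (hemb : Topology.IsOpenEmbedding (fun p : O =>
      eK (p.1 0) (a p.1) (v p.1) (hne p.1 p.2) (hW p.1 p.2)))
    (himm : ∀ p ∈ O, ∀ h : Fin 3 → ℂ, h 0 = 0 →
      HasDerivAt (fun z : ℂ => a (p + z • h)) 0 0 →
      ∀ c : ℂ, (∀ k, HasDerivAt (fun z : ℂ => v (p + z • h) k) (c * v p k) 0) → h = 0) :
    ∃ P : LocalParam 3 (Set.range j), P.a = a ∧ P.V = O ∧
      ∀ p (hp : p ∈ P.V) (hp' : p ∈ O),
        P.pt p hp = j (eK (p 0) (a p) (v p) (hne p hp') (hW p hp')) := by
  have hUne : ∀ w ∈ S, l w • D.U w ≠ 0 := fun w hw => smul_ne_zero (hlm w hw).1 (D.U_ne w)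
  have hAne : ∀ w ∈ S, m w • D.A w ≠ 0 := fun w hw => smul_ne_zero (hlm w hw).2 (D.A_ne w)
  have hBne : ∀ w ∈ S, m w • D.B w ≠ 0 := fun w hw => smul_ne_zero (hlm w hw).2 (D.B_ne w)
  have hCne : ∀ w ∈ S, m w • D.C w ≠ 0 := fun w hw => smul_ne_zero (hlm w hw).2 (D.C_ne w)
  obtain ⟨φ, hφ⟩ : ∃ φ : (Fin 3 → ℂ) → (Idx → ℂ), φ = fun p =>
      Phi (l (p 0) • D.U (p 0)) (m (p 0) • D.A (p 0)) (m (p 0) • D.B (p 0))
        (m (p 0) • D.C (p 0)) (v p) := ⟨_, rfl⟩
  have hφne : ∀ p ∈ O, φ p ≠ 0 := by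
    intro p hp
    rw [hφ]
    exact Phi_ne _ _ _ _ _ (hUne _ (hOS p hp)) (hAne _ (hOS p hp)) (hBne _ (hOS p hp))
      (hCne _ (hOS p hp)) (hne p hp)
  have hφs : ∀ p, φ p = (l (p 0) * m (p 0)) •
      Phi (D.U (p 0)) (D.A (p 0)) (D.B (p 0)) (D.C (p 0)) (v p) := by
    intro p
    rw [hφ]
    funext ⟨i, X⟩
    rcases X with X | X | X
    · simp only [Phi, Pi.smul_apply, smul_eq_mul, Sum.elim_inl]
      ring
    · simp only [Phi, Pi.smul_apply, smul_eq_mul, Sum.elim_inl, Sum.elim_inr]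
      ring
    · simp only [Phi, Pi.smul_apply, smul_eq_mul, Sum.elim_inr]
      ring
  have hpt : ∀ p (hp : p ∈ O), ((a p, Projectivization.mk ℂ (φ p) (hφne p hp)) :
      ℂ × ℙ ℂ (Idx → ℂ)) = j (eK (p 0) (a p) (v p) (hne p hp) (hW p hp)) := by
    intro p hp
    rw [hj]
    refine Prod.ext rfl ?_
    change Projectivization.mk ℂ (φ p) (hφne p hp) = _
    rw [Projectivization.mk_eq_mk_iff']
    exact ⟨l (p 0) * m (p 0), (hφs p).symm⟩
  have hc0 : ∀ p ∈ O, ∀ k : Fin 3, DifferentiableAt ℂ (fun p => v p k) p := by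
    intro p hp k
    exact (differentiableAt_pi.mp (hv.differentiableAt (hO.mem_nhds hp))) k
  have hcomp : ∀ (n : ℕ) (F : ℂ → Fin n → ℂ), DifferentiableOn ℂ F S →
      ∀ (p : Fin 3 → ℂ), p ∈ O → ∀ i, DifferentiableAt ℂ (fun p : Fin 3 → ℂ => F (p 0) i) p := by
    intro n F hF p hp i
    have h1 : DifferentiableAt ℂ F (p 0) := hF.differentiableAt (hS.mem_nhds (hOS p hp))
    have h2 : DifferentiableAt ℂ (fun w => F w i) (p 0) := differentiableAt_pi.mp h1 i
    have h3 : DifferentiableAt ℂ (fun q : Fin 3 → ℂ => q 0) p := differentiableAt_apply 0 p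
    exact DifferentiableAt.comp p (f := fun q : Fin 3 → ℂ => q 0) (g := fun w => F w i) h2 h3
  have hφd : ∀ p ∈ O, DifferentiableAt ℂ φ p := by
    intro p hp
    rw [differentiableAt_pi]
    rintro ⟨i, X⟩
    rw [hφ]
    have hu := hcomp 3 _ hU p hp i
    rcases X with X | X | X
    · exact hu.mul ((hc0 p hp 2).mul (hcomp 3 _ hA p hp X))
    · exact hu.mul ((hc0 p hp 0).mul (hcomp 2 _ hB p hp X))
    · exact hu.mul ((hc0 p hp 1).mul (hcomp 2 _ hC p hp X))
  refine ⟨{ V := O, a := a, φ := φ, isOpen_V := hO, holo_a := ha,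
            holo_φ := fun p hp => (hφd p hp).differentiableWithinAt,
            φ_ne := hφne,
            mem := fun p hp => by rw [hpt p hp]; exact ⟨_, rfl⟩,
            openEmbedding := ?_, immersion := ?_ }, rfl, rfl, ?_⟩
  · have h1 := (hc.isEmbedding.toHomeomorph.isOpenEmbedding).comp hemb
    convert h1 using 1
    funext p
    apply Subtype.ext
    exact hpt p.1 p.2
  · intro p hp h hah ⟨c, hch⟩
    have hpS := hOS p hp
    have hφl := param_line (hφd p hp) h
    rw [hch] at hφl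
    have hvl : ∀ k, HasDerivAt (fun z : ℂ => v (p + z • h) k)
        (fderiv ℂ v p h k) 0 := by
      intro k
      exact hasDerivAt_pi.mp (param_line (hv.differentiableAt (hO.mem_nhds hp)) h) k
    have hUl := param_comp hS hU p h hpS
    have hAl := param_comp hS hA p h hpS
    have hBl := param_comp hS hB p h hpS
    have hCl := param_comp hS hC p h hpS
    obtain ⟨U', hU'⟩ : ∃ U' : Fin 3 → ℂ, U' = deriv (fun w => l w • D.U w) (p 0) := ⟨_, rfl⟩
    rw [← hU'] at hUl
    -- the second factor and its derivative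
    obtain ⟨W, hWd⟩ : ∃ W : (Fin 3 → ℂ) → (Fin 3 ⊕ (Fin 2 ⊕ Fin 2)) → ℂ, W = fun q =>
      Sum.elim (fun i => v q 2 * (m (q 0) • D.A (q 0)) i)
        (Sum.elim (fun i => v q 0 * (m (q 0) • D.B (q 0)) i)
          (fun i => v q 1 * (m (q 0) • D.C (q 0)) i)) := ⟨_, rfl⟩
    have hφW : ∀ q i X, φ q (i, X) = (l (q 0) • D.U (q 0)) i * W q X := by
      intro q i X
      rw [hφ, hWd]
      rfl
    have hp0 : p + (0 : ℂ) • h = p := by simp
    have hWl : ∀ X, ∃ W'X, HasDerivAt (fun z : ℂ => W (p + z • h) X) W'X 0 := by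
      intro X
      rw [hWd]
      rcases X with X | X | X
      · exact ⟨_, (hvl 2).mul (hAl X)⟩
      · exact ⟨_, (hvl 0).mul (hBl X)⟩
      · exact ⟨_, (hvl 1).mul (hCl X)⟩
    choose W' hW' using hWl
    have hE : ∀ i X, U' i * h 0 * W p X + (l (p 0) • D.U (p 0)) i * W' X
        = c * ((l (p 0) • D.U (p 0)) i * W p X) := by
      intro i X
      have h1 := (hUl i).mul (hW' X)
      have h2 := hasDerivAt_pi.mp hφl (i, X)
      have h3 : (fun z : ℂ => φ (p + z • h) (i, X)) = fun z =>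
          (l ((p + z • h) 0) • D.U ((p + z • h) 0)) i * W (p + z • h) X := by
        funext z
        exact hφW _ _ _
      rw [h3] at h2
      have h4 := h1.unique h2
      simp only [hp0] at h4
      rw [h4, Pi.smul_apply, smul_eq_mul, hφW]
    obtain ⟨⟨i0, X0⟩, hiX⟩ := Function.ne_iff.mp (hφne p hp)
    rw [hφW, Pi.zero_apply] at hiX
    have hi0 := left_ne_zero_of_mul hiX
    have hX0 := right_ne_zero_of_mul hiX
    have hh0 : h 0 = 0 := by
      by_contra hh
      apply hL (p 0) hpS ((c * W p X0 - W' X0) / (h 0 * W p X0))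
      rw [← hU']
      funext i
      rw [Pi.smul_apply, smul_eq_mul, div_mul_eq_mul_div, eq_div_iff (mul_ne_zero hh hX0)]
      linear_combination hE i X0
    have hE2 : ∀ X, W' X = c * W p X := by
      intro X
      have h1 := hE i0 X
      rw [hh0] at h1
      apply mul_left_cancel₀ hi0
      linear_combination h1
    have hV : ∀ k, fderiv ℂ v p h k = c * v p k := by
      have hA2 : fderiv ℂ v p h 2 = c * v p 2 := by
        obtain ⟨i, hi⟩ := Function.ne_iff.mp (hAne (p 0) hpS)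
        have h1 := (hvl 2).mul (hAl i)
        have h2 := hW' (Sum.inl i)
        rw [hE2, hWd] at h2
        have h3 := h1.unique h2
        simp only [hp0, hh0, mul_zero, add_zero, Sum.elim_inl] at h3
        apply mul_right_cancel₀ hi
        rw [h3]
        ring
      have hB0 : fderiv ℂ v p h 0 = c * v p 0 := by
        obtain ⟨i, hi⟩ := Function.ne_iff.mp (hBne (p 0) hpS)
        have h1 := (hvl 0).mul (hBl i)
        have h2 := hW' (Sum.inr (Sum.inl i))
        rw [hE2, hWd] at h2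
        have h3 := h1.unique h2
        simp only [hp0, hh0, mul_zero, add_zero, Sum.elim_inl, Sum.elim_inr] at h3
        apply mul_right_cancel₀ hi
        rw [h3]
        ring
      have hC1 : fderiv ℂ v p h 1 = c * v p 1 := by
        obtain ⟨i, hi⟩ := Function.ne_iff.mp (hCne (p 0) hpS)
        have h1 := (hvl 1).mul (hCl i)
        have h2 := hW' (Sum.inr (Sum.inr i))
        rw [hE2, hWd] at h2
        have h3 := h1.unique h2
        simp only [hp0, hh0, mul_zero, add_zero, Sum.elim_inr] at h3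
        apply mul_right_cancel₀ hi
        rw [h3]
        ring
      intro k
      fin_cases k
      · exact hB0
      · exact hC1
      · exact hA2
    have hal := param_line (ha.differentiableAt (hO.mem_nhds hp)) h
    rw [hah] at hal
    refine himm p hp h hh0 hal c ?_
    intro k
    rw [← hV k]
    exact hvl k
  · intro p hp hp'
    exact hpt p hp'

theorem param_data (D : EData) (w₀ : ℂ) : ∃ r : ℝ, 0 < r ∧ r ≤ 1 / 2 ∧ ∃ l m : ℂ → ℂ,
    (∀ w ∈ Metric.ball w₀ r, l w ≠ 0 ∧ m w ≠ 0) ∧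
    DifferentiableOn ℂ (fun w => l w • D.U w) (Metric.ball w₀ r) ∧
    DifferentiableOn ℂ (fun w => m w • D.A w) (Metric.ball w₀ r) ∧
    DifferentiableOn ℂ (fun w => m w • D.B w) (Metric.ball w₀ r) ∧
    DifferentiableOn ℂ (fun w => m w • D.C w) (Metric.ball w₀ r) ∧
    ∀ w ∈ Metric.ball w₀ r, ∀ c : ℂ, deriv (fun w => l w • D.U w) w ≠ c • (l w • D.U w) := by
  obtain ⟨r, hr, l, m, h1, h2, h3, h4, h5, h6⟩ := D.lift w₀
  have hsub : Metric.ball w₀ (min r (1 / 2)) ⊆ Metric.ball w₀ r :=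
    Metric.ball_subset_ball (min_le_left _ _)
  refine ⟨min r (1 / 2), lt_min hr (by norm_num), min_le_right _ _, l, m,
    fun w hw => h1 w (hsub hw), h2.mono hsub, h3.mono hsub, h4.mono hsub, h5.mono hsub,
    fun w hw => h6 w (hsub hw)⟩

/-- TO PROVE -/
theorem exists_param1 (D : EData) (j : KK → ℂ × ℙ ℂ (Idx → ℂ)) (hj : IsEmb D j)
    (hc : Topology.IsClosedEmbedding j) (w x y : ℂ) :
    ∃ (P : LocalParam 3 (Set.range j)) (v : Fin 3 → ℂ) (hv : v ∈ P.V),
      P.pt v hv = j (eK w (y ^ 2 - x ^ 3) ![x, y, 1] (vec1_ne x y) (Wei1 x y)) ∧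
      ∀ h : Fin 3 → ℂ, fderiv ℂ P.a v h = 2 * y * h 2 - 3 * x ^ 2 * h 1 := by
  obtain ⟨r, hr, hr2, l, m, h1, h2, h3, h4, h5, h6⟩ := param_data D w
  obtain ⟨P, hPa, hPV, hPpt⟩ := param_gen D j hj hc (Metric.ball w r) Metric.isOpen_ball l m
    h1 h2 h3 h4 h5 h6 {p : Fin 3 → ℂ | p 0 ∈ Metric.ball w r}
    (Metric.isOpen_ball.preimage (continuous_apply 0)) (fun p hp => hp)
    (fun p => p 2 ^ 2 - p 1 ^ 3) (fun p => ![p 1, p 2, 1])
    (by fun_prop)
    (by
      rw [differentiableOn_pi]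
      intro k
      fin_cases k
      · exact (differentiable_apply 1).differentiableOn
      · exact (differentiable_apply 2).differentiableOn
      · exact differentiableOn_const (1 : ℂ))
    (fun p _ => vec1_ne _ _) (fun p _ => Wei1 _ _) (isOpenEmbedding_loc1 w r hr2)
    (by
      intro p _ h hh0 _ c hk
      have e2 : (0 : ℂ) = c * 1 := (hasDerivAt_const (0:ℂ) (1:ℂ)).unique (hk 2)
      have hc0 : c = 0 := by linear_combination -e2
      have e0 : h 1 = c * p 1 := (param_coord p h 1).unique (hk 0)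
      have e1 : h 2 = c * p 2 := (param_coord p h 2).unique (hk 1)
      funext k
      fin_cases k
      · exact hh0
      · change h 1 = 0
        rw [e0, hc0, zero_mul]
      · change h 2 = 0
        rw [e1, hc0, zero_mul])
  have hv : (![w, x, y] : Fin 3 → ℂ) ∈ {p : Fin 3 → ℂ | p 0 ∈ Metric.ball w r} :=
    Metric.mem_ball_self hr
  refine ⟨P, ![w, x, y], by rw [hPV]; exact hv, ?_, ?_⟩
  · rw [hPpt _ _ hv]
    rfl
  · intro h
    rw [hPa]
    have d1 : DifferentiableAt ℂ (fun p : Fin 3 → ℂ => p 2 ^ 2 - p 1 ^ 3) ![w, x, y] := by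
      fun_prop
    have d2 := param_line d1 h
    have d3 := ((param_coord ![w, x, y] h 2).pow 2).sub ((param_coord ![w, x, y] h 1).pow 3)
    have d4 := d2.unique d3
    rw [d4]
    simp

/-- TO PROVE -/
theorem exists_param2 (D : EData) (j : KK → ℂ × ℙ ℂ (Idx → ℂ)) (hj : IsEmb D j)
    (hc : Topology.IsClosedEmbedding j) (w s t : ℂ) (hst : ((s, t) : ℂ × ℂ) ∈ W2) :
    ∃ (P : LocalParam 3 (Set.range j)) (v : Fin 3 → ℂ) (hv : v ∈ P.V),
      P.pt v hv = j (eK w t ![s, rt s t, s ^ 3] (vec2_ne s t hst) (Wei2 s t)) ∧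
      ∀ h : Fin 3 → ℂ, fderiv ℂ P.a v h = h 2 := by
  obtain ⟨r, hr, hr2, l, m, h1, h2, h3, h4, h5, h6⟩ := param_data D w
  have hW2 : IsOpen {p : Fin 3 → ℂ | ((p 1, p 2) : ℂ × ℂ) ∈ W2} := by
    have : Continuous (fun p : Fin 3 → ℂ => ‖p 2‖ * ‖p 1‖ ^ 6) := by fun_prop
    exact isOpen_lt this continuous_const
  have hball : IsOpen {p : Fin 3 → ℂ | p 0 ∈ Metric.ball w r} :=
    Metric.isOpen_ball.preimage (continuous_apply 0)
  have hOO : IsOpen {p : Fin 3 → ℂ | p 0 ∈ Metric.ball w r ∧ ((p 1, p 2) : ℂ × ℂ) ∈ W2} :=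
    hball.inter hW2
  obtain ⟨P, hPa, hPV, hPpt⟩ := param_gen D j hj hc (Metric.ball w r) Metric.isOpen_ball l m
    h1 h2 h3 h4 h5 h6 {p : Fin 3 → ℂ | p 0 ∈ Metric.ball w r ∧ ((p 1, p 2) : ℂ × ℂ) ∈ W2}
    hOO (fun p hp => hp.1)
    (fun p => p 2) (fun p => ![p 1, rt (p 1) (p 2), p 1 ^ 3])
    (by fun_prop)
    (by
      rw [differentiableOn_pi]
      intro k
      fin_cases k
      · exact (differentiable_apply 1).differentiableOn
      · intro p hp
        have hp2 : ‖p 2 * p 1 ^ 6‖ < 1 := by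
          rw [norm_mul, norm_pow]
          exact hp.2
        have hs := Complex.mem_slitPlane_of_norm_lt_one hp2
        have hd : DifferentiableAt ℂ (fun p : Fin 3 → ℂ => 1 + p 2 * p 1 ^ 6) p := by fun_prop
        exact (hd.cpow (differentiableAt_const _) hs).differentiableWithinAt
      · exact ((differentiable_apply 1).pow 3).differentiableOn)
    (fun p hp => vec2_ne _ _ hp.2) (fun p _ => Wei2 _ _) (isOpenEmbedding_loc2 w r hr2)
    (by
      intro p _ h hh0 ha c hk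
      have e2 : h 2 = 0 := (param_coord p h 2).unique ha
      have e0 : h 1 = c * p 1 := (param_coord p h 1).unique (hk 0)
      have e1 := ((param_coord p h 1).pow 3).unique (hk 2)
      have e3 : 3 * p 1 ^ 2 * h 1 = c * p 1 ^ 3 := by
        simpa using e1
      have e4 : c * p 1 = 0 := by
        rw [e0] at e3
        have e5 : c * p 1 ^ 3 = 0 := by linear_combination (1 / 2 : ℂ) * e3
        rcases mul_eq_zero.mp e5 with h | h
        · rw [h, zero_mul]
        · rw [pow_eq_zero_iff (by norm_num)] at h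
          rw [h, mul_zero]
      funext k
      fin_cases k
      · exact hh0
      · change h 1 = 0
        rw [e0, e4]
      · exact e2)
  have hv : (![w, s, t] : Fin 3 → ℂ) ∈
      {p : Fin 3 → ℂ | p 0 ∈ Metric.ball w r ∧ ((p 1, p 2) : ℂ × ℂ) ∈ W2} :=
    ⟨Metric.mem_ball_self hr, hst⟩
  refine ⟨P, ![w, s, t], by rw [hPV]; exact hv, ?_, ?_⟩
  · rw [hPpt _ _ hv]
    rfl
  · intro h
    rw [hPa]
    have d1 : DifferentiableAt ℂ (fun p : Fin 3 → ℂ => p 2) ![w, s, t] := by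
      fun_prop
    exact (param_line d1 h).unique (param_coord ![w, s, t] h 2)

end Pool.Agent.Helper922.HB
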