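import Pool.Agent.Helper922.HB.Defs

/-! Submersivity does not depend on the parametrisation. -/

open scoped LinearAlgebra.Projectivization Topology

namespace Pool.Agent.Helper922.HB

universe u v

variable {ι : Type u} [Fintype ι]

/-- affine coordinates, `k`-th chart -/
noncomputable def fderiv_ne_of_param_Psi (k : ι) (x : ℂ × ℙ ℂ (ι → ℂ)) : ℂ × (ι → ℂ) :=
  (x.1, fun i => x.2.rep i / x.2.rep k)

theorem fderiv_ne_of_param_Psi_mk (k : ι) (z : ℂ) (φ : ι → ℂ) (hφ : φ ≠ 0) :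
    fderiv_ne_of_param_Psi k (z, Projectivization.mk ℂ φ hφ) = (z, fun i => φ i / φ k) := by
  unfold fderiv_ne_of_param_Psi
  obtain ⟨a, ha⟩ := Projectivization.exists_smul_eq_mk_rep ℂ φ hφ
  show (z, fun i => (Projectivization.mk ℂ φ hφ).rep i / (Projectivization.mk ℂ φ hφ).rep k) = _
  rw [← ha]
  congr 1
  funext i
  show (a : ℂ) * φ i / ((a : ℂ) * φ k) = φ i / φ k
  rw [mul_div_mul_left _ _ a.ne_zero]

/-- derivative of a quotient of functions of several variables -/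
theorem fderiv_ne_of_param_div {E : Type*} [NormedAddCommGroup E] [NormedSpace ℂ E] {f g : E → ℂ}
    {x : E} (hf : DifferentiableAt ℂ f x) (hg : DifferentiableAt ℂ g x) (h0 : g x ≠ 0) :
    ∃ D : E →L[ℂ] ℂ, HasFDerivAt (fun y => f y / g y) D x ∧
      ∀ h, D h = 0 → fderiv ℂ f x h = (fderiv ℂ g x h / g x) * f x := by
  have h1 : HasFDerivAt (fun y => (g y)⁻¹) (-(g x ^ 2)⁻¹ • fderiv ℂ g x) x := by
    have := (hasDerivAt_inv h0).comp_hasFDerivAt x hg.hasFDerivAt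
    exact this
  have h2 := hf.hasFDerivAt.mul h1
  refine ⟨_, h2, fun h hh => ?_⟩
  have h3 : f x * (-(g x ^ 2)⁻¹ * fderiv ℂ g x h) + (g x)⁻¹ * fderiv ℂ f x h = 0 := hh
  field_simp at h3 ⊢
  linear_combination h3

/-- the affine chart of a parametrisation is differentiable with injective derivative -/
theorem fderiv_ne_of_param_inj {d : ℕ} {X : Set (ℂ × ℙ ℂ (ι → ℂ))} (P : LocalParam d X)
    (v : Fin d → ℂ) (hv : v ∈ P.V) (k : ι) (hk : P.φ v k ≠ 0) :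
    ∃ D : (Fin d → ℂ) →L[ℂ] ℂ × (ι → ℂ),
      HasFDerivAt (fun w => ((P.a w, fun i => P.φ w i / P.φ w k) : ℂ × (ι → ℂ))) D v ∧
      ∀ h, D h = 0 → h = 0 := by
  have hV : P.V ∈ 𝓝 v := P.isOpen_V.mem_nhds hv
  have ha : DifferentiableAt ℂ P.a v := P.holo_a.differentiableAt hV
  have hφ : DifferentiableAt ℂ P.φ v := P.holo_φ.differentiableAt hV
  have hφi : ∀ i, HasFDerivAt (fun w => P.φ w i)
      ((ContinuousLinearMap.proj i).comp (fderiv ℂ P.φ v)) v := by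
    intro i
    exact (hasFDerivAt_pi'.1 hφ.hasFDerivAt) i
  have hq : ∀ i, ∃ D : (Fin d → ℂ) →L[ℂ] ℂ, HasFDerivAt (fun y => P.φ y i / P.φ y k) D v ∧
      ∀ h, D h = 0 → fderiv ℂ P.φ v h i = (fderiv ℂ P.φ v h k / P.φ v k) * P.φ v i := by
    intro i
    obtain ⟨D, h1, h2⟩ := fderiv_ne_of_param_div (hφi i).differentiableAt
      (hφi k).differentiableAt hk
    refine ⟨D, h1, fun h hh => ?_⟩
    have h3 := h2 h hh
    rw [(hφi i).fderiv, (hφi k).fderiv] at h3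
    exact h3
  choose D hD1 hD2 using hq
  refine ⟨(fderiv ℂ P.a v).prod (ContinuousLinearMap.pi D),
    ha.hasFDerivAt.prodMk (hasFDerivAt_pi.2 hD1), fun h hh => ?_⟩
  have h1 : fderiv ℂ P.a v h = 0 := congrArg Prod.fst hh
  have h2 : ∀ i, D i h = 0 := fun i => congrFun (congrArg Prod.snd hh) i
  apply P.immersion v hv h h1
  refine ⟨fderiv ℂ P.φ v h k / P.φ v k, ?_⟩
  funext i
  exact hD2 i h (h2 i)

/-- TO PROVE -/
theorem fderiv_ne_of_param {d : ℕ} {X : Set (ℂ × ℙ ℂ (ι → ℂ))} (P P' : LocalParam d X)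
    (v v' : Fin d → ℂ) (hv : v ∈ P.V) (hv' : v' ∈ P'.V) (he : P.pt v hv = P'.pt v' hv')
    (h : ∃ h : Fin d → ℂ, fderiv ℂ P.a v h ≠ 0) : ∃ h : Fin d → ℂ, fderiv ℂ P'.a v' h ≠ 0 := by
  by_contra hcon
  push Not at hcon
  obtain ⟨h, hh⟩ := h
  apply hh
  -- the index
  obtain ⟨k, hk'⟩ : ∃ k, P'.φ v' k ≠ 0 := by
    by_contra hc
    push Not at hc
    exact P'.φ_ne v' hv' (funext hc)
  have hk : P.φ v k ≠ 0 := by
    have h1 : Projectivization.mk ℂ (P.φ v) (P.φ_ne v hv) =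
        Projectivization.mk ℂ (P'.φ v') (P'.φ_ne v' hv') := congrArg Prod.snd he
    rw [Projectivization.mk_eq_mk_iff'] at h1
    obtain ⟨a, ha⟩ := h1
    have ha0 : a ≠ 0 := by
      rintro rfl
      rw [zero_smul] at ha
      exact P.φ_ne v hv ha.symm
    rw [← ha]
    exact mul_ne_zero ha0 hk'
  obtain ⟨D', hD', hinj⟩ := fderiv_ne_of_param_inj P' v' hv' k hk'
  obtain ⟨D, hD, -⟩ := fderiv_ne_of_param_inj P v hv k hk
  -- lower bound for `F'`
  have hO1 : (fun w => w - v') =O[𝓝 v'] (fun w => ((P'.a w, fun i => P'.φ w i / P'.φ w k) :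
      ℂ × (ι → ℂ)) - (P'.a v', fun i => P'.φ v' i / P'.φ v' k)) := by
    obtain ⟨K, -, hK⟩ := LinearMap.exists_antilipschitzWith (D' : (Fin d → ℂ) →ₗ[ℂ] ℂ × (ι → ℂ))
      (LinearMap.ker_eq_bot'.2 hinj)
    have hind : Topology.IsInducing D' :=
      (AntilipschitzWith.isUniformInducing (f := D') hK D'.uniformContinuous).isInducing
    exact (hD'.isThetaTVS_sub hind).2.isBigO
  have ha'0 : HasFDerivAt P'.a (0 : (Fin d → ℂ) →L[ℂ] ℂ) v' := by
    have hV : P'.V ∈ 𝓝 v' := P'.isOpen_V.mem_nhds hv'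
    have h1 := (P'.holo_a.differentiableAt hV).hasFDerivAt
    have h2 : fderiv ℂ P'.a v' = 0 := ContinuousLinearMap.ext hcon
    rwa [h2] at h1
  have ho1 : (fun w => P'.a w - P'.a v') =o[𝓝 v'] (fun w => ((P'.a w, fun i =>
      P'.φ w i / P'.φ w k) : ℂ × (ι → ℂ)) - (P'.a v', fun i => P'.φ v' i / P'.φ v' k)) := by
    have h1 := ha'0.isLittleO
    simp only [ContinuousLinearMap.zero_apply, sub_zero] at h1
    exact h1.trans_isBigO hO1
  -- transfer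
  have ho2 : (fun w => P.a w - P.a v) =o[𝓝 v] (fun w => ((P.a w, fun i =>
      P.φ w i / P.φ w k) : ℂ × (ι → ℂ)) - (P.a v, fun i => P.φ v i / P.φ v k)) := by
    rw [Asymptotics.isLittleO_iff]
    intro ε hε
    have h1 := (Asymptotics.isLittleO_iff.1 ho1) hε
    have hx0 : (⟨P'.pt v' hv', P'.mem v' hv'⟩ : X) = ⟨P.pt v hv, P.mem v hv⟩ :=
      Subtype.ext he.symm
    have h2 : ∀ᶠ x in 𝓝 (⟨P'.pt v' hv', P'.mem v' hv'⟩ : X),
        ‖x.1.1 - (P'.pt v' hv').1‖ ≤ ε * ‖fderiv_ne_of_param_Psi k x.1 -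
          fderiv_ne_of_param_Psi k (P'.pt v' hv')‖ := by
      have e := P'.openEmbedding.map_nhds_eq ⟨v', hv'⟩
      have e' : 𝓝 (⟨P'.pt v' hv', P'.mem v' hv'⟩ : X) = Filter.map
        (fun v : P'.V => (⟨(P'.a v, Projectivization.mk ℂ (P'.φ v) (P'.φ_ne v v.2)),
          P'.mem v v.2⟩ : X)) (𝓝 ⟨v', hv'⟩) := e.symm
      rw [e', Filter.eventually_map]
      have h3 : ∀ᶠ w : P'.V in 𝓝 ⟨v', hv'⟩, ‖P'.a w - P'.a v'‖ ≤ ε * ‖((P'.a w, fun i =>
          P'.φ w i / P'.φ w k) : ℂ × (ι → ℂ)) - (P'.a v', fun i => P'.φ v' i / P'.φ v' k)‖ :=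
        (continuous_subtype_val.tendsto (⟨v', hv'⟩ : P'.V)).eventually h1
      filter_upwards [h3] with w hw
      unfold LocalParam.pt
      rw [fderiv_ne_of_param_Psi_mk, fderiv_ne_of_param_Psi_mk]
      exact hw
    rw [hx0, ← he] at h2
    have h4 : ∀ᶠ w : P.V in 𝓝 ⟨v, hv⟩, ‖P.a w - P.a v‖ ≤ ε * ‖((P.a w, fun i =>
          P.φ w i / P.φ w k) : ℂ × (ι → ℂ)) - (P.a v, fun i => P.φ v i / P.φ v k)‖ := by
      have hc := (P.openEmbedding.continuous.tendsto ⟨v, hv⟩).eventually h2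
      filter_upwards [hc] with w hw
      unfold LocalParam.pt at hw
      rw [fderiv_ne_of_param_Psi_mk, fderiv_ne_of_param_Psi_mk] at hw
      exact hw
    have e2 := P.isOpen_V.isOpenEmbedding_subtypeVal.map_nhds_eq (⟨v, hv⟩ : P.V)
    have e3 : 𝓝 v = Filter.map (Subtype.val : P.V → Fin d → ℂ) (𝓝 ⟨v, hv⟩) := e2.symm
    rw [e3, Filter.eventually_map]
    exact h4
  have ho3 : (fun w => P.a w - P.a v) =o[𝓝 v] (fun w => w - v) :=
    ho2.trans_isBigO hD.isBigO_sub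
  have ha0 : HasFDerivAt P.a (0 : (Fin d → ℂ) →L[ℂ] ℂ) v := by
    rw [hasFDerivAt_iff_isLittleO]
    simp only [ContinuousLinearMap.zero_apply, sub_zero]
    exact ho3
  rw [ha0.fderiv]
  rfl

end Pool.Agent.Helper922.HB
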