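import Pool.Agent.Helper922.HB.TopDefs

/-! Transport to the threefold; connectedness of fibres. -/

open scoped LinearAlgebra.Projectivization Topology

namespace Pool.Agent.Helper922.HB

universe u v

/-- TO PROVE -/
theorem bundle_of_homeo {K : Type u} [TopologicalSpace K] {X : Type v} [TopologicalSpace X]
    (e : K ≃ₜ X) (f : X → ℂ) (g : K → ℂ) (hf : ∀ k, f (e k) = g k)
    (h : ∀ b : ℂ, HE (sub (g ⁻¹' {b}))) : IsZHomologyFiberBundle f := by
  refine ⟨{Set.univ}, ?_, fun y => ⟨Set.univ, rfl, Set.mem_univ y⟩, ?_⟩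
  · intro U hU
    rw [Set.mem_singleton_iff] at hU
    rw [hU]; exact isOpen_univ
  · intro U hU y hy
    have hU' : U = Set.univ := hU
    subst hU'
    rw [← HE_iff_bijective]
    -- the inclusion of everything
    have hs : HE (sub (f ⁻¹' Set.univ)) :=
      HE_of_homeo (Homeomorph.Set.univ X) (sub (f ⁻¹' Set.univ)) (fun x => rfl)
    have key : HE (sub (f ⁻¹' {y})) := by
      have hmem : ∀ k : K, k ∈ g ⁻¹' {y} ↔ e k ∈ f ⁻¹' {y} := by
        intro k
        rw [Set.mem_preimage, Set.mem_preimage, hf]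
      obtain ⟨a, ha⟩ : ∃ a : (g ⁻¹' {y}) ≃ₜ (f ⁻¹' {y}), ∀ x, ((a x : f ⁻¹' {y}) : X) = e x :=
        ⟨e.subtype hmem, fun x => rfl⟩
      have h1 : HE (⟨a, a.continuous⟩ : C((g ⁻¹' {y}), (f ⁻¹' {y}))) := HE_of_homeo a _ (fun x => rfl)
      have h2 : HE (⟨e, e.continuous⟩ : C(K, X)) := HE_of_homeo e _ (fun x => rfl)
      have h3 := HE.comp h2 (h y)
      refine HE.of_comp_right h1 ?_
      have h4 : (sub (f ⁻¹' {y})).comp (⟨a, a.continuous⟩ : C((g ⁻¹' {y}), (f ⁻¹' {y}))) =
          (⟨e, e.continuous⟩ : C(K, X)).comp (sub (g ⁻¹' {y})) := by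
        ext x
        exact ha x
      rw [h4]
      exact h3
    refine HE.of_comp_left hs ?_
    exact key

theorem connected_of_HE_bdry {X : Type u} [TopologicalSpace X] (σ : Sing X 1) :
    bdry X 0 (Finsupp.single σ 1) = Finsupp.single (sface 0 0 σ) 1 - Finsupp.single (sface 0 1 σ) 1 := by
  unfold bdry
  rw [LinearMap.sum_apply, Fin.sum_univ_two]
  simp [Finsupp.mapDomain_single, sub_eq_add_neg]

/-- a functional that is constant on one simplices vanishes on boundaries -/
theorem connected_of_HE_fun {X : Type u} [TopologicalSpace X] (φ : Sing X 0 → ℤ)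
    (hφ : ∀ σ : Sing X 1, φ (sface 0 0 σ) = φ (sface 0 1 σ)) (z : Sing X 0 →₀ ℤ)
    (hz : z ∈ Bdy X 0) : Finsupp.linearCombination ℤ φ z = 0 := by
  obtain ⟨w, rfl⟩ := hz
  have : (Finsupp.linearCombination ℤ φ).comp (bdry X 0) = 0 := by
    apply Finsupp.lhom_ext'
    intro σ
    apply LinearMap.ext_ring
    rw [LinearMap.comp_apply, LinearMap.comp_apply, Finsupp.lsingle_apply, connected_of_HE_bdry,
      map_sub, Finsupp.linearCombination_single, Finsupp.linearCombination_single, hφ, sub_self]
    rfl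
  exact LinearMap.congr_fun this w

/-- constant 0-simplex -/
def connected_of_HE_c {X : Type u} [TopologicalSpace X] (x : X) : Sing X 0 := ContinuousMap.const _ x

theorem connected_of_HE_path {X : Type u} [TopologicalSpace X] (x y : X) (h : Joined x y) :
    Finsupp.single (connected_of_HE_c x) (1 : ℤ) - Finsupp.single (connected_of_HE_c y) 1 ∈
      Bdy X 0 := by
  obtain ⟨γ⟩ := h.symm
  obtain ⟨σ, hσ⟩ : ∃ σ : Sing X 1, ∀ p, σ p = γ (stdSimplexHomeomorphUnitInterval p) :=
    ⟨⟨fun p => γ (stdSimplexHomeomorphUnitInterval p),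
      γ.continuous.comp stdSimplexHomeomorphUnitInterval.continuous⟩, fun p => rfl⟩
  refine ⟨Finsupp.single σ 1, ?_⟩
  rw [connected_of_HE_bdry]
  have h0 : sface 0 0 σ = connected_of_HE_c x := by
    ext p
    rw [Subsingleton.elim p (stdSimplex.vertex 0)]
    show σ (stdSimplex.map (Fin.succAbove 0) (stdSimplex.vertex 0)) = x
    rw [stdSimplex.map_vertex, hσ]
    have h1 : (Fin.succAbove (0 : Fin 2) 0) = 1 := rfl
    rw [h1, stdSimplexHomeomorphUnitInterval_one]
    exact γ.target
  have h1 : sface 0 1 σ = connected_of_HE_c y := by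
    ext p
    rw [Subsingleton.elim p (stdSimplex.vertex 0)]
    show σ (stdSimplex.map (Fin.succAbove 1) (stdSimplex.vertex 0)) = y
    rw [stdSimplex.map_vertex, hσ]
    have h1 : (Fin.succAbove (1 : Fin 2) 0) = 0 := rfl
    rw [h1, stdSimplexHomeomorphUnitInterval_zero]
    exact γ.source
  rw [h0, h1]

/-- TO PROVE -/
theorem connected_of_HE {F : Type u} [TopologicalSpace F] {K : Type v} [TopologicalSpace K]
    (i : C(F, K)) (h : HE i) (hK : PathConnectedSpace K) : PathConnectedSpace F := by
  classical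
  refine ⟨?_, fun a b => ?_⟩
  · by_contra hne
    rw [not_nonempty_iff] at hne
    obtain ⟨k⟩ := hK.nonempty
    obtain ⟨z, _, hz⟩ := (h 0).2 (Finsupp.single (connected_of_HE_c k) 1) Submodule.mem_top
    have hemp : IsEmpty (Sing F 0) := ⟨fun σ => hne.elim (σ default)⟩
    have hz0 : z = 0 := by
      ext σ
      exact hemp.elim σ
    rw [hz0, map_zero, sub_zero] at hz
    have h1 := connected_of_HE_fun (fun _ => (1 : ℤ)) (fun σ => rfl) _ hz
    rw [Finsupp.linearCombination_single] at h1
    simp at h1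
  · obtain ⟨z, hz⟩ : ∃ z : Sing F 0 →₀ ℤ, z = Finsupp.single (connected_of_HE_c a) 1 -
      Finsupp.single (connected_of_HE_c b) 1 := ⟨_, rfl⟩
    have h1 : push i 0 z ∈ Bdy K 0 := by
      rw [hz, map_sub, push_single, push_single]
      exact connected_of_HE_path (i a) (i b) (hK.joined _ _)
    have h2 := (h 0).1 z Submodule.mem_top h1
    have h3 := connected_of_HE_fun (fun σ : Sing F 0 => if Joined a (σ default) then (1 : ℤ) else 0)
      (fun σ => by
        have h4 : Joined (sface 0 0 σ default) (sface 0 1 σ default) := by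
          have h5 : Joined (stdSimplex.map (S := ℝ) (Fin.succAbove (0 : Fin 2)) default)
            (stdSimplex.map (S := ℝ) (Fin.succAbove (1 : Fin 2)) default) :=
            PathConnectedSpace.joined _ _
          exact h5.map σ.continuous
        have h5 : Joined a (sface 0 0 σ default) ↔ Joined a (sface 0 1 σ default) :=
          ⟨fun h => h.trans h4, fun h => h.trans h4.symm⟩
        simp only [h5]) z h2
    rw [hz, map_sub, Finsupp.linearCombination_single, Finsupp.linearCombination_single] at h3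
    have h4 : Joined a ((connected_of_HE_c a : Sing F 0) default) := Joined.refl a
    rw [if_pos h4] at h3
    by_contra hnot
    have h5 : ¬ Joined a ((connected_of_HE_c b : Sing F 0) default) := hnot
    rw [if_neg h5] at h3
    simp at h3

end Pool.Agent.Helper922.HB
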