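import Pool.Agent.Helper922.HB.T8
import Pool.Agent.Helper922.HB.T9
import Pool.Agent.Helper922.HB.G3c
import Pool.Agent.Helper922.HB.G4c
import Pool.Agent.Helper922.HB.G5
import Pool.Agent.Helper922.HB.G6b
import Pool.Agent.Helper922.HB.G7

/-! Counterexample to Q1 of MP_ed9921_ag. -/

open scoped LinearAlgebra.Projectivization

namespace Pool.Agent.Helper922.HB

theorem result_main : ∃ (ι : Type) (_ : Fintype ι) (X : Set (ℂ × ℙ ℂ (ι → ℂ))),
    IsClosedSubmanifold 3 X ∧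
    (∀ t : ℂ, IsConnected {p | p ∈ X ∧ p.1 = t}) ∧
    (∀ p ∈ X, p.1 ≠ 0 → ProjSubmersiveAt 3 X p) ∧
    IsZHomologyFiberBundle (fun p : X => p.1.1) ∧
    ∃ p ∈ X, p.1 = 0 ∧ ¬ ProjSubmersiveAt 3 X p := by
  obtain ⟨D⟩ := nonempty_EData
  obtain ⟨j, hc, hi, hf, hj⟩ := exists_emb D
  have hce := isClosedEmbedding_of j hc hi hf
  refine ⟨Idx, inferInstance, Set.range j, ⟨hce.isClosed_range, ?_⟩, ?_, ?_, ?_, ?_⟩
  · rintro _ ⟨k, rfl⟩
    rcases KK_cases k with ⟨w, x, y, rfl⟩ | ⟨w, s, t, h, rfl⟩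
    · obtain ⟨P, v, hv, h1, _⟩ := exists_param1 D j hj hce w x y
      exact ⟨P, v, hv, h1⟩
    · obtain ⟨P, v, hv, h1, _⟩ := exists_param2 D j hj hce w s t h
      exact ⟨P, v, hv, h1⟩
  · intro t
    have h1 : PathConnectedSpace (fK ⁻¹' {t}) :=
      connected_of_HE (sub (fK ⁻¹' {t})) (HE_fK t) pathConnected_KK
    have h2 : IsConnected (fK ⁻¹' {t}) := isConnected_iff_connectedSpace.mpr inferInstance
    have h3 : {p | p ∈ Set.range j ∧ p.1 = t} = j '' (fK ⁻¹' {t}) := by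
      ext p
      constructor
      · rintro ⟨⟨k, rfl⟩, h⟩
        exact ⟨k, by rw [Set.mem_preimage, ← hf, h]; rfl, rfl⟩
      · rintro ⟨k, h, rfl⟩
        exact ⟨⟨k, rfl⟩, by rw [hf]; exact h⟩
    rw [h3]
    exact h2.image j hc.continuousOn
  · rintro _ ⟨k, rfl⟩ hk P v hv hPv
    rcases KK_cases k with ⟨w, x, y, rfl⟩ | ⟨w, s, t, h, rfl⟩
    · obtain ⟨P', v', hv', h1, h2⟩ := exists_param1 D j hj hce w x y
      refine fderiv_ne_of_param P' P v' v hv' hv (h1.trans hPv.symm) ?_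
      rw [hf, fK_eK] at hk
      by_cases hy : y = 0
      · refine ⟨![0, 1, 0], ?_⟩
        rw [h2]
        have hx : x ≠ 0 := by
          rintro rfl
          apply hk
          rw [hy]
          ring
        simp [hx]
      · refine ⟨![0, 0, 1], ?_⟩
        rw [h2]
        simp [hy]
    · obtain ⟨P', v', hv', h1, h2⟩ := exists_param2 D j hj hce w s t h
      refine fderiv_ne_of_param P' P v' v hv' hv (h1.trans hPv.symm) ⟨![0, 0, 1], ?_⟩
      rw [h2]
      simp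
  · exact bundle_of_homeo hce.isEmbedding.toHomeomorph _ fK (fun k => hf k) HE_fK
  · obtain ⟨P, v, hv, h1, h2⟩ := exists_param1 D j hj hce 0 0 0
    refine ⟨j (eK 0 (0 ^ 2 - 0 ^ 3) ![0, 0, 1] (vec1_ne 0 0) (Wei1 0 0)), ⟨_, rfl⟩, ?_, ?_⟩
    · rw [hf, fK_eK]
      ring
    · intro h
      obtain ⟨x, hx⟩ := h P v hv h1
      apply hx
      rw [h2]
      ring

end Pool.Agent.Helper922.HB
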