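import Pool.Agent.Helper922.HB.Model

/-! Topology of complex projective space. -/

open scoped LinearAlgebra.Projectivization Topology

namespace Pool.Agent.Helper922.HB

universe u v

variable {ι : Type u} [Fintype ι]

/-- TO PROVE -/
theorem isOpenQuotientMap_mk : IsOpenQuotientMap
    (fun v : {v : ι → ℂ // v ≠ 0} => (Projectivization.mk ℂ v.1 v.2 : ℙ ℂ (ι → ℂ))) := by
  have hsurj : Function.Surjective
      (fun v : {v : ι → ℂ // v ≠ 0} => (Projectivization.mk ℂ v.1 v.2 : ℙ ℂ (ι → ℂ))) := by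
    intro p
    exact ⟨⟨p.rep, p.rep_nonzero⟩, p.mk_rep⟩
  have hcoind : ∀ s : Set (ℙ ℂ (ι → ℂ)), IsOpen s ↔
      IsOpen ((fun v : {v : ι → ℂ // v ≠ 0} =>
        (Projectivization.mk ℂ v.1 v.2 : ℙ ℂ (ι → ℂ))) ⁻¹' s) := fun s => isOpen_coinduced
  refine ⟨hsurj, ?_, ?_⟩
  · rw [continuous_def]
    intro s hs
    exact (hcoind s).1 hs
  · intro U hU
    rw [hcoind]
    have e : ((fun v : {v : ι → ℂ // v ≠ 0} =>
        (Projectivization.mk ℂ v.1 v.2 : ℙ ℂ (ι → ℂ))) ⁻¹'
        ((fun v : {v : ι → ℂ // v ≠ 0} =>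
          (Projectivization.mk ℂ v.1 v.2 : ℙ ℂ (ι → ℂ))) '' U)) =
        ⋃ a : ℂˣ, (fun v : {v : ι → ℂ // v ≠ 0} =>
          (⟨(a : ℂ) • v.1, smul_ne_zero a.ne_zero v.2⟩ : {v : ι → ℂ // v ≠ 0})) ⁻¹' U := by
      ext v
      simp only [Set.mem_preimage, Set.mem_image, Set.mem_iUnion]
      constructor
      · rintro ⟨w, hw, hwv⟩
        rw [Projectivization.mk_eq_mk_iff] at hwv
        obtain ⟨a, ha⟩ := hwv
        refine ⟨a, ?_⟩
        have : (⟨(a : ℂ) • v.1, smul_ne_zero a.ne_zero v.2⟩ : {v : ι → ℂ // v ≠ 0}) = w :=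
          Subtype.ext ha
        rw [this]; exact hw
      · rintro ⟨a, ha⟩
        refine ⟨_, ha, ?_⟩
        rw [Projectivization.mk_eq_mk_iff]
        exact ⟨a, rfl⟩
    rw [e]
    refine isOpen_iUnion fun a => hU.preimage ?_
    exact Continuous.subtype_mk (continuous_subtype_val.const_smul (a : ℂ)) _

/-- TO PROVE -/
theorem continuousAt_mk {X : Type v} [TopologicalSpace X] (f : X → ι → ℂ) (h0 : ∀ x, f x ≠ 0)
    (l : X → ℂ) (x : X) (hl : ∀ᶠ y in 𝓝 x, l y ≠ 0)
    (hf : ContinuousAt (fun y => l y • f y) x) :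
    ContinuousAt (fun y => (Projectivization.mk ℂ (f y) (h0 y) : ℙ ℂ (ι → ℂ))) x := by
  classical
  let g : X → {v : ι → ℂ // v ≠ 0} := fun y =>
    if h : l y ≠ 0 then ⟨l y • f y, smul_ne_zero h (h0 y)⟩ else ⟨f y, h0 y⟩
  have hg : ContinuousAt g x := by
    have hind : Topology.IsInducing (Subtype.val : {v : ι → ℂ // v ≠ 0} → (ι → ℂ)) :=
      Topology.IsInducing.subtypeVal
    rw [hind.continuousAt_iff]
    refine hf.congr ?_
    filter_upwards [hl] with y hy
    simp only [Function.comp_apply, g]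
    rw [dif_pos hy]
  have e : (fun y => (Projectivization.mk ℂ (f y) (h0 y) : ℙ ℂ (ι → ℂ))) =
      (fun v : {v : ι → ℂ // v ≠ 0} => (Projectivization.mk ℂ v.1 v.2 : ℙ ℂ (ι → ℂ))) ∘ g := by
    funext y
    simp only [Function.comp_apply, g]
    by_cases h : l y ≠ 0
    · simp only [dif_pos h]
      rw [Projectivization.mk_eq_mk_iff']
      exact ⟨(l y)⁻¹, by rw [smul_smul, inv_mul_cancel₀ h, one_smul]⟩
    · simp only [dif_neg h]
  rw [e]
  exact (isOpenQuotientMap_mk.continuous.continuousAt).comp hg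

/-- TO PROVE -/
theorem continuous_mk {X : Type v} [TopologicalSpace X] (f : X → ι → ℂ) (h0 : ∀ x, f x ≠ 0)
    (hf : Continuous f) :
    Continuous (fun y => (Projectivization.mk ℂ (f y) (h0 y) : ℙ ℂ (ι → ℂ))) := by
  rw [continuous_iff_continuousAt]
  intro x
  refine continuousAt_mk f h0 (fun _ => 1) x (Filter.Eventually.of_forall fun _ => one_ne_zero) ?_
  simpa using hf.continuousAt

/-- TO PROVE -/
theorem t2_proj : T2Space (ℙ ℂ (ι → ℂ)) := by
  rw [t2Space_iff_of_isOpenQuotientMap (isOpenQuotientMap_mk (ι := ι))]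
  have e : {q : {v : ι → ℂ // v ≠ 0} × {v : ι → ℂ // v ≠ 0} |
      (Projectivization.mk ℂ q.1.1 q.1.2 : ℙ ℂ (ι → ℂ)) = Projectivization.mk ℂ q.2.1 q.2.2} =
      ⋂ i : ι, ⋂ j : ι, {q | q.1.1 i * q.2.1 j = q.1.1 j * q.2.1 i} := by
    ext q
    simp only [Set.mem_setOf_eq, Set.mem_iInter]
    rw [Projectivization.mk_eq_mk_iff']
    constructor
    · rintro ⟨a, ha⟩ i j
      rw [← ha]
      simp only [Pi.smul_apply, smul_eq_mul]
      ring
    · intro h
      obtain ⟨k, hk⟩ := Function.ne_iff.1 q.2.2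
      simp only [Pi.zero_apply] at hk
      refine ⟨q.1.1 k / q.2.1 k, ?_⟩
      funext i
      simp only [Pi.smul_apply, smul_eq_mul]
      have := h i k
      field_simp
      rw [← this]
      ring
  rw [e]
  refine isClosed_iInter fun i => isClosed_iInter fun j => ?_
  refine isClosed_eq ?_ ?_
  · exact ((continuous_apply i).comp (continuous_subtype_val.comp continuous_fst)).mul
      ((continuous_apply j).comp (continuous_subtype_val.comp continuous_snd))
  · exact ((continuous_apply j).comp (continuous_subtype_val.comp continuous_fst)).mul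
      ((continuous_apply i).comp (continuous_subtype_val.comp continuous_snd))

/-- TO PROVE -/
theorem compact_proj : CompactSpace (ℙ ℂ (ι → ℂ)) := by
  let h : Metric.sphere (0 : ι → ℂ) 1 → ℙ ℂ (ι → ℂ) := fun v =>
    Projectivization.mk ℂ v.1 (by
      intro hv
      have := v.2
      rw [mem_sphere_zero_iff_norm, hv, norm_zero] at this
      exact zero_ne_one this)
  have hc : Continuous h := continuous_mk _ _ continuous_subtype_val
  have hs : Function.Surjective h := by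
    intro p
    have hn : ‖p.rep‖ ≠ 0 := norm_ne_zero_iff.2 p.rep_nonzero
    refine ⟨⟨((‖p.rep‖⁻¹ : ℝ) : ℂ) • p.rep, ?_⟩, ?_⟩
    · rw [mem_sphere_zero_iff_norm, norm_smul, Complex.norm_real, norm_inv, norm_norm,
        inv_mul_cancel₀ hn]
    · simp only [h]
      conv_rhs => rw [← p.mk_rep]
      rw [Projectivization.mk_eq_mk_iff']
      exact ⟨_, rfl⟩
  have := isCompact_range hc
  rw [hs.range_eq] at this
  exact ⟨this⟩

/-- TO PROVE -/
theorem rep_ne_iff (v : ι → ℂ) (hv : v ≠ 0) (k : ι) :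
    (Projectivization.mk ℂ v hv : ℙ ℂ (ι → ℂ)).rep k ≠ 0 ↔ v k ≠ 0 := by
  obtain ⟨a, ha⟩ := Projectivization.exists_smul_eq_mk_rep ℂ v hv
  rw [← ha]
  simp [Units.smul_def, a.ne_zero]

/-- TO PROVE -/
theorem rep_ratio (v : ι → ℂ) (hv : v ≠ 0) (i k : ι) :
    (Projectivization.mk ℂ v hv : ℙ ℂ (ι → ℂ)).rep i / (Projectivization.mk ℂ v hv).rep k =
      v i / v k := by
  obtain ⟨a, ha⟩ := Projectivization.exists_smul_eq_mk_rep ℂ v hv
  rw [← ha]
  simp only [Units.smul_def, Pi.smul_apply, smul_eq_mul]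
  rw [mul_div_mul_left _ _ a.ne_zero]

/-- TO PROVE -/
theorem isOpen_rep_ne (k : ι) : IsOpen {p : ℙ ℂ (ι → ℂ) | p.rep k ≠ 0} := by
  rw [← (isOpenQuotientMap_mk (ι := ι)).isQuotientMap.isOpen_preimage]
  have e : ((fun v : {v : ι → ℂ // v ≠ 0} => (Projectivization.mk ℂ v.1 v.2 : ℙ ℂ (ι → ℂ))) ⁻¹'
      {p : ℙ ℂ (ι → ℂ) | p.rep k ≠ 0}) = {v | v.1 k ≠ 0} := by
    ext v
    exact rep_ne_iff v.1 v.2 k
  rw [e]
  exact isOpen_ne_fun ((continuous_apply k).comp continuous_subtype_val) continuous_const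

/-- TO PROVE -/
theorem continuousOn_rep_ratio (i k : ι) :
    ContinuousOn (fun p : ℙ ℂ (ι → ℂ) => p.rep i / p.rep k) {p | p.rep k ≠ 0} := by
  intro p hp
  apply ContinuousAt.continuousWithinAt
  obtain ⟨v, rfl⟩ := (isOpenQuotientMap_mk (ι := ι)).surjective p
  rw [← (isOpenQuotientMap_mk (ι := ι)).continuousAt_comp_iff]
  have e : ((fun p : ℙ ℂ (ι → ℂ) => p.rep i / p.rep k) ∘
      (fun v : {v : ι → ℂ // v ≠ 0} => (Projectivization.mk ℂ v.1 v.2 : ℙ ℂ (ι → ℂ)))) =
      fun v => v.1 i / v.1 k := by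
    funext v
    exact rep_ratio v.1 v.2 i k
  rw [e]
  have hk : v.1 k ≠ 0 := (rep_ne_iff v.1 v.2 k).1 hp
  exact ContinuousAt.div
    ((continuous_apply i).comp continuous_subtype_val).continuousAt
    ((continuous_apply k).comp continuous_subtype_val).continuousAt hk

end Pool.Agent.Helper922.HB
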