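import Pool.Agent.Helper922.HB.Model

/-! The embedding of `ℂ / (ℤ + ℤ i)` by Weierstrass functions. -/

open scoped Topology

namespace Pool.Agent.Helper922.HB

/-- the square lattice -/
noncomputable def g3aL : PeriodPair where
  ω₁ := 1
  ω₂ := Complex.I
  indep := by
    rw [LinearIndependent.pair_iff]
    intro s t h
    have h1 := congrArg Complex.re h
    have h2 := congrArg Complex.im h
    simp at h1 h2
    exact ⟨h1, h2⟩

/-- Weierstrass function of the square lattice -/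
noncomputable def g3aP : ℂ → ℂ := g3aL.weierstrassP

/-- its derivative -/
noncomputable def g3aQ : ℂ → ℂ := g3aL.derivWeierstrassP

/-- the set of lattice points -/
def g3aS : Set ℂ := (g3aL.lattice : Set ℂ)

theorem g3a_countable : g3aS.Countable := by
  have h : Countable g3aL.lattice :=
    Function.Injective.countable (g3aL.latticeEquivProd.injective)
  exact Set.countable_coe_iff.mp h

theorem g3a_closed : IsClosed g3aS := g3aL.isClosed_lattice

theorem g3a_preconn {s : Set ℂ} (hs : s.Countable) : IsPreconnected sᶜ :=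
  (Set.Countable.isPathConnected_compl_of_one_lt_rank
    (by rw [Complex.rank_real_complex]; norm_num) hs).isConnected.isPreconnected

theorem g3a_anP : AnalyticOnNhd ℂ g3aP g3aSᶜ := g3aL.analyticOnNhd_weierstrassP

theorem g3a_anQ : AnalyticOnNhd ℂ g3aQ g3aSᶜ := g3aL.analyticOnNhd_derivWeierstrassP

theorem g3a_derivP : deriv g3aP = g3aQ := g3aL.deriv_weierstrassP

theorem g3a_zero_mem : (0 : ℂ) ∈ g3aS := g3aL.lattice.zero_mem

theorem g3a_pole (l : ℂ) (hl : l ∈ g3aS) (f : ℂ → ℂ) (hf : AnalyticAt ℂ f l)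
    (h : g3aP =ᶠ[𝓝[≠] l] f) : False := by
  have h1 := meromorphicOrderAt_congr h
  have h2 : meromorphicOrderAt g3aP l = -2 := g3aL.order_weierstrassP l hl
  have h3 := hf.meromorphicOrderAt_nonneg
  rw [← h1, h2] at h3
  exact absurd h3 (by decide)

theorem g3a_notMem_near (l : ℂ) : ∀ᶠ z in 𝓝[≠] l, z ∉ g3aS := by
  have h := g3aL.compl_lattice_sdiff_singleton_mem_nhds l
  filter_upwards [mem_nhdsWithin_of_mem_nhds h, self_mem_nhdsWithin] with z hz hz2 hz3
  exact hz ⟨hz3, hz2⟩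

theorem g3a_nonconst (w : ℂ) (hw : w ∉ g3aS) (c : ℂ) (h : g3aP =ᶠ[𝓝 w] fun _ => c) : False := by
  have h1 : Set.EqOn g3aP (fun _ => c) g3aSᶜ :=
    g3a_anP.eqOn_of_preconnected_of_eventuallyEq (fun z _ => analyticAt_const)
      (g3a_preconn g3a_countable) hw h
  apply g3a_pole 0 g3a_zero_mem (fun _ => c) analyticAt_const
  filter_upwards [g3a_notMem_near 0] with z hz
  exact h1 hz

theorem g3a_half : (1 / 2 : ℂ) ∉ g3aS := by
  have h := g3aL.ω₁_div_two_notMem_lattice
  exact h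

theorem g3a_hasDerivP (z : ℂ) (hz : z ∉ g3aS) : HasDerivAt g3aP (g3aQ z) z := by
  rw [← g3a_derivP]
  exact (g3a_anP z hz).differentiableAt.hasDerivAt

theorem g3a_ode1 (z : ℂ) (hz : z ∉ g3aS) :
    g3aQ z * (2 * deriv g3aQ z - (12 * g3aP z ^ 2 - g3aL.g₂)) = 0 := by
  have hP := g3a_hasDerivP z hz
  have hQ : HasDerivAt g3aQ (deriv g3aQ z) z := (g3a_anQ z hz).differentiableAt.hasDerivAt
  have h1 : HasDerivAt (fun y => g3aQ y ^ 2) _ z := hQ.pow 2
  have h2 : HasDerivAt (fun y => 4 * g3aP y ^ 3 - g3aL.g₂ * g3aP y - g3aL.g₃) _ z :=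
    (((hP.pow 3).const_mul 4).sub (hP.const_mul g3aL.g₂)).sub_const g3aL.g₃
  have h3 : (fun y => g3aQ y ^ 2) =ᶠ[𝓝 z] fun y => 4 * g3aP y ^ 3 - g3aL.g₂ * g3aP y - g3aL.g₃ := by
    filter_upwards [g3a_closed.isOpen_compl.mem_nhds hz] with y hy
    exact g3aL.derivWeierstrassP_sq y hy
  have h4 := (h1.congr_of_eventuallyEq h3.symm).unique h2
  simp only [Nat.cast_ofNat, Nat.add_one_sub_one, pow_one] at h4
  linear_combination h4

theorem g3a_ode2 (z : ℂ) (hz : z ∉ g3aS) :
    deriv g3aQ z = 6 * g3aP z ^ 2 - g3aL.g₂ / 2 := by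
  have hF : AnalyticOnNhd ℂ (fun y => 2 * deriv g3aQ y - (12 * g3aP y ^ 2 - g3aL.g₂)) g3aSᶜ := by
    intro y hy
    have h1 := (g3a_anQ y hy).deriv
    have h2 := g3a_anP y hy
    fun_prop
  rcases AnalyticOnNhd.eq_zero_or_eq_zero_of_mul_eq_zero g3a_anQ hF (fun y hy => g3a_ode1 y hy)
    (g3a_preconn g3a_countable) with h | h
  · exfalso
    obtain ⟨a, ha⟩ := g3a_closed.isOpen_compl.exists_is_const_of_deriv_eq_zero
      (g3a_preconn g3a_countable) (f := g3aP) (fun y hy => (g3a_anP y hy).differentiableAt.differentiableWithinAt)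
      (by rw [g3a_derivP]; exact h)
    apply g3a_nonconst (1 / 2) g3a_half a
    filter_upwards [g3a_closed.isOpen_compl.mem_nhds g3a_half] with y hy
    exact ha y hy
  · have h1 := h z hz
    linear_combination h1 / 2

theorem g3a_uniq (a : ℂ) (f g : ℂ → ℂ) (w : ℂ) (hf : AnalyticAt ℂ f w) (hg : AnalyticAt ℂ g w)
    (hf2 : ∀ᶠ z in 𝓝 w, deriv (deriv f) z = 6 * f z ^ 2 - a)
    (hg2 : ∀ᶠ z in 𝓝 w, deriv (deriv g) z = 6 * g z ^ 2 - a)
    (h0 : f w = g w) (h1 : deriv f w = deriv g w) : f =ᶠ[𝓝 w] g := by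
  set h : ℂ → ℂ := fun z => f z - g z with hh
  have hha : AnalyticAt ℂ h w := hf.sub hg
  have e1 : deriv h =ᶠ[𝓝 w] fun z => deriv f z - deriv g z := by
    filter_upwards [hf.eventually_analyticAt, hg.eventually_analyticAt] with z hz hz'
    exact deriv_fun_sub hz.differentiableAt hz'.differentiableAt
  have e2 : deriv (deriv h) =ᶠ[𝓝 w] fun z => deriv (deriv f) z - deriv (deriv g) z := by
    refine e1.deriv.trans ?_
    filter_upwards [hf.eventually_analyticAt, hg.eventually_analyticAt] with z hz hz'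
    exact deriv_fun_sub hz.deriv.differentiableAt hz'.deriv.differentiableAt
  have e3 : deriv (deriv h) =ᶠ[𝓝 w] (fun z => 6 * (f z + g z)) * h := by
    refine e2.trans ?_
    filter_upwards [hf2, hg2] with z hz hz'
    rw [hz, hz', Pi.mul_apply, hh]
    ring
  have hk : AnalyticAt ℂ (fun z => 6 * (f z + g z)) w := by fun_prop
  have o1 := hha.analyticOrderAt_deriv_add_one
  have o2 := hha.deriv.analyticOrderAt_deriv_add_one
  have z0 : h w = 0 := by rw [hh]; exact sub_eq_zero.mpr h0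
  have z1 : deriv h w = 0 := by rw [e1.eq_of_nhds]; exact sub_eq_zero.mpr h1
  rw [z0] at o1
  rw [z1] at o2
  simp only [sub_zero] at o1 o2
  have o3 := analyticOrderAt_congr e3
  rw [analyticOrderAt_mul hk hha] at o3
  have htop : analyticOrderAt h w = ⊤ := by
    change analyticOrderAt (deriv h) w + 1 = analyticOrderAt h w at o1
    change analyticOrderAt (deriv (deriv h)) w + 1 = analyticOrderAt (deriv h) w at o2
    by_contra hne
    rw [← o1, ← o2] at o3 hne
    generalize analyticOrderAt (deriv (deriv h)) w = x at o3 hne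
    generalize analyticOrderAt (fun z => 6 * (f z + g z)) w = y at o3
    cases x with
    | top => exact hne rfl
    | coe x =>
      cases y with
      | top => simp at o3
      | coe y =>
        norm_cast at o3
        omega
  rw [analyticOrderAt_eq_top] at htop
  filter_upwards [htop] with z hz
  exact sub_eq_zero.mp hz

theorem g3a_ode2_ev (w : ℂ) (hw : w ∉ g3aS) :
    ∀ᶠ z in 𝓝 w, deriv (deriv g3aP) z = 6 * g3aP z ^ 2 - g3aL.g₂ / 2 := by
  rw [g3a_derivP]
  filter_upwards [g3a_closed.isOpen_compl.mem_nhds hw] with z hz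
  exact g3a_ode2 z hz

/-- no common zeros of the first two derivatives -/
theorem g3a_immersed (w : ℂ) (hw : w ∉ g3aS) (h1 : g3aQ w = 0) (h2 : deriv g3aQ w = 0) :
    False := by
  apply g3a_nonconst w hw (g3aP w)
  apply g3a_uniq (g3aL.g₂ / 2) g3aP (fun _ => g3aP w) w (g3a_anP w hw) analyticAt_const
    (g3a_ode2_ev w hw)
  · have h3 := g3a_ode2 w hw
    rw [h2] at h3
    apply Filter.Eventually.of_forall
    intro z
    simp [← h3]
  · rfl
  · rw [g3a_derivP, h1]
    simp

theorem g3a_sep (w w' : ℂ) (hw : w ∉ g3aS) (hw' : w' ∉ g3aS) (h0 : g3aP w = g3aP w')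
    (h1 : g3aQ w = g3aQ w') : w' - w ∈ g3aS := by
  by_contra hd
  set δ := w' - w with hδ
  have hwδ : w + δ = w' := by rw [hδ]; ring
  have hga : ∀ z, z + δ ∉ g3aS → AnalyticAt ℂ (fun z => g3aP (z + δ)) z := by
    intro z hz
    exact AnalyticAt.fun_comp (g3a_anP _ hz) (by fun_prop)
  have hd1 : deriv (fun z => g3aP (z + δ)) = fun z => g3aQ (z + δ) := by
    funext z
    rw [deriv_comp_add_const, g3a_derivP]
  have hd2 : deriv (fun z => g3aQ (z + δ)) = fun z => deriv g3aQ (z + δ) := by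
    funext z
    rw [deriv_comp_add_const]
  have hnear : ∀ z, z + δ ∉ g3aS → ∀ᶠ y in 𝓝 z, y + δ ∉ g3aS := by
    intro z hz
    have hc : ContinuousAt (fun y : ℂ => y + δ) z := by fun_prop
    exact hc.eventually (g3a_closed.isOpen_compl.mem_nhds hz)
  have heq : g3aP =ᶠ[𝓝 w] fun z => g3aP (z + δ) := by
    apply g3a_uniq (g3aL.g₂ / 2) g3aP (fun z => g3aP (z + δ)) w (g3a_anP w hw)
      (hga w (by rw [hwδ]; exact hw')) (g3a_ode2_ev w hw)
    · rw [hd1, hd2]
      filter_upwards [hnear w (by rw [hwδ]; exact hw')] with z hz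
      exact g3a_ode2 _ hz
    · show g3aP w = g3aP (w + δ)
      rw [hwδ]; exact h0
    · rw [hd1, g3a_derivP]
      show g3aQ w = g3aQ (w + δ)
      rw [hwδ]; exact h1
  -- identity theorem on the complement of a countable set
  have hcount : (g3aS ∪ (fun z => z + δ) ⁻¹' g3aS).Countable := by
    apply g3a_countable.union
    apply g3a_countable.preimage_of_injOn
    exact (add_left_injective δ).injOn
  have hE : Set.EqOn g3aP (fun z => g3aP (z + δ)) (g3aS ∪ (fun z => z + δ) ⁻¹' g3aS)ᶜ := by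
    have k1 : AnalyticOnNhd ℂ g3aP (g3aS ∪ (fun z => z + δ) ⁻¹' g3aS)ᶜ := by
      intro z hz
      exact g3a_anP z (fun h => hz (Or.inl h))
    have k2 : AnalyticOnNhd ℂ (fun z => g3aP (z + δ)) (g3aS ∪ (fun z => z + δ) ⁻¹' g3aS)ᶜ := by
      intro z hz
      exact hga z (fun h => hz (Or.inr h))
    have k3 : w ∈ (g3aS ∪ (fun z => z + δ) ⁻¹' g3aS)ᶜ := by
      rintro (h | h)
      · exact hw h
      · have h2 : w + δ ∈ g3aS := h
        rw [hwδ] at h2
        exact hw' h2
    exact k1.eqOn_of_preconnected_of_eventuallyEq k2 (g3a_preconn hcount) k3 heq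
  have hd0 : (0 : ℂ) + δ ∉ g3aS := by rw [zero_add]; exact hd
  apply g3a_pole 0 g3a_zero_mem (fun z => g3aP (z + δ)) (hga 0 hd0)
  filter_upwards [g3a_notMem_near 0, mem_nhdsWithin_of_mem_nhds (hnear 0 hd0)] with z hz hz2
  apply hE
  rintro (h | h)
  · exact hz h
  · exact hz2 h

open Classical in
/-- the embedding -/
noncomputable def g3aU (w : ℂ) : Fin 3 → ℂ :=
  if w ∈ g3aS then ![0, 0, -2] else ![1, g3aP w, g3aQ w]

theorem g3aU_mem {w : ℂ} (hw : w ∈ g3aS) : g3aU w = ![0, 0, -2] := if_pos hw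

theorem g3aU_notMem {w : ℂ} (hw : w ∉ g3aS) : g3aU w = ![1, g3aP w, g3aQ w] := if_neg hw

theorem g3a_period (l : ℂ) (hl : l ∈ g3aS) (w : ℂ) : g3aU (w + l) = g3aU w := by
  have h1 : w + l ∈ g3aS ↔ w ∈ g3aS := g3aL.lattice.add_mem_iff_left hl
  by_cases hw : w ∈ g3aS
  · rw [g3aU_mem hw, g3aU_mem (h1.mpr hw)]
  · rw [g3aU_notMem hw, g3aU_notMem (fun h => hw (h1.mp h))]
    have h2 : g3aP (w + l) = g3aP w := g3aL.weierstrassP_add_coe w ⟨l, hl⟩
    have h3 : g3aQ (w + l) = g3aQ w := g3aL.derivWeierstrassP_add_coe w ⟨l, hl⟩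
    rw [h2, h3]

theorem g3a_away (w : ℂ) (hw : w ∉ g3aS) (m : ℂ → ℂ) (m' : ℂ) (hm : HasDerivAt m m' w)
    (hm0 : m w ≠ 0) (G : ℂ → Fin 3 → ℂ) (hG : G =ᶠ[𝓝 w] fun z => m z • ![1, g3aP z, g3aQ z])
    (c : ℂ) : deriv G w ≠ c • G w := by
  have hP := g3a_hasDerivP w hw
  have hQ : HasDerivAt g3aQ (deriv g3aQ w) w := (g3a_anQ w hw).differentiableAt.hasDerivAt
  have hH : HasDerivAt (fun z => m z • ![1, g3aP z, g3aQ z])
      ![m', m' * g3aP w + m w * g3aQ w, m' * g3aQ w + m w * deriv g3aQ w] w := by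
    rw [hasDerivAt_pi]
    intro i
    fin_cases i
    · simpa using hm
    · show HasDerivAt (fun z => m z * g3aP z) (m' * g3aP w + m w * g3aQ w) w
      exact hm.mul hP
    · show HasDerivAt (fun z => m z * g3aQ z) (m' * g3aQ w + m w * deriv g3aQ w) w
      exact hm.mul hQ
  intro h
  rw [hG.deriv_eq, hH.deriv, hG.eq_of_nhds] at h
  have c0 := congrFun h 0
  have c1 := congrFun h 1
  have c2 := congrFun h 2
  simp at c0 c1 c2
  have d1 : m w * g3aQ w = 0 := by rw [c0] at c1; linear_combination c1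
  have d2 : m w * deriv g3aQ w = 0 := by rw [c0] at c2; linear_combination c2
  exact g3a_immersed w hw ((mul_eq_zero.mp d1).resolve_left hm0)
    ((mul_eq_zero.mp d2).resolve_left hm0)

theorem g3a_diff_away (w : ℂ) (hw : w ∉ g3aS) : DifferentiableAt ℂ g3aU w := by
  have hP := (g3a_hasDerivP w hw).differentiableAt
  have hQ := (g3a_anQ w hw).differentiableAt
  have h1 : DifferentiableAt ℂ (fun z => ![1, g3aP z, g3aQ z]) w := by
    rw [differentiableAt_pi]
    intro i
    fin_cases i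
    · simp
    · simpa using hP
    · simpa using hQ
  apply h1.congr_of_eventuallyEq
  filter_upwards [g3a_closed.isOpen_compl.mem_nhds hw] with y hy
  exact g3aU_notMem hy

/-- the local model at a pole -/
noncomputable def g3aV (w₀ w : ℂ) : Fin 3 → ℂ :=
  ![(w - w₀) ^ 3, (w - w₀) ^ 3 * g3aL.weierstrassPExcept w₀ w + (w - w₀) - (w - w₀) ^ 3 / w₀ ^ 2,
    (w - w₀) ^ 3 * g3aL.derivWeierstrassPExcept w₀ w - 2]

open Classical in
theorem g3a_local (w₀ : ℂ) (hw₀ : w₀ ∈ g3aS) (w : ℂ) (hw : w ∈ g3aS → w = w₀) :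
    (if w = w₀ then (1 : ℂ) else (w - w₀) ^ 3) • g3aU w = g3aV w₀ w := by
  by_cases h : w = w₀
  · subst h
    rw [if_pos rfl, g3aU_mem hw₀, one_smul]
    unfold g3aV
    simp
  · have hn : w ∉ g3aS := fun h' => h (hw h')
    have h0 : w - w₀ ≠ 0 := sub_ne_zero.mpr h
    rw [if_neg h, g3aU_notMem hn]
    unfold g3aV
    have e1 : g3aP w = g3aL.weierstrassPExcept w₀ w + (1 / (w - w₀) ^ 2 - 1 / w₀ ^ 2) :=
      (g3aL.weierstrassPExcept_add ⟨w₀, hw₀⟩ w).symm
    have e2 : g3aQ w = g3aL.derivWeierstrassPExcept w₀ w - 2 / (w - w₀) ^ 3 :=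
      (g3aL.derivWeierstrassPExcept_sub ⟨w₀, hw₀⟩ w).symm
    rw [e1, e2]
    funext i
    fin_cases i
    · simp
    · simp only [Pi.smul_apply, smul_eq_mul]
      show (w - w₀) ^ 3 * (g3aL.weierstrassPExcept w₀ w + (1 / (w - w₀) ^ 2 - 1 / w₀ ^ 2)) =
        (w - w₀) ^ 3 * g3aL.weierstrassPExcept w₀ w + (w - w₀) - (w - w₀) ^ 3 / w₀ ^ 2
      have : (w - w₀) ^ 3 * (1 / (w - w₀) ^ 2) = w - w₀ := by field_simp
      rw [mul_add, mul_sub, this]
      ring
    · simp only [Pi.smul_apply, smul_eq_mul]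
      show (w - w₀) ^ 3 * (g3aL.derivWeierstrassPExcept w₀ w - 2 / (w - w₀) ^ 3) =
        (w - w₀) ^ 3 * g3aL.derivWeierstrassPExcept w₀ w - 2
      field_simp

theorem g3a_V_diff (w₀ w : ℂ) (hw : w ∈ g3aS → w = w₀) : DifferentiableAt ℂ (g3aV w₀) w := by
  have hmem : w ∈ ((g3aL.lattice : Set ℂ) \ {w₀})ᶜ := by
    rintro ⟨h1, h2⟩
    exact h2 (hw h1)
  have h1 : DifferentiableAt ℂ (g3aL.weierstrassPExcept w₀) w :=
    (g3aL.analyticOnNhd_weierstrassPExcept w₀ w hmem).differentiableAt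
  have h2 : DifferentiableAt ℂ (g3aL.derivWeierstrassPExcept w₀) w :=
    (g3aL.analyticOnNhd_derivWeierstrassPExcept w₀ w hmem).differentiableAt
  unfold g3aV
  rw [differentiableAt_pi]
  intro i
  fin_cases i
  · show DifferentiableAt ℂ (fun w => (w - w₀) ^ 3) w
    fun_prop
  · show DifferentiableAt ℂ (fun w => (w - w₀) ^ 3 * g3aL.weierstrassPExcept w₀ w + (w - w₀) -
      (w - w₀) ^ 3 / w₀ ^ 2) w
    fun_prop
  · show DifferentiableAt ℂ (fun w => (w - w₀) ^ 3 * g3aL.derivWeierstrassPExcept w₀ w - 2) w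
    fun_prop

theorem g3a_V_deriv (w₀ : ℂ) (c : ℂ) : deriv (g3aV w₀) w₀ ≠ c • g3aV w₀ w₀ := by
  have hd := g3a_V_diff w₀ w₀ (fun _ => rfl)
  have h1 : HasDerivAt (g3aL.weierstrassPExcept w₀) (deriv (g3aL.weierstrassPExcept w₀) w₀) w₀ :=
    (g3aL.analyticAt_weierstrassPExcept w₀).differentiableAt.hasDerivAt
  have h2 := (hasDerivAt_pi.mp hd.hasDerivAt) 1
  have h3 : HasDerivAt (fun w => g3aV w₀ w 1) 1 w₀ := by
    show HasDerivAt (fun w => (w - w₀) ^ 3 * g3aL.weierstrassPExcept w₀ w + (w - w₀) -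
      (w - w₀) ^ 3 / w₀ ^ 2) 1 w₀
    have a1 : HasDerivAt (fun w : ℂ => w - w₀) 1 w₀ := (hasDerivAt_id w₀).sub_const w₀
    have a2 := a1.pow 3
    have a3 := ((a2.mul h1).add a1).sub (a2.div_const (w₀ ^ 2))
    refine a3.congr_deriv ?_
    simp
  intro h
  have h4 := h2.unique h3
  rw [h] at h4
  simp [g3aV] at h4

/-- TO PROVE -/
theorem exists_U : ∃ U : ℂ → Fin 3 → ℂ, (∀ w, U w ≠ 0) ∧ (∀ w, U (w + 1) = U w) ∧
    (∀ w, U (w + Complex.I) = U w) ∧
    (∀ (w w' c : ℂ), U w = c • U w' → ∃ m n : ℤ, w = w' + m + n * Complex.I) ∧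
    ∀ w₀ : ℂ, ∃ r : ℝ, 0 < r ∧ ∃ l : ℂ → ℂ, (∀ w ∈ Metric.ball w₀ r, l w ≠ 0) ∧
      DifferentiableOn ℂ (fun w => l w • U w) (Metric.ball w₀ r) ∧
      ∀ w ∈ Metric.ball w₀ r, ∀ c : ℂ, deriv (fun w => l w • U w) w ≠ c • (l w • U w) := by
  classical
  have hlat : ∀ w w' : ℂ, w' - w ∈ g3aS → ∃ m n : ℤ, w = w' + m + n * Complex.I := by
    intro w w' h
    have h' : w' - w ∈ g3aL.lattice := h
    obtain ⟨m, n, hmn⟩ := PeriodPair.mem_lattice.mp h'
    refine ⟨-m, -n, ?_⟩
    have e1 : g3aL.ω₁ = 1 := rfl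
    have e2 : g3aL.ω₂ = Complex.I := rfl
    rw [e1, e2] at hmn
    push_cast
    linear_combination hmn
  refine ⟨g3aU, ?_, ?_, ?_, ?_, ?_⟩
  · intro w h
    by_cases hw : w ∈ g3aS
    · rw [g3aU_mem hw] at h
      have := congrFun h 2
      simp at this
    · rw [g3aU_notMem hw] at h
      have := congrFun h 0
      simp at this
  · intro w
    exact g3a_period 1 g3aL.ω₁_mem_lattice w
  · intro w
    exact g3a_period Complex.I g3aL.ω₂_mem_lattice w
  · intro w w' c h
    apply hlat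
    by_cases hw' : w' ∈ g3aS
    · have hw : w ∈ g3aS := by
        by_contra hw
        rw [g3aU_notMem hw, g3aU_mem hw'] at h
        have := congrFun h 0
        simp at this
      exact g3aL.lattice.sub_mem hw' hw
    · rw [g3aU_notMem hw'] at h
      have hw : w ∉ g3aS := by
        intro hw
        rw [g3aU_mem hw] at h
        have h0 := congrFun h 0
        have h2 := congrFun h 2
        simp at h0 h2
        rw [← h0] at h2
        simp at h2
      rw [g3aU_notMem hw] at h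
      have h0 := congrFun h 0
      have h1 := congrFun h 1
      have h2 := congrFun h 2
      simp at h0 h1 h2
      rw [← h0, one_mul] at h1 h2
      exact g3a_sep w w' hw hw' h1 h2
  · intro w₀
    by_cases hw₀ : w₀ ∈ g3aS
    · obtain ⟨r, hr, hball⟩ := Metric.mem_nhds_iff.mp
        (g3aL.compl_lattice_sdiff_singleton_mem_nhds w₀)
      have hb : ∀ w ∈ Metric.ball w₀ r, w ∈ g3aS → w = w₀ := by
        intro w hw hwS
        by_contra hne
        exact hball hw ⟨hwS, hne⟩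
      have hEq : ∀ w ∈ Metric.ball w₀ r,
          (if w = w₀ then (1 : ℂ) else (w - w₀) ^ 3) • g3aU w = g3aV w₀ w :=
        fun w hw => g3a_local w₀ hw₀ w (hb w hw)
      refine ⟨r, hr, fun w => if w = w₀ then 1 else (w - w₀) ^ 3, ?_, ?_, ?_⟩
      · intro w _
        show (if w = w₀ then (1 : ℂ) else (w - w₀) ^ 3) ≠ 0
        split_ifs with h
        · exact one_ne_zero
        · exact pow_ne_zero _ (sub_ne_zero.mpr h)
      · have hV : DifferentiableOn ℂ (g3aV w₀) (Metric.ball w₀ r) :=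
          fun w hw => (g3a_V_diff w₀ w (hb w hw)).differentiableWithinAt
        exact hV.congr hEq
      · intro w hw c
        by_cases h : w = w₀
        · subst h
          have he : (fun z => (if z = w then (1 : ℂ) else (z - w) ^ 3) • g3aU z) =ᶠ[𝓝 w] g3aV w := by
            filter_upwards [Metric.ball_mem_nhds w hr] with z hz
            exact hEq z hz
          show deriv (fun z => (if z = w then (1 : ℂ) else (z - w) ^ 3) • g3aU z) w ≠
            c • ((if w = w then (1 : ℂ) else (w - w) ^ 3) • g3aU w)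
          rw [he.deriv_eq, hEq w (Metric.mem_ball_self hr)]
          exact g3a_V_deriv w c
        · have hn : w ∉ g3aS := fun h' => h (hb w hw h')
          have hm : HasDerivAt (fun z : ℂ => (z - w₀) ^ 3) (3 * (w - w₀) ^ 2) w := by
            have a1 : HasDerivAt (fun z : ℂ => z - w₀) 1 w := (hasDerivAt_id w).sub_const w₀
            have a2 := a1.pow 3
            refine a2.congr_deriv ?_
            simp
          apply g3a_away w hn (fun z => (z - w₀) ^ 3) _ hm (pow_ne_zero _ (sub_ne_zero.mpr h))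
            (fun z => (if z = w₀ then (1 : ℂ) else (z - w₀) ^ 3) • g3aU z)
          filter_upwards [g3a_closed.isOpen_compl.mem_nhds hn, isOpen_ne.mem_nhds h] with z hz hz2
          show (if z = w₀ then (1 : ℂ) else (z - w₀) ^ 3) • g3aU z = _
          rw [if_neg hz2, g3aU_notMem hz]
    · obtain ⟨r, hr, hball⟩ := Metric.mem_nhds_iff.mp (g3a_closed.isOpen_compl.mem_nhds hw₀)
      refine ⟨r, hr, fun _ => 1, fun _ _ => one_ne_zero, ?_, ?_⟩
      · intro w hw
        have := (g3a_diff_away w (hball hw)).differentiableWithinAt (s := Metric.ball w₀ r)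
        simpa using this
      · intro w hw c
        have hn := hball hw
        apply g3a_away w hn (fun _ => 1) 0 (hasDerivAt_const w (1 : ℂ)) one_ne_zero
          (fun z => (1 : ℂ) • g3aU z)
        filter_upwards [g3a_closed.isOpen_compl.mem_nhds hn] with z hz
        show (1 : ℂ) • g3aU z = _
        rw [g3aU_notMem hz]

end Pool.Agent.Helper922.HB
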