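import Pool.Agent.Helper922.HB.EmbDefs
import Pool.Agent.Helper922.HB.G1

/-! The parametrisation of the twisted product is a quotient map. -/

open scoped LinearAlgebra.Projectivization Topology

namespace Pool.Agent.Helper922.HB

universe u v



theorem qKaux_continuous_lam : Continuous lam := by
  unfold lam
  fun_prop

theorem qKaux_actV_actV (l m : ℂ) (h : l * m = 1) (v : Fin 3 → ℂ) : actV l (actV m v) = v := by
  funext i
  fin_cases i
  · simp only [actV, Matrix.cons_val_zero, Matrix.cons_val_one, Matrix.cons_val]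
    change l ^ 2 * (m ^ 2 * v 0) = v 0
    linear_combination (l * m + 1) * v 0 * h
  · simp only [actV, Matrix.cons_val_zero, Matrix.cons_val_one, Matrix.cons_val]
    change l ^ 3 * (m ^ 3 * v 1) = v 1
    linear_combination ((l * m) ^ 2 + l * m + 1) * v 1 * h
  · rfl

theorem qKaux_continuous_actV {X : Type u} [TopologicalSpace X] {f : X → ℂ} {g : X → Fin 3 → ℂ}
    (hf : Continuous f) (hg : Continuous g) : Continuous fun x => actV (f x) (g x) := by
  unfold actV
  refine continuous_pi fun i => ?_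
  have h := fun j => (continuous_apply j).comp hg
  fin_cases i
  · exact (hf.pow 2).mul (h 0)
  · exact (hf.pow 3).mul (h 1)
  · exact h 2

/-- the twisting homeomorphism of the parameter space -/
noncomputable def qKaux_tw : E0 ≃ₜ E0 where
  toFun p := ⟨(p.1.1, lam p.1.1 ^ 6 * p.1.2.1, actV (lam p.1.1) p.1.2.2),
    actV_ne _ (lam_ne _) _ p.2.1, Wei_act _ _ _ p.2.2⟩
  invFun p := ⟨(p.1.1, (lam p.1.1)⁻¹ ^ 6 * p.1.2.1, actV (lam p.1.1)⁻¹ p.1.2.2),
    actV_ne _ (inv_ne_zero (lam_ne _)) _ p.2.1, Wei_act _ _ _ p.2.2⟩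
  left_inv p := by
    apply Subtype.ext
    refine Prod.ext rfl (Prod.ext ?_ ?_)
    · change (lam p.1.1)⁻¹ ^ 6 * (lam p.1.1 ^ 6 * p.1.2.1) = p.1.2.1
      have := lam_ne p.1.1
      field_simp
    · exact qKaux_actV_actV _ _ (inv_mul_cancel₀ (lam_ne _)) _
  right_inv p := by
    apply Subtype.ext
    refine Prod.ext rfl (Prod.ext ?_ ?_)
    · change lam p.1.1 ^ 6 * ((lam p.1.1)⁻¹ ^ 6 * p.1.2.1) = p.1.2.1
      have := lam_ne p.1.1
      field_simp
    · exact qKaux_actV_actV _ _ (mul_inv_cancel₀ (lam_ne _)) _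
  continuous_toFun := by
    have hl : Continuous fun p : E0 => lam p.1.1 :=
      qKaux_continuous_lam.comp (continuous_fst.comp continuous_subtype_val)
    refine Continuous.subtype_mk (Continuous.prodMk (by fun_prop) (Continuous.prodMk ?_ ?_)) _
    · exact (hl.pow 6).mul (by fun_prop)
    · exact qKaux_continuous_actV hl (by fun_prop)
  continuous_invFun := by
    have hl : Continuous fun p : E0 => (lam p.1.1)⁻¹ :=
      (qKaux_continuous_lam.comp (continuous_fst.comp continuous_subtype_val)).inv₀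
        (fun _ => lam_ne _)
    refine Continuous.subtype_mk (Continuous.prodMk (by fun_prop) (Continuous.prodMk ?_ ?_)) _
    · exact (hl.pow 6).mul (by fun_prop)
    · exact qKaux_continuous_actV hl (by fun_prop)

/-- projectivise the fibre coordinate -/
noncomputable def qKaux_pr (p : E0) : ℂ × CC :=
  (p.1.1, ⟨(p.1.2.1, Projectivization.mk ℂ p.1.2.2 p.2.1), (mem_CC _ _ _).mpr p.2.2⟩)

theorem qKaux_pr_oq : IsOpenQuotientMap qKaux_pr := by
  have hF : IsOpenQuotientMap (fun x : ℂ × ℂ × {v : Fin 3 → ℂ // v ≠ 0} =>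
      ((x.1, x.2.1, Projectivization.mk ℂ x.2.2.1 x.2.2.2) : ℂ × ℂ × ℙ ℂ (Fin 3 → ℂ))) := by
    have := (IsOpenQuotientMap.id (X := ℂ)).prodMap
      ((IsOpenQuotientMap.id (X := ℂ)).prodMap (isOpenQuotientMap_mk (ι := Fin 3)))
    exact this
  refine ⟨?_, ?_, ?_⟩
  · rintro ⟨w, ⟨⟨t, P⟩, hP⟩⟩
    obtain ⟨⟨w', t', v⟩, hv⟩ := hF.surjective (w, t, P)
    simp only [Prod.mk.injEq] at hv
    obtain ⟨rfl, rfl, rfl⟩ := hv
    exact ⟨⟨(w', t', v.1), v.2, (mem_CC _ _ _).mp hP⟩, rfl⟩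
  · refine Continuous.prodMk (by fun_prop) (Continuous.subtype_mk ?_ _)
    have h1 : Continuous fun p : E0 =>
        ((p.1.1, p.1.2.1, ⟨p.1.2.2, p.2.1⟩) : ℂ × ℂ × {v : Fin 3 → ℂ // v ≠ 0}) := by
      fun_prop
    exact continuous_snd.comp (hF.continuous.comp h1)
  · intro U hU
    obtain ⟨U', hU', rfl⟩ := isOpen_induced_iff.mp hU
    have h1 : IsOpen ((fun x : ℂ × ℂ × {v : Fin 3 → ℂ // v ≠ 0} => (x.1, x.2.1, x.2.2.1)) ⁻¹' U') :=
      hU'.preimage (by fun_prop)
    have h2 := hF.isOpenMap _ h1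
    have h3 : Continuous fun x : ℂ × CC => ((x.1, x.2.1.1, x.2.1.2) : ℂ × ℂ × ℙ ℂ (Fin 3 → ℂ)) := by
      fun_prop
    have h4 := h2.preimage h3
    convert h4 using 1
    ext ⟨w, ⟨⟨t, P⟩, hP⟩⟩
    constructor
    · rintro ⟨p, hp, hpe⟩
      refine ⟨(p.1.1, p.1.2.1, ⟨p.1.2.2, p.2.1⟩), hp, ?_⟩
      have e1 := congrArg Prod.fst hpe
      have e2 := congrArg (fun x : ℂ × CC => x.2.1.1) hpe
      have e3 := congrArg (fun x : ℂ × CC => x.2.1.2) hpe
      exact Prod.ext e1 (Prod.ext e2 e3)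
    · rintro ⟨⟨w', t', v⟩, hx, hv⟩
      simp only [Prod.mk.injEq] at hv
      obtain ⟨rfl, rfl, rfl⟩ := hv
      exact ⟨⟨(w', t', v.1), v.2, (mem_CC _ _ _).mp hP⟩, hx, rfl⟩

theorem qKaux_exp_oq : IsOpenQuotientMap (fun x : ℝ => Circle.exp (2 * Real.pi * x)) := by
  have h1 : IsOpenQuotientMap (Circle.exp : ℝ → Circle) :=
    ⟨by
      intro z
      exact ⟨Complex.arg z, Circle.exp_arg z⟩, Circle.exp.continuous, isLocalHomeomorph_circleExp.isOpenMap⟩
  have h2 : (2 * Real.pi : ℝ) ≠ 0 := by positivity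
  exact h1.comp (Homeomorph.mulLeft₀ _ h2).isOpenQuotientMap

theorem qKaux_E_oq : IsOpenQuotientMap
    (fun w : ℂ => ((Circle.exp (2 * Real.pi * w.im), Circle.exp (2 * Real.pi * w.re)) :
      Circle × Circle)) := by
  have h1 := (qKaux_exp_oq.prodMap qKaux_exp_oq).comp
    ((Homeomorph.prodComm ℝ ℝ).isOpenQuotientMap.comp
      (Complex.equivRealProdCLM.toHomeomorph).isOpenQuotientMap)
  exact h1

theorem qKaux_oq : IsOpenQuotientMap qK := by
  have h3 : IsOpenQuotientMap (fun x : ℂ × CC =>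
      ((Circle.exp (2 * Real.pi * x.1.im), Circle.exp (2 * Real.pi * x.1.re), x.2) : KK)) := by
    have := (Homeomorph.prodAssoc Circle Circle CC).isOpenQuotientMap.comp
      (qKaux_E_oq.prodMap (IsOpenQuotientMap.id (X := CC)))
    exact this
  exact (h3.comp qKaux_pr_oq).comp qKaux_tw.isOpenQuotientMap

/-- TO PROVE -/
theorem surjective_qK : Function.Surjective qK := qKaux_oq.surjective

/-- TO PROVE -/
theorem continuous_qK : Continuous qK := qKaux_oq.continuous

/-- TO PROVE -/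
theorem isQuotientMap_qK : Topology.IsQuotientMap qK := qKaux_oq.isQuotientMap

end Pool.Agent.Helper922.HB
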