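import Pool.Agent.Helper922.HB.G4b
import Pool.Agent.Helper922.HB.G2

/-! Local parametrisations of the twisted product. -/

open scoped LinearAlgebra.Projectivization Topology

namespace Pool.Agent.Helper922.HB



theorem isOpenEmbedding_loc_lam_cont : Continuous lam := by
  unfold lam
  fun_prop

theorem isOpenEmbedding_loc_lam_norm (w : ℂ) : ‖lam w‖ = 1 := by
  unfold lam
  rw [← Complex.ofReal_neg, Complex.norm_exp_ofReal_mul_I]

theorem isOpenEmbedding_loc_aux (a b r : ℝ) (hr : r ≤ 1 / 2) (hab : |a - b| < 2 * r)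
    (h : Circle.exp (2 * Real.pi * a) = Circle.exp (2 * Real.pi * b)) : a = b := by
  obtain ⟨m, hm⟩ := Circle.exp_eq_exp.1 h
  have h1 : a = b + m := by
    have hpi := Real.pi_pos
    have h2 : 2 * Real.pi * a = 2 * Real.pi * (b + m) := by rw [hm]; ring
    exact mul_left_cancel₀ (by positivity) h2
  have h2 : |(m : ℝ)| < 1 := by
    have : a - b = m := by rw [h1]; ring
    rw [← this]; linarith
  have h3 : |m| < 1 := by exact_mod_cast h2
  have h4 : m = 0 := by
    rw [abs_lt] at h3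
    omega
  rw [h1, h4]; simp

theorem isOpenEmbedding_loc_E (w₀ : ℂ) (r : ℝ) (hr : r ≤ 1 / 2) :
    Topology.IsOpenEmbedding (fun w : Metric.ball w₀ r =>
      ((Circle.exp (2 * Real.pi * w.1.im), Circle.exp (2 * Real.pi * w.1.re)) :
        Circle × Circle)) := by
  refine Topology.IsOpenEmbedding.of_continuous_injective_isOpenMap ?_ ?_ ?_
  · refine Continuous.prodMk ?_ ?_
    · exact Circle.exp.continuous.comp
        (continuous_const.mul (Complex.continuous_im.comp continuous_subtype_val))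
    · exact Circle.exp.continuous.comp
        (continuous_const.mul (Complex.continuous_re.comp continuous_subtype_val))
  · intro w w' h
    have h1 := (Prod.mk.inj h).1
    have h2 := (Prod.mk.inj h).2
    have hd : ‖w.1 - w'.1‖ < 2 * r := by
      have ha := w.2
      have hb := w'.2
      rw [Metric.mem_ball] at ha hb
      have : dist w.1 w'.1 ≤ dist w.1 w₀ + dist w₀ w'.1 := dist_triangle _ _ _
      rw [dist_comm w₀] at this
      rw [← dist_eq_norm]
      linarith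
    apply Subtype.ext
    apply Complex.ext
    · refine isOpenEmbedding_loc_aux _ _ r hr ?_ h2
      rw [← Complex.sub_re]
      exact lt_of_le_of_lt (Complex.abs_re_le_norm _) hd
    · refine isOpenEmbedding_loc_aux _ _ r hr ?_ h1
      rw [← Complex.sub_im]
      exact lt_of_le_of_lt (Complex.abs_im_le_norm _) hd
  · have hpi : (2 * Real.pi : ℝ) ≠ 0 := by positivity
    have hexp : IsOpenMap (fun t : ℝ => Circle.exp (2 * Real.pi * t)) :=
      isLocalHomeomorph_circleExp.isOpenMap.comp (Homeomorph.mulLeft₀ (2 * Real.pi) hpi).isOpenMap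
    have h1 : IsOpenMap (fun w : ℂ => ((Circle.exp (2 * Real.pi * w.im),
        Circle.exp (2 * Real.pi * w.re)) : Circle × Circle)) := by
      have h2 : IsOpenMap (Prod.map (fun t : ℝ => Circle.exp (2 * Real.pi * t))
        (fun t : ℝ => Circle.exp (2 * Real.pi * t))) := hexp.prodMap hexp
      exact (h2.comp (Homeomorph.prodComm ℝ ℝ).isOpenMap).comp
        Complex.equivRealProdCLM.toHomeomorph.isOpenMap
    exact h1.comp Metric.isOpen_ball.isOpenMap_subtype_val

/-- TO PROVE -/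
theorem isOpenEmbedding_loc1 (w₀ : ℂ) (r : ℝ) (hr : r ≤ 1 / 2) :
    Topology.IsOpenEmbedding (fun p : {p : Fin 3 → ℂ // p 0 ∈ Metric.ball w₀ r} =>
      eK (p.1 0) (p.1 2 ^ 2 - p.1 1 ^ 3) ![p.1 1, p.1 2, 1] (vec1_ne _ _) (Wei1 _ _)) := by
  have hlc := isOpenEmbedding_loc_lam_cont
  obtain ⟨H, hH⟩ : ∃ H : {p : Fin 3 → ℂ // p 0 ∈ Metric.ball w₀ r} ≃ₜ
      (Metric.ball w₀ r) × (ℂ × ℂ), ∀ p, H p = (⟨p.1 0, p.2⟩,
        (lam (p.1 0) ^ 2 * p.1 1, lam (p.1 0) ^ 3 * p.1 2)) := by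
    refine ⟨{
      toFun := fun p => (⟨p.1 0, p.2⟩, (lam (p.1 0) ^ 2 * p.1 1, lam (p.1 0) ^ 3 * p.1 2))
      invFun := fun a => ⟨![a.1.1, (lam a.1.1)⁻¹ ^ 2 * a.2.1, (lam a.1.1)⁻¹ ^ 3 * a.2.2], a.1.2⟩
      left_inv := ?_
      right_inv := ?_
      continuous_toFun := ?_
      continuous_invFun := ?_ }, fun p => rfl⟩
    · intro p
      apply Subtype.ext
      have hl := lam_ne (p.1 0)
      funext i
      fin_cases i
      · rfl
      · show (lam (p.1 0))⁻¹ ^ 2 * (lam (p.1 0) ^ 2 * p.1 1) = p.1 1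
        field_simp
      · show (lam (p.1 0))⁻¹ ^ 3 * (lam (p.1 0) ^ 3 * p.1 2) = p.1 2
        field_simp
    · rintro ⟨⟨w, hw⟩, x, y⟩
      have hl := lam_ne w
      refine Prod.ext (Subtype.ext rfl) (Prod.ext ?_ ?_)
      · show lam w ^ 2 * ((lam w)⁻¹ ^ 2 * x) = x
        field_simp
      · show lam w ^ 3 * ((lam w)⁻¹ ^ 3 * y) = y
        field_simp
    · have h0 : Continuous (fun p : {p : Fin 3 → ℂ // p 0 ∈ Metric.ball w₀ r} => p.1 0) :=
        (continuous_apply 0).comp continuous_subtype_val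
      have h1 : Continuous (fun p : {p : Fin 3 → ℂ // p 0 ∈ Metric.ball w₀ r} => p.1 1) :=
        (continuous_apply 1).comp continuous_subtype_val
      have h2 : Continuous (fun p : {p : Fin 3 → ℂ // p 0 ∈ Metric.ball w₀ r} => p.1 2) :=
        (continuous_apply 2).comp continuous_subtype_val
      exact (h0.subtype_mk _).prodMk ((((hlc.comp h0).pow 2).mul h1).prodMk
        (((hlc.comp h0).pow 3).mul h2))
    · refine Continuous.subtype_mk ?_ _
      have h0 : Continuous (fun a : (Metric.ball w₀ r) × (ℂ × ℂ) => a.1.1) :=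
        continuous_subtype_val.comp continuous_fst
      have hli : Continuous (fun a : (Metric.ball w₀ r) × (ℂ × ℂ) => (lam a.1.1)⁻¹) :=
        (hlc.comp h0).inv₀ (fun a => lam_ne _)
      refine continuous_pi fun i => ?_
      fin_cases i
      · exact h0
      · exact (hli.pow 2).mul (continuous_fst.comp continuous_snd)
      · exact (hli.pow 3).mul (continuous_snd.comp continuous_snd)
  have h1 := (Homeomorph.prodAssoc Circle Circle CC).isOpenEmbedding.comp
    (((isOpenEmbedding_loc_E w₀ r hr).prodMap isOpenEmbedding_c1).comp H.isOpenEmbedding)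
  have h2 : (fun p : {p : Fin 3 → ℂ // p 0 ∈ Metric.ball w₀ r} =>
      eK (p.1 0) (p.1 2 ^ 2 - p.1 1 ^ 3) ![p.1 1, p.1 2, 1] (vec1_ne _ _) (Wei1 _ _)) =
      (Homeomorph.prodAssoc Circle Circle CC) ∘ (Prod.map (fun w : Metric.ball w₀ r =>
      ((Circle.exp (2 * Real.pi * w.1.im), Circle.exp (2 * Real.pi * w.1.re)) :
        Circle × Circle)) c1 ∘ H) := by
    funext p
    rw [eK_c1]
    show _ = (Homeomorph.prodAssoc Circle Circle CC) (Prod.map (fun w : Metric.ball w₀ r =>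
      ((Circle.exp (2 * Real.pi * w.1.im), Circle.exp (2 * Real.pi * w.1.re)) :
        Circle × Circle)) c1 (H p))
    rw [hH]
    rfl
  rw [h2]
  exact h1

/-- TO PROVE -/
theorem isOpenEmbedding_loc2 (w₀ : ℂ) (r : ℝ) (hr : r ≤ 1 / 2) :
    Topology.IsOpenEmbedding (fun p : {p : Fin 3 → ℂ //
        p 0 ∈ Metric.ball w₀ r ∧ ((p 1, p 2) : ℂ × ℂ) ∈ W2} =>
      eK (p.1 0) (p.1 2) ![p.1 1, rt (p.1 1) (p.1 2), p.1 1 ^ 3] (vec2_ne _ _ p.2.2)
        (Wei2 _ _)) := by
  have hlc := isOpenEmbedding_loc_lam_cont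
  have hW : ∀ (w s t : ℂ), ((s, t) : ℂ × ℂ) ∈ W2 →
      ((lam w * s, (lam w)⁻¹ ^ 6 * t) : ℂ × ℂ) ∈ W2 := by
    intro w s t h
    have h' : ‖t‖ * ‖s‖ ^ 6 < 1 := h
    show ‖(lam w)⁻¹ ^ 6 * t‖ * ‖lam w * s‖ ^ 6 < 1
    rw [norm_mul, norm_mul, norm_pow, norm_inv, isOpenEmbedding_loc_lam_norm]
    simpa using h'
  obtain ⟨H, hH⟩ : ∃ H : {p : Fin 3 → ℂ // p 0 ∈ Metric.ball w₀ r ∧ ((p 1, p 2) : ℂ × ℂ) ∈ W2} ≃ₜ
      (Metric.ball w₀ r) × W2, ∀ p, H p = (⟨p.1 0, p.2.1⟩,
        ⟨((lam (p.1 0))⁻¹ * p.1 1, lam (p.1 0) ^ 6 * p.1 2), lam_mem_W2 _ _ _ p.2.2⟩) := by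
    refine ⟨{
      toFun := fun p => (⟨p.1 0, p.2.1⟩,
        ⟨((lam (p.1 0))⁻¹ * p.1 1, lam (p.1 0) ^ 6 * p.1 2), lam_mem_W2 _ _ _ p.2.2⟩)
      invFun := fun a => ⟨![a.1.1, lam a.1.1 * a.2.1.1, (lam a.1.1)⁻¹ ^ 6 * a.2.1.2],
        a.1.2, hW _ _ _ a.2.2⟩
      left_inv := ?_
      right_inv := ?_
      continuous_toFun := ?_
      continuous_invFun := ?_ }, fun p => rfl⟩
    · intro p
      apply Subtype.ext
      have hl := lam_ne (p.1 0)
      funext i
      fin_cases i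
      · rfl
      · show lam (p.1 0) * ((lam (p.1 0))⁻¹ * p.1 1) = p.1 1
        field_simp
      · show (lam (p.1 0))⁻¹ ^ 6 * (lam (p.1 0) ^ 6 * p.1 2) = p.1 2
        field_simp
    · rintro ⟨⟨w, hw⟩, ⟨⟨x, y⟩, hxy⟩⟩
      have hl := lam_ne w
      refine Prod.ext (Subtype.ext rfl) (Subtype.ext (Prod.ext ?_ ?_))
      · show (lam w)⁻¹ * (lam w * x) = x
        field_simp
      · show lam w ^ 6 * ((lam w)⁻¹ ^ 6 * y) = y
        field_simp
    · have h0 : Continuous (fun p : {p : Fin 3 → ℂ // p 0 ∈ Metric.ball w₀ r ∧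
          ((p 1, p 2) : ℂ × ℂ) ∈ W2} => p.1 0) :=
        (continuous_apply 0).comp continuous_subtype_val
      have h1 : Continuous (fun p : {p : Fin 3 → ℂ // p 0 ∈ Metric.ball w₀ r ∧
          ((p 1, p 2) : ℂ × ℂ) ∈ W2} => p.1 1) :=
        (continuous_apply 1).comp continuous_subtype_val
      have h2 : Continuous (fun p : {p : Fin 3 → ℂ // p 0 ∈ Metric.ball w₀ r ∧
          ((p 1, p 2) : ℂ × ℂ) ∈ W2} => p.1 2) :=
        (continuous_apply 2).comp continuous_subtype_val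
      have hli := (hlc.comp h0).inv₀ (fun a => lam_ne _)
      exact (h0.subtype_mk _).prodMk (((hli.mul h1).prodMk
        (((hlc.comp h0).pow 6).mul h2)).subtype_mk _)
    · refine Continuous.subtype_mk ?_ _
      have h0 : Continuous (fun a : (Metric.ball w₀ r) × W2 => a.1.1) :=
        continuous_subtype_val.comp continuous_fst
      have h1 : Continuous (fun a : (Metric.ball w₀ r) × W2 => a.2.1) :=
        continuous_subtype_val.comp continuous_snd
      have hli : Continuous (fun a : (Metric.ball w₀ r) × W2 => (lam a.1.1)⁻¹) :=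
        (hlc.comp h0).inv₀ (fun a => lam_ne _)
      refine continuous_pi fun i => ?_
      fin_cases i
      · exact h0
      · exact (hlc.comp h0).mul (continuous_fst.comp h1)
      · exact (hli.pow 6).mul (continuous_snd.comp h1)
  have h1 := (Homeomorph.prodAssoc Circle Circle CC).isOpenEmbedding.comp
    (((isOpenEmbedding_loc_E w₀ r hr).prodMap isOpenEmbedding_c2).comp H.isOpenEmbedding)
  have h2 : (fun p : {p : Fin 3 → ℂ //
        p 0 ∈ Metric.ball w₀ r ∧ ((p 1, p 2) : ℂ × ℂ) ∈ W2} =>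
      eK (p.1 0) (p.1 2) ![p.1 1, rt (p.1 1) (p.1 2), p.1 1 ^ 3] (vec2_ne _ _ p.2.2)
        (Wei2 _ _)) =
      (Homeomorph.prodAssoc Circle Circle CC) ∘ (Prod.map (fun w : Metric.ball w₀ r =>
      ((Circle.exp (2 * Real.pi * w.1.im), Circle.exp (2 * Real.pi * w.1.re)) :
        Circle × Circle)) c2 ∘ H) := by
    funext p
    rw [eK_c2 _ _ _ p.2.2]
    show _ = (Homeomorph.prodAssoc Circle Circle CC) (Prod.map (fun w : Metric.ball w₀ r =>
      ((Circle.exp (2 * Real.pi * w.1.im), Circle.exp (2 * Real.pi * w.1.re)) :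
        Circle × Circle)) c2 (H p))
    rw [hH]
    rfl
  rw [h2]
  exact h1

end Pool.Agent.Helper922.HB
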