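import Pool.Agent.Helper922.HB.MV

/-! The key gluing lemma. -/

namespace Pool.Agent.Helper922.HB

universe u v w



/-- TO PROVE -/
theorem key {N : Type u} [TopologicalSpace N] {F : Type v} [TopologicalSpace F]
    {Y : Type w} [TopologicalSpace Y] (i : C(F, N)) (A B : Set F) (hA : IsOpen A) (hB : IsOpen B)
    (hAB : ∀ x, x ∈ A ∨ x ∈ B) (r1 : C(N, Y)) (r2 : C(A, Y)) (r3 : C(B, Y)) (r6 : C(↥(A ∩ B), Y))
    (p2 p3 : C(Y, Y)) (h1 : HE r1) (h2 : HE r2) (h3 : HE r3) (h6 : HE r6)
    (c2 : ∀ x : A, p2 (r2 x) = r1 (i x)) (c3 : ∀ x : B, p3 (r3 x) = r1 (i x))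
    (c62 : ∀ x : ↥(A ∩ B), r2 (inl A B x) = p3 (r6 x))
    (c63 : ∀ x : ↥(A ∩ B), r3 (inr A B x) = p2 (r6 x))
    (Einj : ∀ n, ∀ d ∈ Cyc Y n, push p3 n d ∈ Bdy Y n → push p2 n d ∈ Bdy Y n → d ∈ Bdy Y n)
    (Emid : ∀ n, ∀ b2 ∈ Cyc Y n, ∀ b3 ∈ Cyc Y n, push p2 n b2 - push p3 n b3 ∈ Bdy Y n →
      ∃ a ∈ Cyc Y n, push p3 n a - b2 ∈ Bdy Y n ∧ push p2 n a - b3 ∈ Bdy Y n)
    (Esurj : ∀ n, ∀ c ∈ Cyc Y n, ∃ b2 ∈ Cyc Y n, ∃ b3 ∈ Cyc Y n,
      c - (push p2 n b2 + push p3 n b3) ∈ Bdy Y n) : HE i := by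
  have hRA : ∀ n (u : Sing A n →₀ ℤ), push (r1.comp i) n (push (sub A) n u) =
      push p2 n (push r2 n u) := by
    intro n u
    rw [push_push, push_push]
    congr 1
    congr 1
    ext x
    exact (c2 x).symm
  have hRB : ∀ n (u : Sing B n →₀ ℤ), push (r1.comp i) n (push (sub B) n u) =
      push p3 n (push r3 n u) := by
    intro n u
    rw [push_push, push_push]
    congr 1
    congr 1
    ext x
    exact (c3 x).symm
  have hI2 : ∀ n (d : Sing ↥(A ∩ B) n →₀ ℤ), push r2 n (push (inl A B) n d) =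
      push p3 n (push r6 n d) := by
    intro n u
    rw [push_push, push_push]
    congr 1
    congr 1
    ext x
    exact c62 x
  have hI3 : ∀ n (d : Sing ↥(A ∩ B) n →₀ ℤ), push r3 n (push (inr A B) n d) =
      push p2 n (push r6 n d) := by
    intro n u
    rw [push_push, push_push]
    congr 1
    congr 1
    ext x
    exact c63 x
  have hS : ∀ n (d : Sing ↥(A ∩ B) n →₀ ℤ), push (sub A) n (push (inl A B) n d) =
      push (sub B) n (push (inr A B) n d) := by
    intro n u
    rw [push_push, push_push]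
    congr 1
  -- injectivity for sums of cycles
  have key1 : ∀ n (u : Sing A n →₀ ℤ) (v : Sing B n →₀ ℤ), u ∈ Cyc A n → v ∈ Cyc B n →
      push (r1.comp i) n (push (sub A) n u + push (sub B) n v) ∈ Bdy Y n →
      push (sub A) n u + push (sub B) n v ∈ Bdy F n := by
    intro n u v hu hv h
    rw [map_add, hRA, hRB] at h
    obtain ⟨a, ha, ha2, ha3⟩ := Emid n (push r2 n u) (push_mem_Cyc r2 n u hu)
      (- push r3 n v) ((Cyc Y n).neg_mem (push_mem_Cyc r3 n v hv)) (by
        rw [map_neg, sub_neg_eq_add]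
        exact h)
    obtain ⟨a', ha', haa⟩ := (h6 n).2 a ha
    have e2 : u - push (inl A B) n a' ∈ Bdy A n := by
      apply (h2 n).1 _ ((Cyc A n).sub_mem hu (push_mem_Cyc _ n a' ha'))
      rw [map_sub, hI2]
      have t1 := push_mem_Bdy p3 n _ haa
      rw [map_sub] at t1
      have t2 := (Bdy Y n).sub_mem t1 ha2
      have t3 : push p3 n a - push p3 n (push r6 n a') - (push p3 n a - push r2 n u) =
        push r2 n u - push p3 n (push r6 n a') := by abel
      rwa [t3] at t2
    have e3 : v + push (inr A B) n a' ∈ Bdy B n := by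
      apply (h3 n).1 _ ((Cyc B n).add_mem hv (push_mem_Cyc _ n a' ha'))
      rw [map_add, hI3]
      have t1 := push_mem_Bdy p2 n _ haa
      rw [map_sub] at t1
      have t2 := (Bdy Y n).sub_mem ha3 t1
      have t3 : push p2 n a - - push r3 n v - (push p2 n a - push p2 n (push r6 n a')) =
        push r3 n v + push p2 n (push r6 n a') := by abel
      rwa [t3] at t2
    have t1 := push_mem_Bdy (sub A) n _ e2
    have t2 := push_mem_Bdy (sub B) n _ e3
    rw [map_sub, hS] at t1
    rw [map_add] at t2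
    have t3 := (Bdy F n).add_mem t1 t2
    have t4 : push (sub A) n u - push (sub B) n (push (inr A B) n a') +
      (push (sub B) n v + push (sub B) n (push (inr A B) n a')) =
      push (sub A) n u + push (sub B) n v := by abel
    rwa [t4] at t3
  apply HE.of_comp_left h1
  intro n
  constructor
  · intro z hz hRz
    cases n with
    | zero =>
      obtain ⟨u, v, rfl⟩ := mv_zero A B hAB z
      exact key1 0 u v Submodule.mem_top Submodule.mem_top hRz
    | succ k =>
      obtain ⟨u, v, d, hd, hzuv, hbu, hbv⟩ := mv_split A B hA hB hAB k z hz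
      have hd6 : push r6 k d ∈ Bdy Y k := by
        apply Einj k _ (push_mem_Cyc r6 k d hd)
        · rw [← hI2, ← hbu, ← bdry_push]
          exact ⟨_, rfl⟩
        · rw [← hI3]
          have : push (inr A B) k d = - bdry B k v := by rw [hbv, neg_neg]
          rw [this, map_neg, ← bdry_push]
          exact (Bdy Y k).neg_mem ⟨_, rfl⟩
      obtain ⟨e, he⟩ := (h6 k).1 d hd hd6
      have hu' : u - push (inl A B) (k + 1) e ∈ Cyc A (k + 1) := by
        show bdry A k (u - push (inl A B) (k + 1) e) = 0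
        rw [map_sub, bdry_push, he, hbu, sub_self]
      have hv' : v + push (inr A B) (k + 1) e ∈ Cyc B (k + 1) := by
        show bdry B k (v + push (inr A B) (k + 1) e) = 0
        rw [map_add, bdry_push, he, hbv, neg_add_cancel]
      have heq : push (sub A) (k + 1) (u - push (inl A B) (k + 1) e) +
          push (sub B) (k + 1) (v + push (inr A B) (k + 1) e) =
          push (sub A) (k + 1) u + push (sub B) (k + 1) v := by
        rw [map_sub, map_add, hS]
        abel
      have h7 : push (sub A) (k + 1) (u - push (inl A B) (k + 1) e) +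
          push (sub B) (k + 1) (v + push (inr A B) (k + 1) e) ∈ Bdy F (k + 1) := by
        apply key1 (k + 1) _ _ hu' hv'
        rw [heq]
        have t1 := push_mem_Bdy (r1.comp i) (k + 1) _ hzuv
        rw [map_sub] at t1
        have t2 := (Bdy Y (k + 1)).sub_mem hRz t1
        rwa [sub_sub_cancel] at t2
      rw [heq] at h7
      have h8 := (Bdy F (k + 1)).add_mem hzuv h7
      rwa [sub_add_cancel] at h8
  · intro c hc
    obtain ⟨b2, hb2, b3, hb3, hcb⟩ := Esurj n c hc
    obtain ⟨u, hu, hu2⟩ := (h2 n).2 b2 hb2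
    obtain ⟨v, hv, hv3⟩ := (h3 n).2 b3 hb3
    refine ⟨push (sub A) n u + push (sub B) n v,
      (Cyc F n).add_mem (push_mem_Cyc _ n u hu) (push_mem_Cyc _ n v hv), ?_⟩
    rw [map_add, hRA, hRB]
    have t1 := push_mem_Bdy p2 n _ hu2
    have t2 := push_mem_Bdy p3 n _ hv3
    rw [map_sub] at t1 t2
    have t3 := (Bdy Y n).add_mem hcb ((Bdy Y n).add_mem t1 t2)
    have t4 : c - (push p2 n b2 + push p3 n b3) + (push p2 n b2 - push p2 n (push r2 n u) +
      (push p3 n b3 - push p3 n (push r3 n v))) =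
      c - (push p2 n (push r2 n u) + push p3 n (push r3 n v)) := by abel
    rwa [t4] at t3

end Pool.Agent.Helper922.HB
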