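import Pool.Agent.Helper922.HB.Defs

/-! The model: Weierstrass family, its twisted product with two circles, the data for the
projective embedding. -/

open scoped LinearAlgebra.Projectivization

namespace Pool.Agent.Helper922.HB

/-- The Weierstrass equation `y² z = x³ + t z³` for `v = (x, y, z)`. -/
def Wei (t : ℂ) (v : Fin 3 → ℂ) : Prop := v 1 ^ 2 * v 2 = v 0 ^ 3 + t * v 2 ^ 3

/-- The family of Weierstrass cubics `y² z = x³ + t z³` in `ℂ × ℙ²`. -/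
def CC : Set (ℂ × ℙ ℂ (Fin 3 → ℂ)) := {c | Wei c.1 c.2.rep}

theorem Wei_smul (t : ℂ) (v : Fin 3 → ℂ) (a : ℂ) (h : Wei t v) : Wei t (a • v) := by
  unfold Wei at *
  simp only [Pi.smul_apply, smul_eq_mul]
  linear_combination a ^ 3 * h

theorem mem_CC (t : ℂ) (v : Fin 3 → ℂ) (hv : v ≠ 0) :
    ((t, Projectivization.mk ℂ v hv) : ℂ × ℙ ℂ (Fin 3 → ℂ)) ∈ CC ↔ Wei t v := by
  obtain ⟨a, ha⟩ := Projectivization.exists_smul_eq_mk_rep ℂ v hv
  change Wei t (Projectivization.mk ℂ v hv).rep ↔ Wei t v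
  rw [← ha]
  constructor
  · intro h
    have h2 := Wei_smul t _ ((a⁻¹ : ℂˣ) : ℂ) h
    have h3 : ((a⁻¹ : ℂˣ) : ℂ) • (a • v) = v := by
      rw [Units.smul_def, smul_smul]
      simp
    rwa [h3] at h2
  · intro h
    exact Wei_smul t v a h

/-- The twisted product, topologically `S¹ × S¹ × CC`. -/
abbrev KK : Type := Circle × Circle × CC

/-- The map to `ℂ` on the twisted product. -/
noncomputable def fK (k : KK) : ℂ := (k.2.1 : ℂ) * k.2.2.1.1

theorem vec1_ne (x y : ℂ) : (![x, y, 1] : Fin 3 → ℂ) ≠ 0 := by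
  intro h
  have := congrFun h 2
  simp at this

theorem Wei1 (x y : ℂ) : Wei (y ^ 2 - x ^ 3) ![x, y, 1] := by
  simp [Wei]

/-- The affine chart of the Weierstrass family. -/
noncomputable def c1 (p : ℂ × ℂ) : CC :=
  ⟨(p.2 ^ 2 - p.1 ^ 3, Projectivization.mk ℂ ![p.1, p.2, 1] (vec1_ne _ _)),
    (mem_CC _ _ _).mpr (Wei1 _ _)⟩

/-- The domain of the chart at infinity, points `(s, t)` with `|t| |s|^6 < 1`. -/
def W2 : Set (ℂ × ℂ) := {p | ‖p.2‖ * ‖p.1‖ ^ 6 < 1}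

/-- The principal square root of `1 + t s^6`. -/
noncomputable def rt (s t : ℂ) : ℂ := (1 + t * s ^ 6) ^ ((2 : ℂ)⁻¹)

theorem rt_sq (s t : ℂ) : rt s t ^ 2 = 1 + t * s ^ 6 := by
  have := Complex.cpow_nat_inv_pow (1 + t * s ^ 6) (n := 2) (by norm_num)
  exact_mod_cast this

theorem rt_ne (s t : ℂ) (h : ‖t‖ * ‖s‖ ^ 6 < 1) : rt s t ≠ 0 := by
  intro h0
  have h1 := rt_sq s t
  rw [h0] at h1
  have h2 : t * s ^ 6 = -1 := by linear_combination -h1
  have h3 : ‖t‖ * ‖s‖ ^ 6 = 1 := by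
    rw [← norm_pow, ← norm_mul, h2]
    simp
  linarith

theorem vec2_ne (s t : ℂ) (h : ‖t‖ * ‖s‖ ^ 6 < 1) : (![s, rt s t, s ^ 3] : Fin 3 → ℂ) ≠ 0 := by
  intro h0
  exact rt_ne s t h (congrFun h0 1)

theorem Wei2 (s t : ℂ) : Wei t ![s, rt s t, s ^ 3] := by
  have := rt_sq s t
  simp only [Wei, Matrix.cons_val_zero, Matrix.cons_val_one, Matrix.cons_val]
  rw [this]
  ring

/-- The chart at infinity of the Weierstrass family. -/
noncomputable def c2 (p : W2) : CC :=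
  ⟨(p.1.2, Projectivization.mk ℂ ![p.1.1, rt p.1.1 p.1.2, p.1.1 ^ 3] (vec2_ne _ _ p.2)),
    (mem_CC _ _ _).mpr (Wei2 _ _)⟩

/-- The factor `exp(-π i Re(w) / 3)`. -/
noncomputable def lam (w : ℂ) : ℂ := Complex.exp (-((Real.pi * w.re / 3 : ℝ) : ℂ) * Complex.I)

theorem lam_ne (w : ℂ) : lam w ≠ 0 := Complex.exp_ne_zero _

/-- The weighted action on vectors. -/
def actV (l : ℂ) (v : Fin 3 → ℂ) : Fin 3 → ℂ := ![l ^ 2 * v 0, l ^ 3 * v 1, v 2]

theorem actV_ne (l : ℂ) (hl : l ≠ 0) (v : Fin 3 → ℂ) (hv : v ≠ 0) : actV l v ≠ 0 := by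
  intro h
  apply hv
  have h0 := congrFun h 0
  have h1 := congrFun h 1
  have h2 := congrFun h 2
  simp only [actV, Matrix.cons_val_zero, Matrix.cons_val_one, Matrix.cons_val, Pi.zero_apply,
    mul_eq_zero, pow_eq_zero_iff, ne_eq, OfNat.ofNat_ne_zero, not_false_eq_true, hl, false_or]
    at h0 h1 h2
  funext i
  fin_cases i
  · exact h0
  · exact h1
  · exact h2

theorem Wei_act (l t : ℂ) (v : Fin 3 → ℂ) (h : Wei t v) : Wei (l ^ 6 * t) (actV l v) := by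
  unfold Wei at *
  simp only [actV, Matrix.cons_val_zero, Matrix.cons_val_one, Matrix.cons_val]
  linear_combination l ^ 6 * h

/-- The point of the twisted product defined by `w ∈ ℂ` and a point `(t, [v])` of the family. -/
noncomputable def eK (w t : ℂ) (v : Fin 3 → ℂ) (hv : v ≠ 0) (hW : Wei t v) : KK :=
  (Circle.exp (2 * Real.pi * w.im), Circle.exp (2 * Real.pi * w.re),
    ⟨(lam w ^ 6 * t, Projectivization.mk ℂ (actV (lam w) v) (actV_ne _ (lam_ne w) v hv)),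
      (mem_CC _ _ _).mpr (Wei_act _ _ _ hW)⟩)

/-- The primitive sixth root of unity. -/
noncomputable def zeta : ℂ := Complex.exp (Real.pi * Complex.I / 3)

/-- Elliptic functions used for the projective embedding. -/
structure EData where
  U : ℂ → Fin 3 → ℂ
  A : ℂ → Fin 3 → ℂ
  B : ℂ → Fin 2 → ℂ
  C : ℂ → Fin 2 → ℂ
  U_ne : ∀ w, U w ≠ 0
  A_ne : ∀ w, A w ≠ 0
  B_ne : ∀ w, B w ≠ 0
  C_ne : ∀ w, C w ≠ 0
  U_one : ∀ w, U (w + 1) = U w
  A_one : ∀ w, A (w + 1) = A w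
  B_one : ∀ w, zeta ^ 2 • B (w + 1) = B w
  C_one : ∀ w, zeta ^ 3 • C (w + 1) = C w
  U_I : ∀ w, U (w + Complex.I) = U w
  A_I : ∀ w, A (w + Complex.I) = A w
  B_I : ∀ w, B (w + Complex.I) = B w
  C_I : ∀ w, C (w + Complex.I) = C w
  sep : ∀ (w w' c : ℂ), U w = c • U w' → ∃ m n : ℤ, w = w' + m + n * Complex.I
  lift : ∀ w₀ : ℂ, ∃ r : ℝ, 0 < r ∧ ∃ l m : ℂ → ℂ,
    (∀ w ∈ Metric.ball w₀ r, l w ≠ 0 ∧ m w ≠ 0) ∧
    DifferentiableOn ℂ (fun w => l w • U w) (Metric.ball w₀ r) ∧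
    DifferentiableOn ℂ (fun w => m w • A w) (Metric.ball w₀ r) ∧
    DifferentiableOn ℂ (fun w => m w • B w) (Metric.ball w₀ r) ∧
    DifferentiableOn ℂ (fun w => m w • C w) (Metric.ball w₀ r) ∧
    ∀ w ∈ Metric.ball w₀ r, ∀ c : ℂ, deriv (fun w => l w • U w) w ≠ c • (l w • U w)

/-- The index type of the homogeneous coordinates. -/
abbrev Idx : Type := Fin 3 × (Fin 3 ⊕ (Fin 2 ⊕ Fin 2))

/-- Homogeneous coordinates of the embedding. -/
def Phi (U A : Fin 3 → ℂ) (B C : Fin 2 → ℂ) (v : Fin 3 → ℂ) : Idx → ℂ := fun p =>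
  U p.1 * Sum.elim (fun i => v 2 * A i) (Sum.elim (fun i => v 0 * B i) (fun i => v 1 * C i)) p.2

theorem Phi_ne (U A : Fin 3 → ℂ) (B C : Fin 2 → ℂ) (v : Fin 3 → ℂ) (hU : U ≠ 0) (hA : A ≠ 0)
    (hB : B ≠ 0) (hC : C ≠ 0) (hv : v ≠ 0) : Phi U A B C v ≠ 0 := by
  obtain ⟨i, hi⟩ := Function.ne_iff.mp hU
  obtain ⟨a, ha⟩ := Function.ne_iff.mp hA
  obtain ⟨b, hb⟩ := Function.ne_iff.mp hB
  obtain ⟨c, hc⟩ := Function.ne_iff.mp hC
  obtain ⟨k, hk⟩ := Function.ne_iff.mp hv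
  intro h
  fin_cases k
  · have := congrFun h (i, Sum.inr (Sum.inl b))
    simp only [Phi, Sum.elim_inr, Sum.elim_inl, Pi.zero_apply, mul_eq_zero] at this
    rcases this with h | h | h
    · exact hi h
    · exact hk h
    · exact hb h
  · have := congrFun h (i, Sum.inr (Sum.inr c))
    simp only [Phi, Sum.elim_inr, Pi.zero_apply, mul_eq_zero] at this
    rcases this with h | h | h
    · exact hi h
    · exact hk h
    · exact hc h
  · have := congrFun h (i, Sum.inl a)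
    simp only [Phi, Sum.elim_inl, Pi.zero_apply, mul_eq_zero] at this
    rcases this with h | h | h
    · exact hi h
    · exact hk h
    · exact ha h

/-- `j` is the map defined by the elliptic data. -/
def IsEmb (D : EData) (j : KK → ℂ × ℙ ℂ (Idx → ℂ)) : Prop :=
  ∀ (w t : ℂ) (v : Fin 3 → ℂ) (hv : v ≠ 0) (hW : Wei t v),
    j (eK w t v hv hW) = (t, Projectivization.mk ℂ (Phi (D.U w) (D.A w) (D.B w) (D.C w) v)
      (Phi_ne _ _ _ _ _ (D.U_ne w) (D.A_ne w) (D.B_ne w) (D.C_ne w) hv))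

end Pool.Agent.Helper922.HB
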