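import Pool.Agent.Helper922.HB.TopDefs
import Pool.Agent.Helper922.HB.Cover
import Pool.Agent.Helper922.HB.G2
import Pool.Agent.Helper922.HB.FN
import Pool.Agent.Helper922.HB.Top0

/-! Assembly: the inclusion of every fibre is a homology equivalence. -/

open scoped LinearAlgebra.Projectivization Topology

namespace Pool.Agent.Helper922.HB

universe u v



theorem HE_fK_transport {N : Type u} [TopologicalSpace N] {Y : Type v} [TopologicalSpace Y]
    (e : N → Y) (he : Topology.IsEmbedding e) (O : Set Y) (hO : Set.range e = O) (F : Set Y)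
    (h : HE (sub (e ⁻¹' F))) : HE ((sub F).restrictPreimage O) := by
  subst hO
  let k : (e ⁻¹' F) → ((sub F) ⁻¹' (Set.range e)) := fun x => ⟨⟨e x.1, x.2⟩, ⟨x.1, rfl⟩⟩
  have hk : Continuous k :=
    Continuous.subtype_mk (Continuous.subtype_mk (he.continuous.comp continuous_subtype_val) _) _
  have hkemb : Topology.IsEmbedding k := by
    refine Topology.IsEmbedding.of_comp hk
      (continuous_subtype_val.comp continuous_subtype_val :
        Continuous fun x : ((sub F) ⁻¹' (Set.range e)) => x.1.1) ?_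
    exact he.comp Topology.IsEmbedding.subtypeVal
  have hksurj : Function.Surjective k := by
    rintro ⟨⟨y, hy⟩, ⟨x, hx⟩⟩
    have hx' : e x = y := hx
    subst hx'
    exact ⟨⟨x, hy⟩, rfl⟩
  let h2 : (e ⁻¹' F) ≃ₜ ((sub F) ⁻¹' (Set.range e)) := hkemb.toHomeomorphOfSurjective hksurj
  let h1 : N ≃ₜ Set.range e := he.toHomeomorph
  have hk2 : HE (⟨k, hk⟩ : C(_, _)) := HE_of_homeo h2 _ (fun _ => rfl)
  have hh1 : HE (⟨h1, h1.continuous⟩ : C(_, _)) := HE_of_homeo h1 _ (fun _ => rfl)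
  refine HE.of_comp_right hk2 ?_
  have := hh1.comp h
  have heq : ((sub F).restrictPreimage (Set.range e)).comp (⟨k, hk⟩ : C(_, _)) =
      (⟨h1, h1.continuous⟩ : C(_, _)).comp (sub (e ⁻¹' F)) :=
    ContinuousMap.ext fun x => Subtype.ext rfl
  rw [heq]
  exact this

theorem HE_fK_open1 : Topology.IsOpenEmbedding
    (Prod.map id (Prod.map id c1) : Circle × Circle × ℂ × ℂ → KK) :=
  Topology.IsOpenEmbedding.id.prodMap (Topology.IsOpenEmbedding.id.prodMap isOpenEmbedding_c1)

theorem HE_fK_open2 : Topology.IsOpenEmbedding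
    (Prod.map id (Prod.map id c2) : Circle × Circle × W2 → KK) :=
  Topology.IsOpenEmbedding.id.prodMap (Topology.IsOpenEmbedding.id.prodMap isOpenEmbedding_c2)

/-- TO PROVE -/
theorem HE_fK (b : ℂ) : HE (sub (fK ⁻¹' {b})) := by
  have r1 : Set.range (Prod.map id (Prod.map id c1) : Circle × Circle × ℂ × ℂ → KK) =
      {k : KK | k.2.2 ∈ Set.range c1} := by
    ext ⟨β, θ, c⟩
    constructor
    · rintro ⟨⟨β', θ', p⟩, h⟩
      simp only [Prod.map, id, Prod.mk.injEq] at h
      exact ⟨p, h.2.2⟩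
    · rintro ⟨p, h⟩
      exact ⟨(β, θ, p), by simp only [Prod.map, id]; rw [h]⟩
  have r2 : Set.range (Prod.map id (Prod.map id c2) : Circle × Circle × W2 → KK) =
      {k : KK | k.2.2 ∈ Set.range c2} := by
    ext ⟨β, θ, c⟩
    constructor
    · rintro ⟨⟨β', θ', p⟩, h⟩
      simp only [Prod.map, id, Prod.mk.injEq] at h
      exact ⟨p, h.2.2⟩
    · rintro ⟨p, h⟩
      exact ⟨(β, θ, p), by simp only [Prod.map, id]; rw [h]⟩
  have hinc : (W2' : Set (ℂ × ℂ)) ⊆ W2 := fun p hp => hp.1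
  have r12 : Set.range (Prod.map id (Prod.map id (c2 ∘ Set.inclusion hinc)) :
      Circle × Circle × W2' → KK) =
      {k : KK | k.2.2 ∈ Set.range c1} ∩ {k : KK | k.2.2 ∈ Set.range c2} := by
    ext ⟨β, θ, c⟩
    constructor
    · rintro ⟨⟨β', θ', p⟩, h⟩
      simp only [Prod.map, id, Prod.mk.injEq] at h
      refine ⟨?_, ⟨Set.inclusion hinc p, h.2.2⟩⟩
      show c ∈ Set.range c1
      rw [← h.2.2]
      exact (c2_mem_range_c1 _).2 p.2.2
    · rintro ⟨h1, ⟨p, h⟩⟩
      have h1' : c ∈ Set.range c1 := h1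
      have h' : c2 p = c := h
      rw [← h'] at h1'
      have h2 := (c2_mem_range_c1 p).1 h1'
      refine ⟨(β, θ, ⟨p.1, p.2, h2⟩), ?_⟩
      simp only [Prod.map, id, Function.comp]
      rw [← h']
  refine HE_of_cover (sub (fK ⁻¹' {b})) {k | k.2.2 ∈ Set.range c1} {k | k.2.2 ∈ Set.range c2}
    ?_ ?_ (fun k => mem_range_or k.2.2) ?_ ?_ ?_
  · rw [← r1]
    exact HE_fK_open1.isOpen_range
  · rw [← r2]
    exact HE_fK_open2.isOpen_range
  · exact HE_fK_transport _ HE_fK_open1.isEmbedding _ r1 _ (HE_FN b)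
  · exact HE_fK_transport _ HE_fK_open2.isEmbedding _ r2 _ (HE_inf b)
  · refine HE_fK_transport _ ?_ _ r12 _ (HE_inf' b)
    exact Topology.IsEmbedding.id.prodMap (Topology.IsEmbedding.id.prodMap
      (isOpenEmbedding_c2.isEmbedding.comp (Topology.IsEmbedding.inclusion hinc)))

end Pool.Agent.Helper922.HB
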