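import Pool.Agent.Helper922.HB.MVDefs
import Pool.Agent.Helper922.HB.Model

/-! Definitions for the topological part: power maps, the affine fibre, its pieces. -/

namespace Pool.Agent.Helper922.HB

universe u v w

/-- the power map on the second factor -/
noncomputable def pw (Q : Type u) [TopologicalSpace Q] (m : ℕ) : C(Q × Circle, Q × Circle) :=
  ⟨fun p => (p.1, p.2 ^ m), by fun_prop⟩

/-- the affine part of the total space, points `(β, θ, x, y)` -/
abbrev NN : Type := Circle × Circle × ℂ × ℂ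

/-- the map to `ℂ` on the affine part -/
noncomputable def fN (p : NN) : ℂ := (p.2.1 : ℂ) * (p.2.2.2 ^ 2 - p.2.2.1 ^ 3)

/-- the affine fibre over `b` -/
def FN (b : ℂ) : Set NN := {p | fN p = b}

/-- the function `u = θ y² / b` -/
noncomputable def uu (b : ℂ) (p : NN) : ℂ := (p.2.1 : ℂ) * p.2.2.2 ^ 2 / b

/-- the first piece -/
def FA (b : ℂ) : Set (FN b) := {p | 1 / 3 < (uu b p.1).re}

/-- the second piece -/
def FB (b : ℂ) : Set (FN b) := {p | (uu b p.1).re < 2 / 3}

/-- principal square root -/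
noncomputable def sq (z : ℂ) : ℂ := z ^ ((2 : ℂ)⁻¹)

/-- principal cube root -/
noncomputable def cb (z : ℂ) : ℂ := z ^ ((3 : ℂ)⁻¹)

theorem sq_sq (z : ℂ) : sq z ^ 2 = z := by
  have := Complex.cpow_nat_inv_pow z (n := 2) (by norm_num)
  exact_mod_cast this

theorem cb_cube (z : ℂ) : cb z ^ 3 = z := by
  have := Complex.cpow_nat_inv_pow z (n := 3) (by norm_num)
  exact_mod_cast this

theorem FN_eq {b : ℂ} (hb : b ≠ 0) (p : FN b) :
    1 - uu b p.1 = - ((p.1.2.1 : ℂ) * p.1.2.2.1 ^ 3 / b) := by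
  have h : (p.1.2.1 : ℂ) * (p.1.2.2.2 ^ 2 - p.1.2.2.1 ^ 3) = b := p.2
  unfold uu
  field_simp
  linear_combination -h

theorem coe_ne (z : Circle) : (z : ℂ) ≠ 0 := Circle.coe_ne_zero z

/-- the second coordinate of the map on the first piece -/
theorem r2_aux {b : ℂ} (hb : b ≠ 0) (p : FA b) :
    (p.1.1.2.2.2 / (sq b * sq (uu b p.1.1))) ^ 2 = ((p.1.1.2.1⁻¹ : Circle) : ℂ) := by
  have hu : uu b p.1.1 ≠ 0 := by
    intro h
    have h2 : 1 / 3 < (uu b p.1.1).re := p.2
    rw [h] at h2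
    norm_num at h2
  have hth := coe_ne p.1.1.2.1
  rw [div_pow, mul_pow, sq_sq, sq_sq, Circle.coe_inv]
  have hy : p.1.1.2.2.2 ≠ 0 := by
    intro h
    apply hu
    unfold uu
    rw [h]
    simp
  unfold uu
  field_simp

theorem norm_one_of_pow {z w : ℂ} {m : ℕ} (hm : m ≠ 0) (h : z ^ m = w) (hw : ‖w‖ = 1) : ‖z‖ = 1 := by
  have h2 : ‖z‖ ^ m = 1 := by rw [← norm_pow, h, hw]
  exact (pow_eq_one_iff_of_nonneg (norm_nonneg _) hm).mp h2

theorem r3_aux {b : ℂ} (hb : b ≠ 0) (p : FB b) :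
    (p.1.1.2.2.1 / (cb (-b) * cb (1 - uu b p.1.1))) ^ 3 = ((p.1.1.2.1⁻¹ : Circle) : ℂ) := by
  have hu : 1 - uu b p.1.1 ≠ 0 := by
    intro h
    have h2 : (uu b p.1.1).re < 2 / 3 := p.2
    have h3 : uu b p.1.1 = 1 := by linear_combination -h
    rw [h3] at h2
    norm_num at h2
  have hth := coe_ne p.1.1.2.1
  rw [div_pow, mul_pow, cb_cube, cb_cube, Circle.coe_inv]
  have h1 := FN_eq hb p.1
  have hx : p.1.1.2.2.1 ≠ 0 := by
    intro h
    apply hu
    rw [h1, h]
    simp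
  rw [h1]
  field_simp

theorem continuous_uu (b : ℂ) : Continuous (uu b) := by
  unfold uu
  fun_prop

theorem uA {b : ℂ} (p : FA b) : uu b p.1.1 ∈ Complex.slitPlane := by
  have h2 : 1 / 3 < (uu b p.1.1).re := p.2
  exact Or.inl (by linarith)

theorem uB {b : ℂ} (p : FB b) : 1 - uu b p.1.1 ∈ Complex.slitPlane := by
  have h2 : (uu b p.1.1).re < 2 / 3 := p.2
  refine Or.inl ?_
  rw [Complex.sub_re, Complex.one_re]
  linarith

theorem sq_ne {z : ℂ} (hz : z ≠ 0) : sq z ≠ 0 := by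
  intro h
  apply hz
  rw [← sq_sq z, h]
  simp

theorem cb_ne {z : ℂ} (hz : z ≠ 0) : cb z ≠ 0 := by
  intro h
  apply hz
  rw [← cb_cube z, h]
  simp

theorem norm_r2 {b : ℂ} (hb : b ≠ 0) (p : FA b) :
    ‖p.1.1.2.2.2 / (sq b * sq (uu b p.1.1))‖ = 1 :=
  norm_one_of_pow two_ne_zero (r2_aux hb p) (Circle.norm_coe _)

theorem norm_r3 {b : ℂ} (hb : b ≠ 0) (p : FB b) :
    ‖p.1.1.2.2.1 / (cb (-b) * cb (1 - uu b p.1.1))‖ = 1 :=
  norm_one_of_pow three_ne_zero (r3_aux hb p) (Circle.norm_coe _)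

theorem continuous_sq_uu {b : ℂ} : Continuous fun p : FA b => sq (uu b p.1.1) := by
  unfold sq
  have h : Continuous fun p : FA b => uu b p.1.1 :=
    (continuous_uu b).comp (continuous_subtype_val.comp continuous_subtype_val)
  rw [continuous_iff_continuousAt]
  intro p
  exact (h.continuousAt).cpow continuousAt_const (uA p)

theorem continuous_cb_uu {b : ℂ} : Continuous fun p : FB b => cb (1 - uu b p.1.1) := by
  unfold cb
  have h : Continuous fun p : FB b => 1 - uu b p.1.1 :=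
    continuous_const.sub ((continuous_uu b).comp (continuous_subtype_val.comp continuous_subtype_val))
  rw [continuous_iff_continuousAt]
  intro p
  exact (h.continuousAt).cpow continuousAt_const (uB p)

/-- the map `(β, θ, x, y) ↦ (β, θ⁻¹)` -/
noncomputable def r1 : C(NN, Circle × Circle) := ⟨fun p => (p.1, p.2.1⁻¹), by fun_prop⟩

/-- the map `(β, θ, x, y) ↦ (β, y / (√b √u))` -/
noncomputable def r2 {b : ℂ} (hb : b ≠ 0) : C(FA b, Circle × Circle) :=
  ⟨fun p => (p.1.1.1, ⟨p.1.1.2.2.2 / (sq b * sq (uu b p.1.1)),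
    mem_sphere_zero_iff_norm.mpr (norm_r2 hb p)⟩), by
    refine Continuous.prodMk (by fun_prop) ?_
    refine Continuous.subtype_mk ?_ _
    refine Continuous.div (by fun_prop) (continuous_const.mul continuous_sq_uu) ?_
    intro p
    exact mul_ne_zero (sq_ne hb) (sq_ne (Complex.slitPlane_ne_zero (uA p)))⟩

/-- the map `(β, θ, x, y) ↦ (β, x / (∛(-b) ∛(1-u)))` -/
noncomputable def r3 {b : ℂ} (hb : b ≠ 0) : C(FB b, Circle × Circle) :=
  ⟨fun p => (p.1.1.1, ⟨p.1.1.2.2.1 / (cb (-b) * cb (1 - uu b p.1.1)),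
    mem_sphere_zero_iff_norm.mpr (norm_r3 hb p)⟩), by
    refine Continuous.prodMk (by fun_prop) ?_
    refine Continuous.subtype_mk ?_ _
    refine Continuous.div (by fun_prop) (continuous_const.mul continuous_cb_uu) ?_
    intro p
    exact mul_ne_zero (cb_ne (neg_ne_zero.mpr hb)) (cb_ne (Complex.slitPlane_ne_zero (uB p)))⟩

/-- the quotient of the two previous maps -/
noncomputable def r6 {b : ℂ} (hb : b ≠ 0) : C(↥(FA b ∩ FB b), Circle × Circle) :=
  ⟨fun p => (p.1.1.1, (r2 hb (inl _ _ p)).2 / (r3 hb (inr _ _ p)).2), by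
    refine Continuous.prodMk (by fun_prop) ?_
    refine Continuous.div' ?_ ?_
    · exact continuous_snd.comp ((r2 hb).continuous.comp (inl _ _).continuous)
    · exact continuous_snd.comp ((r3 hb).continuous.comp (inr _ _).continuous)⟩

end Pool.Agent.Helper922.HB
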